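import Mathlib

/-!
The subgroup of functions on `ω₁` generated by the unit vectors and by the indicator functions
of the members of a ladder system, and its lack of suitable sets (combinatorial form).
-/

namespace Pool.Agent.V116.LadderGroup

open Set

variable {I : Type} [LinearOrder I]

/-- `a` is a limit. -/
def IsLim (a : I) : Prop := (∃ b, b < a) ∧ ∀ b < a, ∃ c, b < c ∧ c < a

/-- Conditions on the index set (satisfied by `ω₁`). -/
structure Good (I : Type) [LinearOrder I] : Prop where
  wf : WellFoundedLT I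
  ne : Nonempty I
  ctbl : ∀ a : I, (Set.Iic a).Countable
  bdd : ∀ C : Set I, C.Countable → ∃ b, ∀ c ∈ C, c < b

/-- A ladder system. -/
def IsLadder (L : I → Set I) : Prop :=
  (∀ a, ∀ b ∈ L a, b < a) ∧ (∀ a, ∀ b < a, (L a ∩ Set.Iio b).Finite) ∧
    ∀ a, IsLim a → ∀ b < a, ∃ c ∈ L a, b < c

lemma exists_ladder (hI : Good I) : ∃ L : I → Set I, IsLadder L := by
  classical
  have h : ∀ a : I, ∃ s : Set I, (∀ b ∈ s, b < a) ∧ (∀ b < a, (s ∩ Set.Iio b).Finite) ∧
      (IsLim a → ∀ b < a, ∃ c ∈ s, b < c) := by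
    intro a
    by_cases hne : (Set.Iio a).Nonempty
    · have hc : (Set.Iio a).Countable := (hI.ctbl a).mono Set.Iio_subset_Iic_self
      obtain ⟨f, hf⟩ := hc.exists_eq_range hne
      have hfa : ∀ n, f n < a := by
        intro n
        have : f n ∈ Set.Iio a := by
          rw [hf]
          exact ⟨n, rfl⟩
        exact this
      let m : ℕ → I := fun n => Nat.rec (f 0) (fun n x => max x (f (n + 1))) n
      have hm0 : m 0 = f 0 := rfl
      have hms : ∀ n, m (n + 1) = max (m n) (f (n + 1)) := fun n => rfl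
      have hma : ∀ n, m n < a := by
        intro n
        induction n with
        | zero => exact hfa 0
        | succ n ih =>
          rw [hms]
          exact max_lt ih (hfa _)
      have hmono : Monotone m := by
        apply monotone_nat_of_le_succ
        intro n
        rw [hms]
        exact le_max_left _ _
      have hfm : ∀ n, f n ≤ m n := by
        intro n
        cases n with
        | zero => exact le_rfl
        | succ n =>
          rw [hms]
          exact le_max_right _ _
      refine ⟨Set.range m, ?_, ?_, ?_⟩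
      · rintro _ ⟨n, rfl⟩
        exact hma n
      · intro b hb
        have hb' : b ∈ Set.Iio a := hb
        rw [hf] at hb'
        obtain ⟨k, hk⟩ := hb'
        refine ((Finset.range k).finite_toSet.image m).subset ?_
        rintro _ ⟨⟨n, rfl⟩, hn⟩
        refine ⟨n, ?_, rfl⟩
        rw [Finset.coe_range, Set.mem_Iio]
        by_contra hkn
        rw [not_lt] at hkn
        have h1 : b ≤ m n := by
          rw [← hk]
          exact (hfm k).trans (hmono hkn)
        exact absurd hn (not_lt_of_ge h1)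
      · intro hlim b hb
        obtain ⟨c, hbc, hca⟩ := hlim.2 b hb
        have hc' : c ∈ Set.Iio a := hca
        rw [hf] at hc'
        obtain ⟨k, hk⟩ := hc'
        refine ⟨m k, ⟨k, rfl⟩, lt_of_lt_of_le hbc ?_⟩
        rw [← hk]
        exact hfm k
    · refine ⟨∅, by simp, by simp, ?_⟩
      intro hlim
      obtain ⟨b, hb⟩ := hlim.1
      exact absurd ⟨b, hb⟩ hne
  choose L h1 h2 h3 using h
  exact ⟨L, h1, h2, h3⟩

/-- Closing-off: there are arbitrarily large points closed under a function. -/
lemma exists_closed (hI : Good I) (f : I → I) (a : I) :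
    ∃ d, a < d ∧ ∀ b < d, b < f b → f b < d := by
  classical
  have hg : ∀ b : I, ∃ c, b < c ∧ ∀ x ≤ b, f x < c := by
    intro b
    have hc : ((f '' Set.Iic b) ∪ {b}).Countable :=
      ((hI.ctbl b).image f).union (Set.countable_singleton b)
    obtain ⟨c, hc⟩ := hI.bdd _ hc
    exact ⟨c, hc b (Or.inr rfl), fun x hx => hc _ (Or.inl ⟨x, hx, rfl⟩)⟩
  choose g hg1 hg2 using hg
  let d : ℕ → I := fun n => Nat.rec a (fun _ x => g x) n
  have hd0 : d 0 = a := rfl
  have hds : ∀ n, d (n + 1) = g (d n) := fun n => rfl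
  obtain ⟨c, hc⟩ := hI.bdd (Set.range d) (Set.countable_range d)
  have hwf := hI.wf
  have hne : {c : I | ∀ n, d n < c}.Nonempty := ⟨c, fun n => hc _ ⟨n, rfl⟩⟩
  let D := wellFounded_lt.min {c : I | ∀ n, d n < c} hne
  have hD : ∀ n, d n < D := wellFounded_lt.min_mem {c : I | ∀ n, d n < c} hne
  refine ⟨D, hD 0, ?_⟩
  intro b hb _
  have h1 : b ∉ {c : I | ∀ n, d n < c} := by
    intro hmem
    exact wellFounded_lt.not_lt_min {c : I | ∀ n, d n < c} hmem hb
  simp only [Set.mem_setOf_eq, not_forall, not_lt] at h1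
  obtain ⟨n, hn⟩ := h1
  calc f b < g (d n) := hg2 _ _ hn
    _ = d (n + 1) := (hds n).symm
    _ < D := hD (n + 1)

/-- The unit vector. -/
def e [DecidableEq I] (a : I) : I → ℤ := Pi.single a 1

open Classical in
/-- The indicator function of `L a`. -/
noncomputable def x (L : I → Set I) (a : I) : I → ℤ := fun b => if b ∈ L a then 1 else 0

open Classical in
/-- The group generated by unit vectors and ladders. -/
noncomputable def H0 (L : I → Set I) : AddSubgroup (I → ℤ) :=
  AddSubgroup.closure (Set.range (fun a : I => (Pi.single a 1 : I → ℤ)) ∪ Set.range (x L))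

/-- Agreement below `c`. -/
def Agree (c : I) (f g : I → ℤ) : Prop := ∀ b < c, f b = g b

lemma Agree.mono {c d : I} {f g : I → ℤ} (h : Agree d f g) (hcd : c ≤ d) : Agree c f g :=
  fun b hb => h b (lt_of_lt_of_le hb hcd)

lemma Agree.symm {c : I} {f g : I → ℤ} (h : Agree c f g) : Agree c g f :=
  fun b hb => (h b hb).symm

lemma Agree.trans {c : I} {f g k : I → ℤ} (h : Agree c f g) (h' : Agree c g k) :
    Agree c f k :=
  fun b hb => (h b hb).trans (h' b hb)

/-- Truncation at `c`. -/
def trunc (c : I) (f : I → ℤ) : I → ℤ := fun b => if b < c then f b else 0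

lemma agree_trunc (c : I) (f : I → ℤ) : Agree c (trunc c f) f := by
  intro b hb
  simp [trunc, hb]

lemma trunc_congr {c : I} {f g : I → ℤ} (h : Agree c f g) : trunc c f = trunc c g := by
  funext b
  unfold trunc
  split_ifs with hb
  · exact h b hb
  · rfl

lemma mem_of_finite_support {A : AddSubgroup (I → ℤ)} [DecidableEq I] {f : I → ℤ}
    (hf : {b | f b ≠ 0}.Finite)
    (hA : ∀ b, f b ≠ 0 → (Pi.single b 1 : I → ℤ) ∈ A) : f ∈ A := by
  have h1 : f = ∑ b ∈ hf.toFinset, f b • (Pi.single b 1 : I → ℤ) := by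
    funext c
    rw [Finset.sum_apply]
    by_cases hc : f c = 0
    · rw [hc]
      symm
      apply Finset.sum_eq_zero
      intro b hb
      have hb' : f b ≠ 0 := by simpa using hb
      have hbc : c ≠ b := by
        rintro rfl
        exact hb' hc
      simp [Pi.single_eq_of_ne hbc]
    · rw [Finset.sum_eq_single c]
      · simp
      · intro b _ hbc
        simp [Pi.single_eq_of_ne hbc.symm]
      · intro hc'
        exact absurd (by simpa using hc) hc'
  rw [h1]
  apply AddSubgroup.sum_mem
  intro b hb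
  apply AddSubgroup.zsmul_mem
  exact hA b (by simpa using hb)

/-- Truncation is additive. -/
def truncHom (c : I) : (I → ℤ) →+ (I → ℤ) where
  toFun := trunc c
  map_zero' := by
    funext b
    simp [trunc]
  map_add' := by
    intro f g
    funext b
    simp only [trunc, Pi.add_apply]
    split_ifs <;> simp

section

variable {L : I → Set I}

open Classical in
lemma single_mem (a : I) : (Pi.single a 1 : I → ℤ) ∈ H0 L :=
  AddSubgroup.subset_closure (Or.inl ⟨a, rfl⟩)

lemma x_mem (a : I) : x L a ∈ H0 L := AddSubgroup.subset_closure (Or.inr ⟨a, rfl⟩)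

open Classical in
/-- Generators of the group of truncations. -/
def gens (L : I → Set I) (c : I) : Set (I → ℤ) :=
  ((fun a : I => (Pi.single a 1 : I → ℤ)) '' Set.Iic c) ∪ (x L '' Set.Iic c)

open Classical in
lemma trunc_x (hL : IsLadder L) {a c : I} :
    trunc c (x L a) ∈ AddSubgroup.closure (gens L c) := by
  by_cases hac : a ≤ c
  · have h1 : trunc c (x L a) = x L a := by
      funext b
      unfold trunc
      split_ifs with hb
      · rfl
      · symm
        unfold x
        rw [if_neg]
        intro hb'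
        exact hb (lt_of_lt_of_le (hL.1 a b hb') hac)
    rw [h1]
    exact AddSubgroup.subset_closure (Or.inr ⟨a, hac, rfl⟩)
  · rw [not_le] at hac
    apply mem_of_finite_support
    · refine (hL.2.1 a c hac).subset ?_
      intro b hb
      simp only [trunc, x, Set.mem_setOf_eq, ne_eq, ite_eq_right_iff, not_forall] at hb
      obtain ⟨h1, h2, _⟩ := hb
      exact ⟨h2, h1⟩
    · intro b hb
      simp only [trunc, x, ne_eq, ite_eq_right_iff, not_forall] at hb
      obtain ⟨h1, h2, _⟩ := hb
      exact AddSubgroup.subset_closure (Or.inl ⟨b, h1.le, rfl⟩)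

open Classical in
lemma trunc_mem (hL : IsLadder L) {f : I → ℤ} (hf : f ∈ H0 L) (c : I) :
    trunc c f ∈ AddSubgroup.closure (gens L c) := by
  have h1 : H0 L ≤ (AddSubgroup.closure (gens L c)).comap (truncHom c) := by
    unfold H0
    rw [AddSubgroup.closure_le]
    rintro g (⟨a, rfl⟩ | ⟨a, rfl⟩)
    · change trunc c (Pi.single a 1 : I → ℤ) ∈ AddSubgroup.closure (gens L c)
      by_cases hac : a < c
      · have h1 : trunc c (Pi.single a 1 : I → ℤ) = (Pi.single a 1 : I → ℤ) := by
          funext b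
          unfold trunc
          split_ifs with hb
          · rfl
          · symm
            apply Pi.single_eq_of_ne
            rintro rfl
            exact hb hac
        rw [h1]
        exact AddSubgroup.subset_closure (Or.inl ⟨a, hac.le, rfl⟩)
      · have h1 : trunc c (Pi.single a 1 : I → ℤ) = 0 := by
          funext b
          unfold trunc
          split_ifs with hb
          · change (Pi.single a 1 : I → ℤ) b = 0
            apply Pi.single_eq_of_ne
            rintro rfl
            exact hac hb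
          · rfl
        rw [h1]
        exact AddSubgroup.zero_mem _
    · exact trunc_x hL
  exact h1 hf

lemma gens_sub (c : I) : gens L c ⊆ H0 L := by
  rintro f (⟨a, _, rfl⟩ | ⟨a, _, rfl⟩)
  · exact single_mem a
  · exact x_mem a

lemma trunc_mem_H0 (hL : IsLadder L) {f : I → ℤ} (hf : f ∈ H0 L) (c : I) :
    trunc c f ∈ H0 L := by
  have h1 : AddSubgroup.closure (gens L c) ≤ H0 L := by
    rw [AddSubgroup.closure_le]
    exact gens_sub c
  exact h1 (trunc_mem hL hf c)

lemma countable_closure {s : Set (I → ℤ)} (hs : s.Countable) :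
    (AddSubgroup.closure s : Set (I → ℤ)).Countable := by
  rcases s.eq_empty_or_nonempty with rfl | hne
  · rw [AddSubgroup.closure_empty]
    exact Set.countable_singleton 0
  obtain ⟨f, rfl⟩ := hs.exists_eq_range hne
  rw [← Submodule.span_int_eq_addSubgroupClosure]
  have : Countable (Submodule.span ℤ (Set.range f)) := inferInstance
  exact Set.countable_coe_iff.mp this

lemma countable_trunc (hI : Good I) (hL : IsLadder L) (c : I) :
    (trunc c '' (H0 L : Set (I → ℤ))).Countable := by
  have h1 : (gens L c).Countable := ((hI.ctbl c).image _).union ((hI.ctbl c).image _)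
  refine (countable_closure h1).mono ?_
  rintro _ ⟨f, hf, rfl⟩
  exact trunc_mem hL hf c

/-- Accumulation points of the support. -/
def Acc (f : I → ℤ) : Set I :=
  {d | (∃ c, c < d) ∧ ∀ c < d, ∃ b, c < b ∧ b < d ∧ f b ≠ 0}

lemma acc_finite (hL : IsLadder L) {f : I → ℤ} (hf : f ∈ H0 L) : (Acc f).Finite := by
  classical
  unfold H0 at hf
  induction hf using AddSubgroup.closure_induction with
  | mem f hf =>
    rcases hf with ⟨a, rfl⟩ | ⟨a, rfl⟩
    · refine Set.finite_empty.subset ?_
      intro d hd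
      obtain ⟨⟨c, hc⟩, hd⟩ := hd
      obtain ⟨b, hb1, hb2, hb3⟩ := hd c hc
      have hba : b = a := by
        by_contra hne
        exact hb3 (Pi.single_eq_of_ne hne 1)
      subst hba
      obtain ⟨b', hb1', hb2', hb3'⟩ := hd b hb2
      exact absurd (Pi.single_eq_of_ne hb1'.ne' 1) hb3'
    · refine (Set.finite_singleton a).subset ?_
      intro d hd
      obtain ⟨⟨c0, hc0⟩, hd⟩ := hd
      rw [Set.mem_singleton_iff]
      have hx : ∀ b, x L a b ≠ 0 → b ∈ L a := by
        intro b hb
        by_contra hbL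
        exact hb (by simp [x, hbL])
      rcases lt_trichotomy d a with hda | hda | hda
      · exfalso
        have hfin := hL.2.1 a d hda
        have hne : (L a ∩ Set.Iio d).Nonempty := by
          obtain ⟨b, _, hb2, hb3⟩ := hd c0 hc0
          exact ⟨b, hx b hb3, hb2⟩
        obtain ⟨m, hm, hmax⟩ := Set.exists_max_image (L a ∩ Set.Iio d) id hfin hne
        obtain ⟨b, hb1, hb2, hb3⟩ := hd m hm.2
        exact absurd (hmax b ⟨hx b hb3, hb2⟩) (not_le_of_gt hb1)
      · exact hda
      · exfalso
        obtain ⟨b, hb1, hb2, hb3⟩ := hd a hda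
        exact absurd (hL.1 a b (hx b hb3)) (not_lt_of_gt hb1)
  | zero =>
    refine Set.finite_empty.subset ?_
    intro d hd
    obtain ⟨⟨c, hc⟩, hd⟩ := hd
    obtain ⟨b, _, _, hb3⟩ := hd c hc
    exact absurd rfl hb3
  | add f g _ _ hf hg =>
    refine (hf.union hg).subset ?_
    intro d hd
    obtain ⟨⟨c, hc⟩, hd⟩ := hd
    by_contra hcon
    rw [Set.mem_union, not_or] at hcon
    obtain ⟨h1, h2⟩ := hcon
    have h1' : ∃ c1 < d, ∀ b, c1 < b → b < d → f b = 0 := by
      by_contra hno
      push Not at hno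
      exact h1 ⟨⟨c, hc⟩, fun c' hc' => by
        obtain ⟨b, hb⟩ := hno c' hc'
        exact ⟨b, hb⟩⟩
    have h2' : ∃ c1 < d, ∀ b, c1 < b → b < d → g b = 0 := by
      by_contra hno
      push Not at hno
      exact h2 ⟨⟨c, hc⟩, fun c' hc' => by
        obtain ⟨b, hb⟩ := hno c' hc'
        exact ⟨b, hb⟩⟩
    obtain ⟨c1, hc1, hf1⟩ := h1'
    obtain ⟨c2, hc2, hg2⟩ := h2'
    obtain ⟨b, hb1, hb2, hb3⟩ := hd (max c1 c2) (max_lt hc1 hc2)
    apply hb3
    rw [Pi.add_apply, hf1 b (lt_of_le_of_lt (le_max_left _ _) hb1) hb2,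
      hg2 b (lt_of_le_of_lt (le_max_right _ _) hb1) hb2, add_zero]
  | neg f _ hf =>
    refine hf.subset ?_
    intro d hd
    refine ⟨hd.1, fun c hc => ?_⟩
    obtain ⟨b, hb1, hb2, hb3⟩ := hd.2 c hc
    refine ⟨b, hb1, hb2, ?_⟩
    intro h0
    apply hb3
    rw [Pi.neg_apply, h0, neg_zero]

/-- Step (A): only countably many members of a suitable set are nonzero below `c`. -/
lemma countable_level (hI : Good I) (hL : IsLadder L) {S : Set (I → ℤ)}
    (hS : S ⊆ H0 L)
    (hS1 : ∀ z ∈ H0 L, z ≠ 0 → ∃ c, ∀ s ∈ S, ∀ s' ∈ S, Agree c s z → Agree c s' z → s = s')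
    (c0 : I) : {s ∈ S | ¬ Agree c0 s 0}.Countable := by
  classical
  by_contra hunc
  set T := {s ∈ S | ¬ Agree c0 s 0} with hT
  have hgam : ∀ z : I → ℤ, z ∈ H0 L → ∃ c, {s ∈ T | Agree c s z}.Countable := by
    intro z hz
    by_cases hz0 : Agree c0 z 0
    · refine ⟨c0, ?_⟩
      refine Set.countable_empty.mono ?_
      rintro s ⟨hs, hsz⟩
      exact hs.2 (hsz.trans hz0)
    · have hz1 : z ≠ 0 := by
        rintro rfl
        exact hz0 (fun b _ => rfl)
      obtain ⟨c, hc⟩ := hS1 z hz hz1
      refine ⟨c, ?_⟩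
      apply Set.Subsingleton.countable
      rintro s ⟨hs, hsz⟩ s' ⟨hs', hsz'⟩
      exact hc s hs.1 s' hs'.1 hsz hsz'
  haveI : Nonempty I := hI.ne
  choose! gam hgam using hgam
  -- the bounding function
  have hPhi : ∀ c : I, ∃ d, c < d ∧ ∀ t ∈ trunc c '' (H0 L : Set (I → ℤ)), gam t < d := by
    intro c
    have hc : ((gam '' (trunc c '' (H0 L : Set (I → ℤ)))) ∪ {c}).Countable :=
      ((countable_trunc hI hL c).image gam).union (Set.countable_singleton c)
    obtain ⟨d, hd⟩ := hI.bdd _ hc
    exact ⟨d, hd c (Or.inr rfl), fun t ht => hd _ (Or.inl ⟨t, ht, rfl⟩)⟩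
  choose Phi hPhi1 hPhi2 using hPhi
  -- closed points
  have hcl : ∀ a, ∃ d, a < d ∧ ∀ b < d, Phi b < d := by
    intro a
    obtain ⟨d, hd1, hd2⟩ := exists_closed hI Phi a
    exact ⟨d, hd1, fun b hb => hd2 b hb (hPhi1 b)⟩
  choose nx hnx1 hnx2 using hcl
  obtain ⟨i0⟩ := hI.ne
  let D : ℕ → I := fun n => Nat.rec (nx i0) (fun _ y => nx y) n
  have hDs : ∀ n, D (n + 1) = nx (D n) := fun n => rfl
  have hDmono : StrictMono D := by
    apply strictMono_nat_of_lt_succ
    intro n
    rw [hDs]
    exact hnx1 _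
  have hDcl : ∀ n, ∀ b < D n, Phi b < D n := by
    intro n
    cases n with
    | zero => exact hnx2 i0
    | succ n => exact hnx2 (D n)
  have hDne : ∀ n, ∃ b, b < D n := by
    intro n
    cases n with
    | zero => exact ⟨i0, hnx1 i0⟩
    | succ n => exact ⟨D n, hDmono (Nat.lt_succ_self n)⟩
  obtain ⟨dd, hdd⟩ := hI.bdd (Set.range D) (Set.countable_range D)
  -- an element with uncountably many neighbours
  have hex : ∃ s ∈ T, ¬ {s' ∈ T | Agree dd s' s}.Countable := by
    by_contra hcon
    push Not at hcon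
    apply hunc
    have hcov : T ⊆ ⋃ t ∈ trunc dd '' T, {s' ∈ T | trunc dd s' = t} := by
      intro s hs
      rw [Set.mem_iUnion₂]
      exact ⟨trunc dd s, ⟨s, hs, rfl⟩, hs, rfl⟩
    refine Set.Countable.mono hcov ?_
    apply Set.Countable.biUnion
    · refine (countable_trunc hI hL dd).mono ?_
      rintro _ ⟨s, hs, rfl⟩
      exact ⟨s, hS hs.1, rfl⟩
    · rintro _ ⟨s, hs, rfl⟩
      refine (hcon s hs).mono ?_
      rintro s' ⟨hs', he⟩
      refine ⟨hs', ?_⟩
      have h1 := agree_trunc dd s'
      rw [he] at h1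
      exact h1.symm.trans (agree_trunc dd s)
  obtain ⟨s, hsT, hsu⟩ := hex
  have hacc : ∀ n, D n ∈ Acc s := by
    intro n
    refine ⟨hDne n, ?_⟩
    intro c hc
    by_contra hno
    push Not at hno
    -- truncate at `Phi c`
    set c' := Phi c with hc'
    have hc'D : c' < D n := hDcl n c hc
    have hcc' : c < c' := hPhi1 c
    have htm : trunc c' s ∈ H0 L := trunc_mem_H0 hL (hS hsT.1) c'
    have hag : Agree (D n) (trunc c' s) s := by
      intro b hb
      by_cases hbc : b < c'
      · exact agree_trunc c' s b hbc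
      · have h0 : s b = 0 := hno b (lt_of_lt_of_le hcc' (not_lt.mp hbc)) hb
        rw [h0]
        simp [trunc, hbc]
    have hgt : gam (trunc c' s) < Phi c' := hPhi2 c' _ ⟨s, hS hsT.1, rfl⟩
    have hgD : gam (trunc c' s) < D n := hgt.trans (hDcl n c' hc'D)
    apply hsu
    refine (hgam (trunc c' s) htm).mono ?_
    rintro s' ⟨hs', hss'⟩
    refine ⟨hs', ?_⟩
    have hDd : D n < dd := hdd _ ⟨n, rfl⟩
    exact (hss'.mono (hgD.le.trans hDd.le)).trans (hag.mono hgD.le).symm
  have hinf : (Set.range D).Infinite := Set.infinite_range_of_injective hDmono.injective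
  apply hinf
  refine (acc_finite hL (hS hsT.1)).subset ?_
  rintro _ ⟨n, rfl⟩
  exact hacc n

/-- There is no subset of the ladder group with the properties of a suitable set. -/
theorem no_suitable (hI : Good I) (hL : IsLadder L) {S : Set (I → ℤ)}
    (hS : S ⊆ H0 L)
    (hS1 : ∀ z ∈ H0 L, z ≠ 0 → ∃ c, ∀ s ∈ S, ∀ s' ∈ S, Agree c s z → Agree c s' z → s = s')
    (hS2 : ∀ z ∈ H0 L, ∀ c, ∃ g ∈ AddSubgroup.closure S, Agree c g z) : False := by
  classical
  let Sl : I → Set (I → ℤ) := fun c => {s ∈ S | ¬ Agree c s 0}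
  have hSl : ∀ c, (Sl c).Countable := countable_level hI hL hS hS1
  have hSmono : ∀ {c d : I}, c ≤ d → Sl c ⊆ Sl d := by
    intro c d hcd s hs
    exact ⟨hs.1, fun h => hs.2 (h.mono hcd)⟩
  -- approximation
  have happ : ∀ a, IsLim a → ∃ b < a, ∃ g ∈ AddSubgroup.closure (Sl b), Agree a g (x L a) := by
    intro a ha
    have key : ∀ g ∈ AddSubgroup.closure S,
        ∃ b < a, ∃ g' ∈ AddSubgroup.closure (Sl b), Agree a g' g := by
      intro g hg
      induction hg using AddSubgroup.closure_induction with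
      | mem s hs =>
        by_cases h0 : Agree a s 0
        · obtain ⟨b, hb⟩ := ha.1
          exact ⟨b, hb, 0, AddSubgroup.zero_mem _, h0.symm⟩
        · unfold Agree at h0
          push Not at h0
          obtain ⟨b, hb, hsb⟩ := h0
          obtain ⟨c, hbc, hca⟩ := ha.2 b hb
          refine ⟨c, hca, s, AddSubgroup.subset_closure ⟨hs, ?_⟩, fun _ _ => rfl⟩
          intro h
          exact hsb (h b hbc)
      | zero =>
        obtain ⟨b, hb⟩ := ha.1
        exact ⟨b, hb, 0, AddSubgroup.zero_mem _, fun _ _ => rfl⟩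
      | add f g _ _ hf hg =>
        obtain ⟨b1, hb1, g1, hg1, ha1⟩ := hf
        obtain ⟨b2, hb2, g2, hg2, ha2⟩ := hg
        refine ⟨max b1 b2, max_lt hb1 hb2, g1 + g2, ?_, ?_⟩
        · apply AddSubgroup.add_mem
          · exact AddSubgroup.closure_mono (hSmono (le_max_left _ _)) hg1
          · exact AddSubgroup.closure_mono (hSmono (le_max_right _ _)) hg2
        · intro b hb
          rw [Pi.add_apply, Pi.add_apply, ha1 b hb, ha2 b hb]
      | neg f _ hf =>
        obtain ⟨b1, hb1, g1, hg1, ha1⟩ := hf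
        refine ⟨b1, hb1, -g1, AddSubgroup.neg_mem _ hg1, ?_⟩
        intro b hb
        rw [Pi.neg_apply, Pi.neg_apply, ha1 b hb]
    obtain ⟨g, hg, hga⟩ := hS2 (x L a) (x_mem a) a
    obtain ⟨b, hb, g', hg', hg'a⟩ := key g hg
    exact ⟨b, hb, g', hg', hg'a.trans hga⟩
  -- uniqueness
  have huniq : ∀ (m : I → ℤ) (a a' : I), IsLim a → a < a' → Agree a m (x L a) →
      Agree a' m (x L a') → False := by
    intro m a a' ha haa' h1 h2
    have h3 : L a ⊆ L a' ∩ Set.Iio a := by
      intro b hb
      have hba : b < a := hL.1 a b hb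
      refine ⟨?_, hba⟩
      have h4 : x L a b = x L a' b := (h1 b hba).symm.trans (h2 b (hba.trans haa'))
      by_contra hb'
      simp [x, hb, hb'] at h4
    have hfin : (L a).Finite := (hL.2.1 a' a haa').subset h3
    obtain ⟨b0, hb0⟩ := ha.1
    obtain ⟨c, hc, _⟩ := hL.2.2 a ha b0 hb0
    obtain ⟨m', hm', hmax⟩ := Set.exists_max_image (L a) id hfin ⟨c, hc⟩
    obtain ⟨c', hc', hlt⟩ := hL.2.2 a ha m' (hL.1 a m' hm')
    exact absurd (hmax c' hc') (not_le_of_gt hlt)
  -- bounding function
  have hPsi : ∀ b : I, ∃ d, b < d ∧ ∀ a, IsLim a →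
      (∃ g ∈ AddSubgroup.closure (Sl b), Agree a g (x L a)) → a < d := by
    intro b
    let Q : Set I := {a | IsLim a ∧ ∃ g ∈ AddSubgroup.closure (Sl b), Agree a g (x L a)}
    have hQ : Q.Countable := by
      have h1 : ∀ a ∈ Q, ∃ g ∈ (AddSubgroup.closure (Sl b) : Set (I → ℤ)),
          Agree a g (x L a) := fun a ha => ha.2
      choose! w hw1 hw2 using h1
      refine Set.MapsTo.countable_of_injOn (f := w) hw1 ?_ (countable_closure (hSl b))
      intro a ha a' ha' he
      by_contra hne
      rcases lt_or_gt_of_ne hne with h | h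
      · apply huniq (w a) a a' ha.1 h (hw2 a ha)
        have := hw2 a' ha'
        rw [← he] at this
        exact this
      · apply huniq (w a') a' a ha'.1 h (hw2 a' ha')
        have := hw2 a ha
        rw [he] at this
        exact this
    obtain ⟨d, hd⟩ := hI.bdd (Q ∪ {b}) (hQ.union (Set.countable_singleton b))
    exact ⟨d, hd b (Or.inr rfl), fun a ha hg => hd a (Or.inl ⟨ha, hg⟩)⟩
  choose Psi hPsi1 hPsi2 using hPsi
  obtain ⟨i0⟩ := hI.ne
  obtain ⟨a, ha0, hacl⟩ := exists_closed hI Psi i0
  have halim : IsLim a := by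
    refine ⟨⟨i0, ha0⟩, fun b hb => ⟨Psi b, hPsi1 b, hacl b hb (hPsi1 b)⟩⟩
  obtain ⟨b, hb, g, hg, hga⟩ := happ a halim
  have h1 := hPsi2 b a halim ⟨g, hg, hga⟩
  have h2 := hacl b hb (hPsi1 b)
  exact absurd (h1.trans h2) (lt_irrefl a)

end

end Pool.Agent.V116.LadderGroup
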