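import Mathlib

/-!
Implication zroupoids: terms, varieties, the lattice of subvarieties and some identities.
-/

namespace Pool.Agent.V116.IZBasic

universe u

/-- Terms of type `(2, 0)` in the variables `x_0, x_1, ...`. -/
inductive T : Type
  | var : ℕ → T
  | zero : T
  | imp : T → T → T

/-- Algebras of type `(2, 0)`. -/
structure Alg : Type (u + 1) where
  carrier : Type u
  imp : carrier → carrier → carrier
  zero : carrier

/-- Value of a term under an assignment. -/
def T.eval (A : Alg.{u}) (v : ℕ → A.carrier) : T → A.carrier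
  | .var n => v n
  | .zero => A.zero
  | .imp s t => A.imp (T.eval A v s) (T.eval A v t)

/-- The identity `e.1 = e.2` holds in `A`. -/
def Holds (A : Alg.{u}) (e : T × T) : Prop := ∀ v, e.1.eval A v = e.2.eval A v

/-- The term `t' = t → 0`. -/
def T.pr (t : T) : T := .imp t .zero

/-- The defining identities of implication zroupoids:
`(x → y) → z = ((z' → x) → (y → z)')'` and `0'' = 0`. -/
def IZax : Set (T × T) :=
  {(.imp (.imp (.var 0) (.var 1)) (.var 2),
      T.pr (.imp (.imp (T.pr (.var 2)) (.var 0)) (T.pr (.imp (.var 1) (.var 2))))),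
    (T.pr (T.pr .zero), .zero)}

/-- The class of all models of a set of identities. -/
def Mod (E : Set (T × T)) : Set Alg.{u} := {A | ∀ e ∈ E, Holds A e}

/-- The set of identities holding in all algebras of a class. -/
def Th (K : Set Alg.{u}) : Set (T × T) := {e | ∀ A ∈ K, Holds A e}

/-- Subvarieties of the variety of implication zroupoids. -/
@[ext] structure SubVar : Type (u + 1) where
  cls : Set Alg.{u}
  isVar : ∃ E : Set (T × T), IZax ⊆ E ∧ cls = Mod E

lemma mod_th (V : SubVar.{u}) : Mod (Th V.cls) = V.cls := by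
  obtain ⟨E, _, hE⟩ := V.isVar
  apply Set.Subset.antisymm
  · intro A hA
    rw [hE]
    intro e he
    apply hA
    intro B hB
    rw [hE] at hB
    exact hB e he
  · intro A hA e he
    exact he A hA

lemma izax_sub (V : SubVar.{u}) : IZax ⊆ Th V.cls := by
  obtain ⟨E, hE, hV⟩ := V.isVar
  intro e he A hA
  rw [hV] at hA
  exact hA e (hE he)

/-- The lattice of subvarieties, ordered by inclusion: the meet is the intersection and the
join is the variety generated by the union. -/
instance : Lattice SubVar.{u} where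
  le V W := V.cls ⊆ W.cls
  le_refl V := Set.Subset.refl V.cls
  le_trans V W U h1 h2 := Set.Subset.trans h1 h2
  le_antisymm V W h1 h2 := SubVar.ext (Set.Subset.antisymm h1 h2)
  inf V W := ⟨V.cls ∩ W.cls, Th V.cls ∪ Th W.cls, (izax_sub V).trans Set.subset_union_left, by
    apply Set.Subset.antisymm
    · rintro A ⟨h1, h2⟩ e (he | he)
      · exact he A h1
      · exact he A h2
    · intro A hA
      refine ⟨?_, ?_⟩
      · rw [← mod_th V]
        exact fun e he => hA e (Or.inl he)
      · rw [← mod_th W]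
        exact fun e he => hA e (Or.inr he)⟩
  inf_le_left V W := Set.inter_subset_left
  inf_le_right V W := Set.inter_subset_right
  le_inf V W U h1 h2 := Set.subset_inter h1 h2
  sup V W := ⟨Mod (Th (V.cls ∪ W.cls)), Th (V.cls ∪ W.cls), by
    rintro e he A (hA | hA)
    · exact izax_sub V he A hA
    · exact izax_sub W he A hA, rfl⟩
  le_sup_left V W := fun A hA e he => he A (Or.inl hA)
  le_sup_right V W := fun A hA e he => he A (Or.inr hA)
  sup_le V W U h1 h2 := by
    change Mod (Th (V.cls ∪ W.cls)) ⊆ U.cls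
    rw [← mod_th U]
    intro A hA e he
    apply hA
    rintro B (hB | hB)
    · exact he B (h1 hB)
    · exact he B (h2 hB)

/-- The variety `ZM`, defined by `x → y = 0`. -/
def ZM : SubVar.{u} :=
  ⟨Mod (IZax ∪ {(.imp (.var 0) (.var 1), .zero)}), IZax ∪ {(.imp (.var 0) (.var 1), .zero)},
    Set.subset_union_left, rfl⟩

/-! ### Identities of implication zroupoids -/

section Identities

variable {A : Alg.{u}} (hA : ∀ e ∈ IZax, Holds A e)

include hA

lemma ax1 (x y z : A.carrier) : A.imp (A.imp x y) z =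
    A.imp (A.imp (A.imp (A.imp z A.zero) x) (A.imp (A.imp y z) A.zero)) A.zero := by
  have h := hA _ (Or.inl rfl) (fun i => if i = 0 then x else if i = 1 then y else z)
  simpa [T.eval, T.pr] using h

lemma ax2 : A.imp (A.imp A.zero A.zero) A.zero = A.zero :=
  hA _ (Or.inr rfl) (fun _ => A.zero)

lemma l4 (x : A.carrier) :
    A.imp (A.imp (A.imp (A.imp A.zero A.zero) x) A.zero) A.zero =
      A.imp (A.imp x A.zero) A.zero := by
  have h := ax1 hA x A.zero A.zero
  rw [ax2 hA] at h
  exact h.symm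

lemma l1 (x y : A.carrier) : A.imp (A.imp x y) A.zero =
    A.imp (A.imp (A.imp (A.imp A.zero A.zero) x) (A.imp (A.imp y A.zero) A.zero)) A.zero :=
  ax1 hA x y A.zero

lemma l16 (x y : A.carrier) :
    A.imp (A.imp x (A.imp (A.imp A.zero A.zero) y)) A.zero = A.imp (A.imp x y) A.zero := by
  rw [l1 hA x (A.imp (A.imp A.zero A.zero) y), l4 hA, ← l1 hA]

lemma l17 (x y : A.carrier) :
    A.imp (A.imp x (A.imp (A.imp (A.imp A.zero A.zero) y) A.zero)) A.zero =
      A.imp (A.imp x (A.imp y A.zero)) A.zero := by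
  rw [l1 hA x (A.imp (A.imp (A.imp A.zero A.zero) y) A.zero), l4 hA, ← l1 hA]

lemma l41 (x y z : A.carrier) :
    A.imp (A.imp x y) (A.imp (A.imp (A.imp A.zero A.zero) z) A.zero) =
      A.imp (A.imp x y) (A.imp z A.zero) := by
  rw [ax1 hA x y (A.imp (A.imp (A.imp A.zero A.zero) z) A.zero), l4 hA, l17 hA, ← ax1 hA]

lemma l93 (x y z : A.carrier) :
    A.imp (A.imp (A.imp (A.imp (A.imp A.zero A.zero) x) A.zero) y) z =
      A.imp (A.imp (A.imp x A.zero) y) z := by
  rw [ax1 hA (A.imp (A.imp (A.imp A.zero A.zero) x) A.zero) y z, l41 hA, ← ax1 hA]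

lemma l122 (x y z : A.carrier) :
    A.imp (A.imp x y) (A.imp (A.imp A.zero A.zero) z) = A.imp (A.imp x y) z := by
  rw [ax1 hA x y (A.imp (A.imp A.zero A.zero) z), l93 hA, l16 hA, ← ax1 hA]

lemma l135 (x y z : A.carrier) :
    A.imp (A.imp (A.imp (A.imp A.zero A.zero) x) y) z = A.imp (A.imp x y) z := by
  rw [ax1 hA (A.imp (A.imp A.zero A.zero) x) y z, l122 hA, ← ax1 hA]

lemma l137 (x y : A.carrier) :
    A.imp (A.imp x (A.imp (A.imp y A.zero) A.zero)) A.zero = A.imp (A.imp x y) A.zero := by
  rw [l1 hA x y, l135 hA]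

lemma l164 (x y : A.carrier) :
    A.imp (A.imp (A.imp (A.imp x A.zero) A.zero) A.zero) y = A.imp (A.imp x A.zero) y := by
  rw [← l135 hA (A.imp (A.imp x A.zero) A.zero) A.zero y, l137 hA, l135 hA]

/-- `x'''' = x''`. -/
lemma pr4 (x : A.carrier) :
    A.imp (A.imp (A.imp (A.imp x A.zero) A.zero) A.zero) A.zero =
      A.imp (A.imp x A.zero) A.zero := l164 hA x A.zero

/-- `((x → y) → z)'' = (x → y) → z`. -/
lemma pr2_compound (x y z : A.carrier) :
    A.imp (A.imp (A.imp (A.imp x y) z) A.zero) A.zero = A.imp (A.imp x y) z := by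
  rw [ax1 hA x y z]
  rw [ax1 hA (A.imp z A.zero) x (A.imp (A.imp y z) A.zero)]
  exact pr4 hA _

end Identities

/-- In an algebra with `x → y = 0` compound terms have value `0`. -/
lemma eval_zm {A : Alg.{u}} (hA : ∀ x y, A.imp x y = A.zero) (v : ℕ → A.carrier) (t : T)
    (ht : ∀ n, t ≠ .var n) : t.eval A v = A.zero := by
  cases t with
  | var n => exact absurd rfl (ht n)
  | zero => rfl
  | imp p q => exact hA _ _

lemma zm_imp {A : Alg.{u}} (hA : A ∈ (ZM.{u}).cls) (x y : A.carrier) :
    A.imp x y = A.zero :=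
  hA _ (Or.inr rfl) (fun i => if i = 0 then x else y)

/-- An identity `x_n = t`, with `t` different from `x_n`, implies `x'' = x`. -/
lemma pr2_of_identity {B : Alg.{u}} (hB : ∀ e ∈ IZax, Holds B e) {n : ℕ} {t : T}
    (ht : t ≠ .var n) (h : Holds B (.var n, t)) (x : B.carrier) :
    B.imp (B.imp x B.zero) B.zero = x := by
  cases t with
  | var m =>
    have hnm : m ≠ n := fun h' => ht (by rw [h'])
    have h1 : ∀ a b : B.carrier, a = b := by
      intro a b
      have := h (fun i => if i = n then a else b)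
      simpa [T.eval, hnm] using this
    exact h1 _ _
  | zero =>
    have h1 : ∀ a : B.carrier, a = B.zero := fun a => h (fun _ => a)
    rw [h1 x, h1 (B.imp _ _)]
  | imp p q =>
    have h1 : x = B.imp (p.eval B (fun _ => x)) (q.eval B (fun _ => x)) := h (fun _ => x)
    have key : ∃ a b c, x = B.imp (B.imp a b) c := by
      cases p with
      | var m =>
        change x = B.imp x (q.eval B (fun _ => x)) at h1
        refine ⟨x, q.eval B (fun _ => x), q.eval B (fun _ => x), ?_⟩
        rw [← h1]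
        exact h1
      | zero =>
        change x = B.imp B.zero (q.eval B (fun _ => x)) at h1
        refine ⟨B.imp B.zero B.zero, B.zero, q.eval B (fun _ => x), ?_⟩
        rw [ax2 hB]
        exact h1
      | imp p1 p2 => exact ⟨_, _, _, h1⟩
    obtain ⟨a, b, c, h2⟩ := key
    rw [h2]
    exact pr2_compound hB a b c

/-- The identity `x'' = x` as a pair of terms. -/
def inv2 : T × T := (T.pr (T.pr (.var 0)), .var 0)

lemma holds_inv2 {B : Alg.{u}} :
    Holds B inv2 ↔ ∀ x, B.imp (B.imp x B.zero) B.zero = x :=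
  ⟨fun h x => h (fun _ => x), fun h v => h (v 0)⟩

/-- If `ZM` is not contained in `X` then `X` satisfies `x'' = x`. -/
lemma inv2_of_not_zm {X : SubVar.{u}} (hX : ¬ ZM ≤ X) : inv2 ∈ Th X.cls := by
  have h1 : ∃ A ∈ (ZM.{u}).cls, A ∉ X.cls := by
    by_contra hcon
    push Not at hcon
    exact hX hcon
  obtain ⟨A, hA, hAX⟩ := h1
  rw [← mod_th X] at hAX
  have h2 : ∃ e ∈ Th X.cls, ¬ Holds A e := by
    by_contra hcon
    push Not at hcon
    exact hAX hcon
  obtain ⟨⟨s, t⟩, he, hne⟩ := h2
  intro B hB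
  rw [holds_inv2]
  have hBax : ∀ e ∈ IZax, Holds B e := fun e he => izax_sub X he B hB
  have hB1 : Holds B (s, t) := he B hB
  by_cases hs : ∃ n, s = .var n
  · obtain ⟨n, rfl⟩ := hs
    have ht : t ≠ .var n := by
      rintro rfl
      exact hne (fun v => rfl)
    exact pr2_of_identity hBax ht hB1
  · by_cases ht : ∃ n, t = .var n
    · obtain ⟨n, rfl⟩ := ht
      have hs' : s ≠ .var n := fun h => hs ⟨n, h⟩
      exact pr2_of_identity hBax hs' (fun v => (hB1 v).symm)
    · exfalso
      apply hne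
      intro v
      have hz := zm_imp hA
      change s.eval A v = t.eval A v
      rw [eval_zm hz v s (fun n h => hs ⟨n, h⟩), eval_zm hz v t (fun n h => ht ⟨n, h⟩)]

/-- A two-element member of `ZM`. -/
def zmAlg : Alg.{u} where
  carrier := ULift.{u} Bool
  imp := fun _ _ => ⟨false⟩
  zero := ⟨false⟩

lemma zmAlg_mem : zmAlg.{u} ∈ (ZM.{u}).cls := by
  rintro e (he | he) v
  · simp only [IZax, Set.mem_insert_iff, Set.mem_singleton_iff] at he
    rcases he with rfl | rfl <;> rfl
  · rw [Set.mem_singleton_iff] at he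
    subst he
    rfl

/-- If `X` satisfies `x'' = x` then `ZM` is not contained in `X`. -/
lemma not_zm_of_inv2 {X : SubVar.{u}} (hX : inv2 ∈ Th X.cls) : ¬ ZM ≤ X := by
  intro h
  have h1 := hX zmAlg (h zmAlg_mem)
  rw [holds_inv2] at h1
  have h2 : (⟨false⟩ : ULift.{u} Bool) = ⟨true⟩ := h1 ⟨true⟩
  have h3 := congrArg ULift.down h2
  simp at h3

lemma th_sup (X Y : SubVar.{u}) : Th (X ⊔ Y).cls = Th X.cls ∩ Th Y.cls := by
  apply Set.Subset.antisymm
  · intro e he
    exact ⟨fun A hA => he A ((le_sup_left : X ≤ X ⊔ Y) hA),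
      fun A hA => he A ((le_sup_right : Y ≤ X ⊔ Y) hA)⟩
  · rintro e ⟨h1, h2⟩ A hA
    apply hA
    rintro B (hB | hB)
    · exact h1 B hB
    · exact h2 B hB

end Pool.Agent.V116.IZBasic
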