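import Mathlib

/-!
Whitman's theorem for countable lattices: every countable lattice embeds into the lattice of
equivalence relations on the natural numbers (Jonsson's proof).
-/

namespace Pool.Agent.V116.Whitman

universe u

/-- A set with a pseudometric with values in a lattice. -/
structure MSp (L : Type u) [Lattice L] [OrderBot L] where
  X : Type u
  d : X → X → L
  self : ∀ x, d x x = ⊥
  symm : ∀ x y, d x y = d y x
  tri : ∀ x y z c, d x y ≤ c → d y z ≤ c → d x z ≤ c

section

variable {L : Type u} [Lattice L] [OrderBot L]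

/-- Quadruples for which intermediate points are added. -/
def Quad (S : MSp L) : Type u :=
  {q : (S.X × S.X) × (L × L) // S.d q.1.1 q.1.2 ≤ q.2.1 ⊔ q.2.2}

/-- New space. -/
def NX (S : MSp L) : Type u := S.X ⊕ (Quad S × Fin 3)

/-- The foot of a new point. -/
def foot (S : MSp L) (q : Quad S) : Fin 3 → S.X
  | 0 => q.1.1.1
  | 1 => q.1.1.1
  | 2 => q.1.1.2

/-- The weight of a new point. -/
def wt (S : MSp L) (q : Quad S) : Fin 3 → L
  | 0 => q.1.2.1
  | 1 => q.1.2.1 ⊔ q.1.2.2
  | 2 => q.1.2.2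

/-- Distances inside a block. -/
def inner (S : MSp L) (q : Quad S) : Fin 3 → Fin 3 → L
  | 0, 0 => ⊥
  | 1, 1 => ⊥
  | 2, 2 => ⊥
  | 0, 1 => q.1.2.2
  | 1, 0 => q.1.2.2
  | 1, 2 => q.1.2.1
  | 2, 1 => q.1.2.1
  | 0, 2 => q.1.2.1 ⊔ q.1.2.2
  | 2, 0 => q.1.2.1 ⊔ q.1.2.2

open Classical in
/-- The extended distance. -/
noncomputable def nd (S : MSp L) : NX S → NX S → L
  | .inl x, .inl y => S.d x y
  | .inl x, .inr (q, i) => S.d x (foot S q i) ⊔ wt S q i
  | .inr (q, i), .inl x => S.d x (foot S q i) ⊔ wt S q i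
  | .inr (q, i), .inr (r, j) =>
      if q = r then inner S q i j else
        (wt S q i ⊔ wt S r j) ⊔ S.d (foot S q i) (foot S r j)

lemma quad_le (S : MSp L) (q : Quad S) {c : L} (h1 : q.1.2.1 ≤ c) (h2 : q.1.2.2 ≤ c) :
    S.d q.1.1.1 q.1.1.2 ≤ c := q.2.trans (sup_le h1 h2)

lemma quad_le' (S : MSp L) (q : Quad S) {c : L} (h1 : q.1.2.1 ≤ c) (h2 : q.1.2.2 ≤ c) :
    S.d q.1.1.2 q.1.1.1 ≤ c := by
  rw [S.symm]
  exact quad_le S q h1 h2

lemma inner_symm (S : MSp L) (q : Quad S) (i j : Fin 3) : inner S q i j = inner S q j i := by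
  fin_cases i <;> fin_cases j <;> rfl

lemma inner_tri (S : MSp L) (q : Quad S) (i j k : Fin 3) (c : L)
    (h1 : inner S q i j ≤ c) (h2 : inner S q j k ≤ c) : inner S q i k ≤ c := by
  fin_cases i <;> fin_cases j <;> fin_cases k <;>
    simp only [inner, sup_le_iff, bot_le, Fin.zero_eta, Fin.mk_one, Fin.reduceFinMk] at * <;>
    tauto

/-- Moving inside a block. -/
lemma key (S : MSp L) (q : Quad S) (i j : Fin 3) (t : S.X) (c : L)
    (h : inner S q i j ≤ c) (h1 : wt S q j ≤ c) (h2 : S.d (foot S q j) t ≤ c) :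
    wt S q i ≤ c ∧ S.d (foot S q i) t ≤ c := by
  have e1 := fun h1 h2 => S.tri q.1.1.1 q.1.1.2 t c (quad_le S q h1 h2)
  have e2 := fun h1 h2 => S.tri q.1.1.2 q.1.1.1 t c (quad_le' S q h1 h2)
  fin_cases i <;> fin_cases j <;>
    simp only [inner, wt, foot, sup_le_iff, bot_le, Fin.zero_eta, Fin.mk_one,
      Fin.reduceFinMk] at * <;>
    tauto

lemma inner_le (S : MSp L) (q : Quad S) (i j : Fin 3) (c : L)
    (h1 : wt S q i ≤ c) (h2 : wt S q j ≤ c) : inner S q i j ≤ c := by
  fin_cases i <;> fin_cases j <;>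
    simp only [inner, wt, sup_le_iff, bot_le, Fin.zero_eta, Fin.mk_one,
      Fin.reduceFinMk] at * <;>
    tauto

lemma inner_self (S : MSp L) (q : Quad S) (i : Fin 3) : inner S q i i = ⊥ := by
  fin_cases i <;> rfl

lemma nd_symm (S : MSp L) (u v : NX S) : nd S u v = nd S v u := by
  classical
  rcases u with x | ⟨q, i⟩ <;> rcases v with y | ⟨r, j⟩
  · exact S.symm x y
  · rfl
  · rfl
  · simp only [nd]
    by_cases h : q = r
    · subst h
      simp only [if_true]
      exact inner_symm S q i j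
    · rw [if_neg h, if_neg (Ne.symm h), S.symm, sup_comm (wt S q i)]

lemma nd_tri (S : MSp L) (u v w : NX S) (c : L) (h1 : nd S u v ≤ c) (h2 : nd S v w ≤ c) :
    nd S u w ≤ c := by
  classical
  rcases u with x | ⟨q, i⟩ <;> rcases v with y | ⟨r, j⟩ <;> rcases w with z | ⟨s, k⟩
  · exact S.tri x y z c h1 h2
  · simp only [nd, sup_le_iff] at *
    exact ⟨S.tri _ _ _ c h1 h2.1, h2.2⟩
  · simp only [nd, sup_le_iff] at *
    refine S.tri x (foot S r j) z c h1.1 ?_
    rw [S.symm]
    exact h2.1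
  · simp only [nd] at *
    rw [sup_le_iff] at *
    by_cases h : r = s
    · subst h
      rw [if_pos rfl, inner_symm] at h2
      obtain ⟨e1, e2⟩ := key S r k j x c h2 h1.2 (by rw [S.symm]; exact h1.1)
      rw [S.symm] at e2
      exact ⟨e2, e1⟩
    · rw [if_neg h, sup_le_iff, sup_le_iff] at h2
      exact ⟨S.tri _ _ _ c h1.1 h2.2, h2.1.2⟩
  · simp only [nd, sup_le_iff] at *
    refine ⟨S.tri z y _ c ?_ h1.1, h1.2⟩
    rw [S.symm]
    exact h2
  · simp only [nd] at *
    rw [sup_le_iff] at h1 h2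
    by_cases h : q = s
    · subst h
      rw [if_pos rfl]
      exact inner_le S q i k c h1.2 h2.2
    · rw [if_neg h, sup_le_iff, sup_le_iff]
      refine ⟨⟨h1.2, h2.2⟩, S.tri _ y _ c ?_ h2.1⟩
      rw [S.symm]
      exact h1.1
  · simp only [nd] at *
    rw [sup_le_iff] at *
    by_cases h : q = r
    · subst h
      rw [if_pos rfl] at h1
      obtain ⟨e1, e2⟩ := key S q i j z c h1 h2.2 (by rw [S.symm]; exact h2.1)
      rw [S.symm] at e2
      exact ⟨e2, e1⟩
    · rw [if_neg h, sup_le_iff, sup_le_iff] at h1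
      refine ⟨?_, h1.1.1⟩
      refine S.tri z (foot S r j) _ c h2.1 ?_
      rw [S.symm]
      exact h1.2
  · simp only [nd] at *
    by_cases hqr : q = r
    · subst hqr
      rw [if_pos rfl] at h1
      by_cases hqs : q = s
      · subst hqs
        rw [if_pos rfl] at h2 ⊢
        exact inner_tri S q i j k c h1 h2
      · rw [if_neg hqs, sup_le_iff, sup_le_iff] at h2 ⊢
        obtain ⟨e1, e2⟩ := key S q i j _ c h1 h2.1.1 h2.2
        exact ⟨⟨e1, h2.1.2⟩, e2⟩
    · rw [if_neg hqr, sup_le_iff, sup_le_iff] at h1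
      by_cases hrs : r = s
      · subst hrs
        rw [if_pos rfl, inner_symm] at h2
        rw [if_neg hqr, sup_le_iff, sup_le_iff]
        obtain ⟨e1, e2⟩ := key S r k j (foot S q i) c h2 h1.1.2 (by rw [S.symm]; exact h1.2)
        rw [S.symm] at e2
        exact ⟨⟨h1.1.1, e1⟩, e2⟩
      · rw [if_neg hrs, sup_le_iff, sup_le_iff] at h2
        by_cases hqs : q = s
        · subst hqs
          rw [if_pos rfl]
          exact inner_le S q i k c h1.1.1 h2.1.2
        · rw [if_neg hqs, sup_le_iff, sup_le_iff]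
          exact ⟨⟨h1.1.1, h2.1.2⟩, S.tri _ _ _ c h1.2 h2.2⟩

/-- One step of the construction. -/
noncomputable def step (S : MSp L) : MSp L where
  X := NX S
  d := nd S
  self := by
    classical
    rintro (x | ⟨q, i⟩)
    · exact S.self x
    · simp only [nd, if_true]
      exact inner_self S q i
  symm := nd_symm S
  tri := nd_tri S

/-- The initial space. -/
noncomputable def start (L : Type u) [Lattice L] [OrderBot L] : MSp L where
  X := Option L
  d := by
    classical
    exact fun x y => if x = y then ⊥ else x.getD ⊥ ⊔ y.getD ⊥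
  self := by
    intro x
    simp
  symm := by
    intro x y
    by_cases h : x = y
    · subst h
      rfl
    · simp only [if_neg h, if_neg (Ne.symm h), sup_comm]
  tri := by
    intro x y z c h1 h2
    by_cases hxz : x = z
    · simp [hxz]
    · by_cases hxy : x = y
      · subst hxy
        exact h2
      · by_cases hyz : y = z
        · subst hyz
          exact h1
        · rw [if_neg hxy, sup_le_iff] at h1
          rw [if_neg hyz, sup_le_iff] at h2
          rw [if_neg hxz, sup_le_iff]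
          exact ⟨h1.1, h2.2⟩

/-- The sequence of spaces. -/
noncomputable def sq (L : Type u) [Lattice L] [OrderBot L] : ℕ → MSp L
  | 0 => start L
  | n + 1 => step (sq L n)

/-- Embedding of one space into the next one. -/
def nextX (L : Type u) [Lattice L] [OrderBot L] {n : ℕ} (x : (sq L n).X) :
    (sq L (n + 1)).X := (Sum.inl x : NX (sq L n))

/-- Embedding into later spaces. -/
def emb (L : Type u) [Lattice L] [OrderBot L] {n m : ℕ} (h : n ≤ m) (x : (sq L n).X) :
    (sq L m).X := Nat.leRecOn (C := fun k => (sq L k).X) h (fun {_} y => nextX L y) x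

lemma emb_self {n : ℕ} (x : (sq L n).X) : emb L le_rfl x = x :=
  Nat.leRecOn_self (C := fun k => (sq L k).X) (next := fun {_} y => nextX L y) x

lemma emb_succ {n m : ℕ} (h : n ≤ m) (x : (sq L n).X) :
    emb L (Nat.le_succ_of_le h) x = nextX L (emb L h x) :=
  Nat.leRecOn_succ (C := fun k => (sq L k).X) (next := fun {_} y => nextX L y) h x

lemma emb_trans {n m k : ℕ} (h : n ≤ m) (h' : m ≤ k) (x : (sq L n).X) :
    emb L h' (emb L h x) = emb L (h.trans h') x :=
  (Nat.leRecOn_trans (C := fun k => (sq L k).X) (next := fun {_} y => nextX L y) h h' x).symm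

lemma d_emb {n m : ℕ} (h : n ≤ m) (x y : (sq L n).X) :
    (sq L m).d (emb L h x) (emb L h y) = (sq L n).d x y := by
  induction m, h using Nat.le_induction with
  | base => rw [emb_self, emb_self]
  | succ m h ih =>
    rw [emb_succ, emb_succ]
    exact ih

/-- The limit space. -/
def XL (L : Type u) [Lattice L] [OrderBot L] : Type u := Σ n : ℕ, (sq L n).X

/-- Distance on the limit space. -/
noncomputable def dL (p q : XL L) : L :=
  (sq L (max p.1 q.1)).d (emb L (le_max_left _ _) p.2) (emb L (le_max_right _ _) q.2)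

lemma dL_eq (p q : XL L) {N : ℕ} (hp : p.1 ≤ N) (hq : q.1 ≤ N) :
    dL p q = (sq L N).d (emb L hp p.2) (emb L hq q.2) := by
  unfold dL
  rw [← d_emb (max_le hp hq), emb_trans, emb_trans]

lemma dL_self (p : XL L) : dL p p = ⊥ := by
  rw [dL_eq p p le_rfl le_rfl]
  exact (sq L p.1).self _

lemma dL_symm (p q : XL L) : dL p q = dL q p := by
  rw [dL_eq p q (le_max_left _ _) (le_max_right _ _),
    dL_eq q p (le_max_right _ _) (le_max_left _ _)]
  exact (sq L _).symm _ _

lemma dL_tri (p q r : XL L) (c : L) (h1 : dL p q ≤ c) (h2 : dL q r ≤ c) : dL p r ≤ c := by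
  have hp : p.1 ≤ max p.1 (max q.1 r.1) := le_max_left _ _
  have hq : q.1 ≤ max p.1 (max q.1 r.1) := (le_max_left _ _).trans (le_max_right _ _)
  have hr : r.1 ≤ max p.1 (max q.1 r.1) := (le_max_right _ _).trans (le_max_right _ _)
  rw [dL_eq p q hp hq] at h1
  rw [dL_eq q r hq hr] at h2
  rw [dL_eq p r hp hr]
  exact (sq L _).tri _ _ _ c h1 h2

lemma dL_wit (p q : XL L) (a b : L) (h : dL p q ≤ a ⊔ b) :
    ∃ z1 z2 z3 : XL L, dL p z1 ≤ a ∧ dL z1 z2 ≤ b ∧ dL z2 z3 ≤ a ∧ dL z3 q ≤ b := by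
  classical
  set N := max p.1 q.1 with hN
  have hp : p.1 ≤ N := le_max_left _ _
  have hq : q.1 ≤ N := le_max_right _ _
  rw [dL_eq p q hp hq] at h
  set x := emb L hp p.2 with hx
  set y := emb L hq q.2 with hy
  let Q : Quad (sq L N) := ⟨((x, y), (a, b)), h⟩
  let z : Fin 3 → (sq L (N + 1)).X := fun i => (Sum.inr (Q, i) : NX (sq L N))
  have hp' : p.1 ≤ N + 1 := Nat.le_succ_of_le hp
  have hq' : q.1 ≤ N + 1 := Nat.le_succ_of_le hq
  have hself : ∀ w : (sq L N).X, (sq L N).d w w = ⊥ := (sq L N).self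
  refine ⟨⟨N + 1, z 0⟩, ⟨N + 1, z 1⟩, ⟨N + 1, z 2⟩, ?_, ?_, ?_, ?_⟩
  · rw [dL_eq p ⟨N + 1, z 0⟩ hp' le_rfl, emb_self, emb_succ hp]
    change nd (sq L N) (Sum.inl x) (Sum.inr (Q, 0)) ≤ a
    simp only [nd, foot, wt, Q]
    rw [hself]
    simp
  · rw [dL_eq (⟨N + 1, z 0⟩ : XL L) ⟨N + 1, z 1⟩ le_rfl le_rfl, emb_self, emb_self]
    change nd (sq L N) (Sum.inr (Q, 0)) (Sum.inr (Q, 1)) ≤ b
    simp only [nd, if_true, inner, Q]
    exact le_rfl
  · rw [dL_eq (⟨N + 1, z 1⟩ : XL L) ⟨N + 1, z 2⟩ le_rfl le_rfl, emb_self, emb_self]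
    change nd (sq L N) (Sum.inr (Q, 1)) (Sum.inr (Q, 2)) ≤ a
    simp only [nd, if_true, inner, Q]
    exact le_rfl
  · rw [dL_eq (⟨N + 1, z 2⟩ : XL L) q le_rfl hq', emb_self, emb_succ hq]
    change nd (sq L N) (Sum.inr (Q, 2)) (Sum.inl y) ≤ b
    simp only [nd, foot, wt, Q]
    rw [hself]
    simp

lemma dL_surj (a : L) : ∃ p q : XL L, dL p q = a := by
  classical
  refine ⟨⟨0, (none : Option L)⟩, ⟨0, (some a : Option L)⟩, ?_⟩
  rw [dL_eq (⟨0, (none : Option L)⟩ : XL L) ⟨0, (some a : Option L)⟩ le_rfl le_rfl,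
    emb_self, emb_self]
  change (if (none : Option L) = some a then ⊥ else (none : Option L).getD ⊥ ⊔
    (some a : Option L).getD ⊥) = a
  simp

lemma countable_sq [Countable L] (n : ℕ) : Countable (sq L n).X := by
  induction n with
  | zero => exact (inferInstance : Countable (Option L))
  | succ n ih =>
    have : Countable (Quad (sq L n)) := by
      unfold Quad
      infer_instance
    exact (inferInstance : Countable ((sq L n).X ⊕ (Quad (sq L n) × Fin 3)))

lemma nonempty_sq (n : ℕ) : Nonempty (sq L n).X := by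
  induction n with
  | zero => exact ⟨(none : Option L)⟩
  | succ n ih =>
    obtain ⟨x⟩ := ih
    exact ⟨nextX L x⟩

lemma exists_equiv [Countable L] : Nonempty (XL L ≃ ℕ) := by
  have h1 : ∀ n, Countable (sq L n).X := countable_sq
  have h2 : Countable (XL L) := by
    unfold XL
    infer_instance
  have h3 : ∀ n, Nonempty (sq L n).X := nonempty_sq
  have h4 : Infinite (XL L) := by
    refine Infinite.of_injective (fun n : ℕ => (⟨n, (h3 n).some⟩ : XL L)) ?_
    intro n m h
    exact congrArg Sigma.fst h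
  obtain ⟨h5⟩ := nonempty_denumerable (XL L)
  exact ⟨Denumerable.eqv (XL L)⟩

/-- The setoid of pairs at distance at most `a`. -/
def toSetoid {X : Type*} (d : X → X → L) (h1 : ∀ x, d x x = ⊥) (h2 : ∀ x y, d x y = d y x)
    (h3 : ∀ x y z c, d x y ≤ c → d y z ≤ c → d x z ≤ c) (a : L) : Setoid X where
  r := fun x y => d x y ≤ a
  iseqv := {
    refl := fun x => by rw [h1]; exact bot_le
    symm := fun {x y} h => by rw [h2]; exact h
    trans := fun {x y z} h h' => h3 x y z a h h' }

theorem whitman_bot [Countable L] : ∃ φ : L → Setoid ℕ, Function.Injective φ ∧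
    (∀ a b, φ (a ⊓ b) = φ a ⊓ φ b) ∧ ∀ a b, φ (a ⊔ b) = φ a ⊔ φ b := by
  obtain ⟨e⟩ := exists_equiv (L := L)
  let d : ℕ → ℕ → L := fun x y => dL (e.symm x) (e.symm y)
  have h1 : ∀ x, d x x = ⊥ := fun x => dL_self _
  have h2 : ∀ x y, d x y = d y x := fun x y => dL_symm _ _
  have h3 : ∀ x y z c, d x y ≤ c → d y z ≤ c → d x z ≤ c := fun x y z c => dL_tri _ _ _ c
  let φ : L → Setoid ℕ := toSetoid d h1 h2 h3
  have hφ : ∀ a x y, φ a x y ↔ d x y ≤ a := fun a x y => Iff.rfl
  refine ⟨φ, ?_, ?_, ?_⟩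
  · have key : ∀ a b, φ a = φ b → a ≤ b := by
      intro a b hab
      obtain ⟨p, q, hpq⟩ := dL_surj a
      have h4 : φ a (e p) (e q) := by
        rw [hφ]
        simp only [d, Equiv.symm_apply_apply]
        exact hpq.le
      rw [hab, hφ] at h4
      simp only [d, Equiv.symm_apply_apply] at h4
      rwa [hpq] at h4
    intro a b hab
    exact le_antisymm (key a b hab) (key b a hab.symm)
  · intro a b
    ext x y
    rw [hφ, le_inf_iff]
    rfl
  · intro a b
    apply le_antisymm
    · intro x y hxy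
      have hxy' : d x y ≤ a ⊔ b := hxy
      obtain ⟨z1, z2, z3, e1, e2, e3, e4⟩ := dL_wit (e.symm x) (e.symm y) a b hxy'
      have l1 : φ a ≤ φ a ⊔ φ b := le_sup_left
      have l2 : φ b ≤ φ a ⊔ φ b := le_sup_right
      have f1 : (φ a ⊔ φ b) x (e z1) := l1 (by
        change dL (e.symm x) (e.symm (e z1)) ≤ a
        rwa [Equiv.symm_apply_apply])
      have f2 : (φ a ⊔ φ b) (e z1) (e z2) := l2 (by
        change dL (e.symm (e z1)) (e.symm (e z2)) ≤ b
        rwa [Equiv.symm_apply_apply, Equiv.symm_apply_apply])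
      have f3 : (φ a ⊔ φ b) (e z2) (e z3) := l1 (by
        change dL (e.symm (e z2)) (e.symm (e z3)) ≤ a
        rwa [Equiv.symm_apply_apply, Equiv.symm_apply_apply])
      have f4 : (φ a ⊔ φ b) (e z3) y := l2 (by
        change dL (e.symm (e z3)) (e.symm y) ≤ b
        rwa [Equiv.symm_apply_apply])
      exact (φ a ⊔ φ b).trans' ((φ a ⊔ φ b).trans' ((φ a ⊔ φ b).trans' f1 f2) f3) f4
    · apply sup_le
      · intro x y hxy
        exact le_trans (show d x y ≤ a from hxy) le_sup_left
      · intro x y hxy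
        exact le_trans (show d x y ≤ b from hxy) le_sup_right

end

/-- Whitman's theorem for countable lattices. -/
theorem whitman {L : Type u} [Lattice L] [Countable L] :
    ∃ φ : L → Setoid ℕ, Function.Injective φ ∧
      (∀ a b, φ (a ⊓ b) = φ a ⊓ φ b) ∧ ∀ a b, φ (a ⊔ b) = φ a ⊔ φ b := by
  have : Countable (WithBot L) := (inferInstance : Countable (Option L))
  obtain ⟨φ, h1, h2, h3⟩ := whitman_bot (L := WithBot L)
  refine ⟨fun a => φ (a : WithBot L), ?_, ?_, ?_⟩
  · intro a b hab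
    exact WithBot.coe_injective (h1 hab)
  · intro a b
    change φ ((a ⊓ b : L) : WithBot L) = φ a ⊓ φ b
    rw [← h2, WithBot.coe_inf]
  · intro a b
    change φ ((a ⊔ b : L) : WithBot L) = φ a ⊔ φ b
    rw [← h3, WithBot.coe_sup]

end Pool.Agent.V116.Whitman
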