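import Mathlib

/-!
Groups of real functions on a chain all of whose positivity sets belong to the lattice `O(T)`.
-/

namespace Pool.Agent.V116.ChainGamma

open Set

variable {T : Type} [LinearOrder T]

/-- The lattice generated by `∅`, `T` and the open rays. -/
def OT (T : Type) [LinearOrder T] : Set (Set T) :=
  {U : Set T | ∀ S : Set (Set T), ∅ ∈ S → Set.univ ∈ S →
    (∀ a : T, Set.Iio a ∈ S ∧ Set.Ioi a ∈ S) →
    (∀ A ∈ S, ∀ B ∈ S, A ∪ B ∈ S) →
    (∀ A ∈ S, ∀ B ∈ S, A ∩ B ∈ S) → U ∈ S}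

lemma OT.induct {P : Set T → Prop} (h0 : P ∅) (h1 : P univ) (h2 : ∀ a, P (Iio a))
    (h3 : ∀ a, P (Ioi a)) (h4 : ∀ A B, P A → P B → P (A ∪ B))
    (h5 : ∀ A B, P A → P B → P (A ∩ B)) {U : Set T} (hU : U ∈ OT T) : P U :=
  hU {U | P U} h0 h1 (fun a => ⟨h2 a, h3 a⟩) (fun A hA B hB => h4 A B hA hB)
    (fun A hA B hB => h5 A B hA hB)

lemma empty_mem : (∅ : Set T) ∈ OT T := fun _ h0 _ _ _ _ => h0
lemma univ_mem : (univ : Set T) ∈ OT T := fun _ _ h1 _ _ _ => h1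
lemma Iio_mem (a : T) : Iio a ∈ OT T := fun _ _ _ h _ _ => (h a).1
lemma Ioi_mem (a : T) : Ioi a ∈ OT T := fun _ _ _ h _ _ => (h a).2
lemma union_mem {A B : Set T} (hA : A ∈ OT T) (hB : B ∈ OT T) : A ∪ B ∈ OT T :=
  fun S h0 h1 h2 h3 h4 => h3 A (hA S h0 h1 h2 h3 h4) B (hB S h0 h1 h2 h3 h4)
lemma inter_mem {A B : Set T} (hA : A ∈ OT T) (hB : B ∈ OT T) : A ∩ B ∈ OT T :=
  fun S h0 h1 h2 h3 h4 => h4 A (hA S h0 h1 h2 h3 h4) B (hB S h0 h1 h2 h3 h4)

/-- `D` contains a boundary point between any point of `U` and any point outside `U`. -/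
def Bd (U D : Set T) : Prop :=
  (∀ s ∈ U, ∀ t ∉ U, s < t → ∃ r ∈ D, s < r ∧ r ≤ t ∧ r ∉ U) ∧
    (∀ s ∈ U, ∀ t ∉ U, t < s → ∃ r ∈ D, t ≤ r ∧ r < s ∧ r ∉ U)

lemma bd_exists {U : Set T} (hU : U ∈ OT T) : ∃ D : Set T, D.Finite ∧ Bd U D := by
  refine OT.induct (P := fun U => ∃ D : Set T, D.Finite ∧ Bd U D) ?_ ?_ ?_ ?_ ?_ ?_ hU
  · exact ⟨∅, finite_empty, fun s hs => absurd hs (notMem_empty s),
      fun s hs => absurd hs (notMem_empty s)⟩
  · exact ⟨∅, finite_empty, fun s _ t ht => absurd (mem_univ t) ht,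
      fun s _ t ht => absurd (mem_univ t) ht⟩
  · intro a
    refine ⟨{a}, finite_singleton a, ?_, ?_⟩
    · intro s hs t ht _
      exact ⟨a, rfl, hs, not_lt.mp ht, lt_irrefl a⟩
    · intro s hs t ht h
      exact absurd (lt_trans h hs) ht
  · intro a
    refine ⟨{a}, finite_singleton a, ?_, ?_⟩
    · intro s hs t ht h
      exact absurd (lt_trans (show a < s from hs) h) ht
    · intro s hs t ht _
      exact ⟨a, rfl, not_lt.mp ht, hs, lt_irrefl a⟩
  · rintro A B ⟨D, hD, hD1, hD2⟩ ⟨E, hE, hE1, hE2⟩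
    refine ⟨D ∪ E, hD.union hE, ?_, ?_⟩
    · intro s hs t ht hst
      have hne : ∀ x, x ∈ A ∪ B → x < t → ∃ r ∈ D ∪ E, x < r ∧ r ≤ t := by
        rintro x (hx | hx) hxt
        · obtain ⟨r, hr, h1, h2, _⟩ := hD1 x hx t (fun h => ht (Or.inl h)) hxt
          exact ⟨r, Or.inl hr, h1, h2⟩
        · obtain ⟨r, hr, h1, h2, _⟩ := hE1 x hx t (fun h => ht (Or.inr h)) hxt
          exact ⟨r, Or.inr hr, h1, h2⟩
      have hfin : {r | r ∈ D ∪ E ∧ s < r ∧ r ≤ t}.Finite :=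
        (hD.union hE).subset (fun r hr => hr.1)
      obtain ⟨r0, hr0, h10, h20⟩ := hne s hs hst
      obtain ⟨r, ⟨hr, h1, h2⟩, hmax⟩ := hfin.exists_maximalFor id _ ⟨r0, hr0, h10, h20⟩
      refine ⟨r, hr, h1, h2, ?_⟩
      intro hrU
      have hrt : r < t := lt_of_le_of_ne h2 (fun h => ht (h ▸ hrU))
      obtain ⟨r', hr', h1', h2'⟩ := hne r hrU hrt
      have := hmax ⟨hr', h1.trans h1', h2'⟩ h1'.le
      exact absurd this (not_le.mpr h1')
    · intro s hs t ht hst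
      have hne : ∀ x, x ∈ A ∪ B → t < x → ∃ r ∈ D ∪ E, t ≤ r ∧ r < x := by
        rintro x (hx | hx) hxt
        · obtain ⟨r, hr, h1, h2, _⟩ := hD2 x hx t (fun h => ht (Or.inl h)) hxt
          exact ⟨r, Or.inl hr, h1, h2⟩
        · obtain ⟨r, hr, h1, h2, _⟩ := hE2 x hx t (fun h => ht (Or.inr h)) hxt
          exact ⟨r, Or.inr hr, h1, h2⟩
      have hfin : {r | r ∈ D ∪ E ∧ t ≤ r ∧ r < s}.Finite :=
        (hD.union hE).subset (fun r hr => hr.1)
      obtain ⟨r0, hr0, h10, h20⟩ := hne s hs hst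
      obtain ⟨r, ⟨hr, h1, h2⟩, hmin⟩ := hfin.exists_minimalFor id _ ⟨r0, hr0, h10, h20⟩
      refine ⟨r, hr, h1, h2, ?_⟩
      intro hrU
      have hrt : t < r := lt_of_le_of_ne h1 (fun h => ht (h ▸ hrU))
      obtain ⟨r', hr', h1', h2'⟩ := hne r hrU hrt
      have := hmin ⟨hr', h1', h2'.trans h2⟩ h2'.le
      exact absurd this (not_le.mpr h2')
  · rintro A B ⟨D, hD, hD1, hD2⟩ ⟨E, hE, hE1, hE2⟩
    refine ⟨D ∪ E, hD.union hE, ?_, ?_⟩
    · rintro s ⟨hsA, hsB⟩ t ht hst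
      by_cases htA : t ∈ A
      · have htB : t ∉ B := fun h => ht ⟨htA, h⟩
        obtain ⟨r, hr, h1, h2, h3⟩ := hE1 s hsB t htB hst
        exact ⟨r, Or.inr hr, h1, h2, fun h => h3 h.2⟩
      · obtain ⟨r, hr, h1, h2, h3⟩ := hD1 s hsA t htA hst
        exact ⟨r, Or.inl hr, h1, h2, fun h => h3 h.1⟩
    · rintro s ⟨hsA, hsB⟩ t ht hst
      by_cases htA : t ∈ A
      · have htB : t ∉ B := fun h => ht ⟨htA, h⟩
        obtain ⟨r, hr, h1, h2, h3⟩ := hE2 s hsB t htB hst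
        exact ⟨r, Or.inr hr, h1, h2, fun h => h3 h.2⟩
      · obtain ⟨r, hr, h1, h2, h3⟩ := hD2 s hsA t htA hst
        exact ⟨r, Or.inl hr, h1, h2, fun h => h3 h.1⟩

lemma bd_right {U D : Set T} (hD : D.Finite) (h : Bd U D) {s t : T} (hs : s ∈ U) (ht : t ∉ U)
    (hst : s < t) : ∃ r ∈ D, s < r ∧ r ≤ t ∧ r ∉ U ∧ ∀ x, s ≤ x → x < r → x ∈ U := by
  have hfin : {r | r ∈ D ∧ s < r ∧ r ≤ t ∧ r ∉ U}.Finite := hD.subset (fun r hr => hr.1)
  obtain ⟨r0, hr0⟩ := h.1 s hs t ht hst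
  obtain ⟨r, ⟨hr, h1, h2, h3⟩, hmin⟩ := hfin.exists_minimalFor id _ ⟨r0, hr0⟩
  refine ⟨r, hr, h1, h2, h3, ?_⟩
  intro x hsx hxr
  by_contra hx
  have hsx' : s < x := lt_of_le_of_ne hsx (fun h => hx (h ▸ hs))
  obtain ⟨r', hr', h1', h2', h3'⟩ := h.1 s hs x hx hsx'
  have hlt : r' < r := h2'.trans_lt hxr
  have := hmin ⟨hr', h1', (hlt.le.trans h2), h3'⟩ hlt.le
  exact absurd this (not_le.mpr hlt)

lemma bd_left {U D : Set T} (hD : D.Finite) (h : Bd U D) {s t : T} (hs : s ∈ U) (ht : t ∉ U)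
    (hst : t < s) : ∃ r ∈ D, t ≤ r ∧ r < s ∧ r ∉ U ∧ ∀ x, r < x → x ≤ s → x ∈ U := by
  have hfin : {r | r ∈ D ∧ t ≤ r ∧ r < s ∧ r ∉ U}.Finite := hD.subset (fun r hr => hr.1)
  obtain ⟨r0, hr0⟩ := h.2 s hs t ht hst
  obtain ⟨r, ⟨hr, h1, h2, h3⟩, hmax⟩ := hfin.exists_maximalFor id _ ⟨r0, hr0⟩
  refine ⟨r, hr, h1, h2, h3, ?_⟩
  intro x hrx hxs
  by_contra hx
  have hxs' : x < s := lt_of_le_of_ne hxs (fun h => hx (h ▸ hs))
  obtain ⟨r', hr', h1', h2', h3'⟩ := h.2 s hs x hx hxs'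
  have hlt : r < r' := hrx.trans_le h1'
  have := hmax ⟨hr', h1.trans hlt.le, h2', h3'⟩ hlt.le
  exact absurd this (not_le.mpr hlt)

lemma open_of_mem [NoMinOrder T] [NoMaxOrder T] {U : Set T} (hU : U ∈ OT T) :
    ∀ t ∈ U, ∃ a b, a < t ∧ t < b ∧ ∀ x, a < x → x < b → x ∈ U := by
  refine OT.induct (P := fun U => ∀ t ∈ U, ∃ a b, a < t ∧ t < b ∧ ∀ x, a < x → x < b → x ∈ U)
    ?_ ?_ ?_ ?_ ?_ ?_ hU
  · intro t ht
    exact absurd ht (notMem_empty t)
  · intro t _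
    obtain ⟨a, ha⟩ := exists_lt t
    obtain ⟨b, hb⟩ := exists_gt t
    exact ⟨a, b, ha, hb, fun x _ _ => mem_univ x⟩
  · intro c t ht
    obtain ⟨a, ha⟩ := exists_lt t
    exact ⟨a, c, ha, ht, fun x _ hx => hx⟩
  · intro c t ht
    obtain ⟨b, hb⟩ := exists_gt t
    exact ⟨c, b, ht, hb, fun x hx _ => hx⟩
  · rintro A B hA hB t (ht | ht)
    · obtain ⟨a, b, ha, hb, h⟩ := hA t ht
      exact ⟨a, b, ha, hb, fun x h1 h2 => Or.inl (h x h1 h2)⟩
    · obtain ⟨a, b, ha, hb, h⟩ := hB t ht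
      exact ⟨a, b, ha, hb, fun x h1 h2 => Or.inr (h x h1 h2)⟩
  · rintro A B hA hB t ⟨htA, htB⟩
    obtain ⟨a, b, ha, hb, h⟩ := hA t htA
    obtain ⟨a', b', ha', hb', h'⟩ := hB t htB
    refine ⟨max a a', min b b', max_lt ha ha', lt_min hb hb', ?_⟩
    intro x h1 h2
    exact ⟨h x (lt_of_le_of_lt (le_max_left _ _) h1) (lt_of_lt_of_le h2 (min_le_left _ _)),
      h' x (lt_of_le_of_lt (le_max_right _ _) h1) (lt_of_lt_of_le h2 (min_le_right _ _))⟩

/-- A separating group of real functions, containing the constant `1`, all of whose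
positivity sets are in `O(T)`. -/
structure Gam (T : Type) [LinearOrder T] where
  Γ : AddSubgroup (T → ℝ)
  one_mem : (fun _ => (1 : ℝ)) ∈ Γ
  pos_mem : ∀ h ∈ Γ, {x | 0 < h x} ∈ OT T
  sep : ∀ s t : T, s ≠ t → ∃ h ∈ Γ, h s ≠ h t

namespace Gam

variable (G : Gam T)

lemma lt_mem {f h : T → ℝ} (hf : f ∈ G.Γ) (hh : h ∈ G.Γ) : {x | f x < h x} ∈ OT T := by
  have := G.pos_mem _ (G.Γ.sub_mem hh hf)
  have h2 : {x | 0 < (h - f) x} = {x | f x < h x} := by
    ext x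
    simp [Pi.sub_apply]
  rw [h2] at this
  exact this

lemma rat_lt_mem {h : T → ℝ} (hh : h ∈ G.Γ) (q : ℚ) : {x | (q : ℝ) < h x} ∈ OT T := by
  have h1 : (q.num • (fun _ : T => (1 : ℝ))) ∈ G.Γ := G.Γ.zsmul_mem G.one_mem _
  have h2 : (q.den • h) ∈ G.Γ := G.Γ.nsmul_mem hh _
  have := G.lt_mem h1 h2
  have h3 : {x | (q.num • (fun _ : T => (1 : ℝ))) x < (q.den • h) x} = {x | (q : ℝ) < h x} := by
    ext x
    have hd : (0 : ℝ) < q.den := by exact_mod_cast q.den_pos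
    simp only [Pi.smul_apply, mem_setOf_eq, zsmul_eq_mul, mul_one, nsmul_eq_mul]
    rw [Rat.cast_def, div_lt_iff₀ hd, mul_comm (h x)]
  rw [h3] at this
  exact this

lemma lt_rat_mem {h : T → ℝ} (hh : h ∈ G.Γ) (q : ℚ) : {x | h x < (q : ℝ)} ∈ OT T := by
  have := G.rat_lt_mem (G.Γ.neg_mem hh) (-q)
  have h3 : {x | ((-q : ℚ) : ℝ) < (-h) x} = {x | h x < (q : ℝ)} := by
    ext x
    simp [Pi.neg_apply]
  rw [h3] at this
  exact this

end Gam

/-- `h` is not locally constant at `t`. -/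
def Bad (h : T → ℝ) (t : T) : Prop := ∀ a b, a < t → t < b → ∃ x, a < x ∧ x < b ∧ h x ≠ h t

/-- Countable sets have countable closure. -/
def CtblClosure (T : Type) [LinearOrder T] : Prop :=
  ∀ E : Set T, E.Countable →
    {t | ∀ a b, a < t → t < b → ∃ r ∈ E, a < r ∧ r < b ∧ r ≠ t}.Countable

lemma bad_neg {h : T → ℝ} {t : T} (hb : Bad (-h) t) : Bad h t := by
  intro a b ha hb'
  obtain ⟨x, h1, h2, h3⟩ := hb a b ha hb'
  refine ⟨x, h1, h2, ?_⟩
  intro h4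
  apply h3
  simp [Pi.neg_apply, h4]

variable [DenselyOrdered T] [NoMinOrder T] [NoMaxOrder T]

lemma bad_countable (G : Gam T) (hT : CtblClosure T) {h : T → ℝ} (hh : h ∈ G.Γ) :
    {t | Bad h t}.Countable := by
  have h1 : ∀ q : ℚ, ∃ D : Set T, D.Finite ∧ Bd {x | (q : ℝ) < h x} D :=
    fun q => bd_exists (G.rat_lt_mem hh q)
  have h2 : ∀ q : ℚ, ∃ D : Set T, D.Finite ∧ Bd {x | h x < (q : ℝ)} D :=
    fun q => bd_exists (G.lt_rat_mem hh q)
  choose D1 hD1 hB1 using h1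
  choose D2 hD2 hB2 using h2
  have hE : (⋃ q, (D1 q ∪ D2 q)).Countable :=
    countable_iUnion (fun q => ((hD1 q).union (hD2 q)).countable)
  refine (hT _ hE).mono ?_
  intro t ht a b hat htb
  obtain ⟨x, hax, hxb, hne⟩ := ht a b hat htb
  have hxt : x ≠ t := fun h => hne (by rw [h])
  have hmemo : ∀ q : ℚ, ∀ y ∈ {x | (q : ℝ) < h x}, ∃ a b, a < y ∧ y < b ∧
      ∀ x, a < x → x < b → x ∈ {x | (q : ℝ) < h x} := fun q => open_of_mem (G.rat_lt_mem hh q)
  have hmemo2 : ∀ q : ℚ, ∀ y ∈ {x | h x < (q : ℝ)}, ∃ a b, a < y ∧ y < b ∧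
      ∀ x, a < x → x < b → x ∈ {x | h x < (q : ℝ)} := fun q => open_of_mem (G.lt_rat_mem hh q)
  rcases lt_or_gt_of_ne hne with hlt | hgt
  · obtain ⟨q, hq1, hq2⟩ := exists_rat_btwn hlt
    obtain ⟨c, d, hc, hd, hcd⟩ := hmemo q t hq2
    have htn : t ∉ {x | h x < (q : ℝ)} := fun h' => absurd h' (not_lt.mpr hq2.le)
    rcases lt_or_gt_of_ne hxt with hxt | hxt
    · obtain ⟨r, hr, h3, h4, h5, h6⟩ := bd_right (hD2 q) (hB2 q) (s := x) hq1 htn hxt
      refine ⟨r, mem_iUnion.mpr ⟨q, Or.inr hr⟩, hax.trans h3, h4.trans_lt htb, ?_⟩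
      rintro rfl
      obtain ⟨z, hz1, hz2⟩ := exists_between (max_lt hc h3)
      have := h6 z (le_trans (le_max_right _ _) hz1.le) hz2
      have h7 := hcd z (lt_of_le_of_lt (le_max_left _ _) hz1) (hz2.trans hd)
      exact absurd (lt_trans (show (q : ℝ) < h z from h7) this) (lt_irrefl _)
    · obtain ⟨r, hr, h3, h4, h5, h6⟩ := bd_left (hD2 q) (hB2 q) (s := x) hq1 htn hxt
      refine ⟨r, mem_iUnion.mpr ⟨q, Or.inr hr⟩, hat.trans_le h3, h4.trans hxb, ?_⟩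
      rintro rfl
      obtain ⟨z, hz1, hz2⟩ := exists_between (lt_min hd h4)
      have := h6 z hz1 (le_trans hz2.le (min_le_right _ _))
      have h7 := hcd z (hc.trans hz1) (lt_of_lt_of_le hz2 (min_le_left _ _))
      exact absurd (lt_trans (show (q : ℝ) < h z from h7) this) (lt_irrefl _)
  · obtain ⟨q, hq1, hq2⟩ := exists_rat_btwn hgt
    obtain ⟨c, d, hc, hd, hcd⟩ := hmemo2 q t hq1
    have htn : t ∉ {x | (q : ℝ) < h x} := fun h' => absurd h' (not_lt.mpr hq1.le)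
    rcases lt_or_gt_of_ne hxt with hxt | hxt
    · obtain ⟨r, hr, h3, h4, h5, h6⟩ := bd_right (hD1 q) (hB1 q) (s := x) hq2 htn hxt
      refine ⟨r, mem_iUnion.mpr ⟨q, Or.inl hr⟩, hax.trans h3, h4.trans_lt htb, ?_⟩
      rintro rfl
      obtain ⟨z, hz1, hz2⟩ := exists_between (max_lt hc h3)
      have := h6 z (le_trans (le_max_right _ _) hz1.le) hz2
      have h7 := hcd z (lt_of_le_of_lt (le_max_left _ _) hz1) (hz2.trans hd)
      exact absurd (lt_trans (show h z < (q : ℝ) from h7) this) (lt_irrefl _)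
    · obtain ⟨r, hr, h3, h4, h5, h6⟩ := bd_left (hD1 q) (hB1 q) (s := x) hq2 htn hxt
      refine ⟨r, mem_iUnion.mpr ⟨q, Or.inl hr⟩, hat.trans_le h3, h4.trans hxb, ?_⟩
      rintro rfl
      obtain ⟨z, hz1, hz2⟩ := exists_between (lt_min hd h4)
      have := h6 z hz1 (le_trans hz2.le (min_le_right _ _))
      have h7 := hcd z (hc.trans hz1) (lt_of_lt_of_le hz2 (min_le_left _ _))
      exact absurd (lt_trans (show h z < (q : ℝ) from h7) this) (lt_irrefl _)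

/-- The values of members of the group that are constant on `S`. -/
def V (G : Gam T) (S : Set T) : Set ℝ := {v | ∃ f ∈ G.Γ, ∀ s ∈ S, f s = v}

lemma V_mono (G : Gam T) {S S' : Set T} (h : S' ⊆ S) : V G S ⊆ V G S' := by
  rintro v ⟨f, hf, hv⟩
  exact ⟨f, hf, fun s hs => hv s (h hs)⟩

lemma claimC_aux (G : Gam T) {h : T → ℝ} (hh : h ∈ G.Γ) {S : Set T} (hS : S.OrdConnected)
    {a b : T} (ha : a ∈ S) (hb : b ∈ S) (hab : a < b) {v : ℝ} (hv : v ∈ V G S) (h1 : h a < v)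
    (h2 : v < h b) : ∃ t, Bad h t ∧ h t = v := by
  obtain ⟨f, hf, hfv⟩ := hv
  obtain ⟨D, hD, hB⟩ := bd_exists (G.lt_mem hf hh)
  have hbU : b ∈ {x | f x < h x} := by
    change f b < h b
    rw [hfv b hb]
    exact h2
  have haU : a ∉ {x | f x < h x} := by
    change ¬ (f a < h a)
    rw [hfv a ha]
    exact not_lt.mpr h1.le
  obtain ⟨r, hr, h3, h4, h5, h6⟩ := bd_left hD hB hbU haU hab
  have hrS : r ∈ S := hS.out ha hb ⟨h3, h4.le⟩
  have h7 : h r ≤ v := by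
    have := not_lt.mp (show ¬ (f r < h r) from h5)
    rw [hfv r hrS] at this
    exact this
  have h8 : h r = v := by
    apply le_antisymm h7
    by_contra hlt
    rw [not_le] at hlt
    have hrU : r ∈ {x | h x < f x} := by
      change h r < f r
      rw [hfv r hrS]
      exact hlt
    obtain ⟨c, d, hc, hd, hcd⟩ := open_of_mem (G.lt_mem hh hf) r hrU
    obtain ⟨z, hz1, hz2⟩ := exists_between (lt_min hd h4)
    have h9 := h6 z hz1 (le_trans hz2.le (min_le_right _ _))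
    have h10 := hcd z (hc.trans hz1) (lt_of_lt_of_le hz2 (min_le_left _ _))
    exact absurd (lt_trans (show f z < h z from h9) h10) (lt_irrefl _)
  refine ⟨r, ?_, h8⟩
  intro c d hc hd
  obtain ⟨z, hz1, hz2⟩ := exists_between (lt_min hd h4)
  have h9 := h6 z hz1 (le_trans hz2.le (min_le_right _ _))
  refine ⟨z, hc.trans hz1, lt_of_lt_of_le hz2 (min_le_left _ _), ?_⟩
  have hzS : z ∈ S := hS.out ha hb ⟨h3.trans hz1.le, le_trans hz2.le (min_le_right _ _)⟩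
  have h10 : v < h z := by
    have : f z < h z := h9
    rw [hfv z hzS] at this
    exact this
  rw [h8]
  exact h10.ne'

lemma claimC (G : Gam T) {h : T → ℝ} (hh : h ∈ G.Γ) {S : Set T} (hS : S.OrdConnected)
    {a b : T} (ha : a ∈ S) (hb : b ∈ S) {v : ℝ} (hv : v ∈ V G S) (h1 : h a < v)
    (h2 : v < h b) : ∃ t, Bad h t ∧ h t = v := by
  rcases lt_trichotomy a b with hab | hab | hab
  · exact claimC_aux G hh hS ha hb hab hv h1 h2
  · rw [hab] at h1
    exact absurd (h1.trans h2) (lt_irrefl _)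
  · have hv' : -v ∈ V G S := by
      obtain ⟨f, hf, hfv⟩ := hv
      refine ⟨-f, G.Γ.neg_mem hf, ?_⟩
      intro s hs
      rw [Pi.neg_apply, hfv s hs]
    obtain ⟨t, ht1, ht2⟩ := claimC_aux G (G.Γ.neg_mem hh) hS hb ha hab hv'
      (by rw [Pi.neg_apply]; exact neg_lt_neg h2) (by rw [Pi.neg_apply]; exact neg_lt_neg h1)
    refine ⟨t, bad_neg ht1, ?_⟩
    rw [Pi.neg_apply] at ht2
    exact neg_injective ht2

/-- Every gap has uncountable character on one of its sides. -/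
def GapCond (T : Type) [LinearOrder T] : Prop :=
  ∀ A : Set T, (∀ a ∈ A, ∀ x, x < a → x ∈ A) → A.Nonempty → Aᶜ.Nonempty →
    (∀ a ∈ A, ∃ a' ∈ A, a < a') → (∀ b, b ∉ A → ∃ b', b' ∉ A ∧ b' < b) →
    (∀ a : ℕ → T, (∀ n, a n ∈ A) → ∃ a' ∈ A, ∀ n, a n ≤ a') ∨
      (∀ b : ℕ → T, (∀ n, b n ∉ A) → ∃ b', b' ∉ A ∧ ∀ n, b' ≤ b n)

lemma claimD (G : Gam T) (hgap : GapCond T) {h : T → ℝ} (hh : h ∈ G.Γ) {a0 b0 : T}
    (hab : a0 < b0) {y : ℝ} (h1 : h a0 < y) (h2 : y < h b0) (hy : ∀ t, Bad h t → h t ≠ y) :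
    ∃ x x', a0 ≤ x ∧ x < x' ∧ x' ≤ b0 ∧ ∀ z, x < z → z < x' → h z = y := by
  let A : Set T := {t | t < a0 ∨ (a0 ≤ t ∧ t ≤ b0 ∧ ∀ s, a0 ≤ s → s ≤ t → h s < y)}
  have hA0 : a0 ∈ A := by
    refine Or.inr ⟨le_rfl, hab.le, ?_⟩
    intro s hs1 hs2
    rw [le_antisymm hs2 hs1]
    exact h1
  have hB0 : b0 ∉ A := by
    rintro (h3 | ⟨_, _, h3⟩)
    · exact absurd h3 (not_lt.mpr hab.le)
    · exact absurd (h3 b0 hab.le le_rfl) (not_lt.mpr h2.le)
  have hlow : ∀ a ∈ A, ∀ x, x < a → x ∈ A := by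
    rintro a ha x hx
    by_cases hxa : x < a0
    · exact Or.inl hxa
    · rw [not_lt] at hxa
      rcases ha with ha | ⟨ha1, ha2, ha3⟩
      · exact Or.inl (hx.trans ha)
      · exact Or.inr ⟨hxa, hx.le.trans ha2, fun s hs1 hs2 => ha3 s hs1 (hs2.trans hx.le)⟩
  have hAB : ∀ a ∈ A, ∀ b, b ∉ A → a < b := by
    intro a ha b hb
    by_contra hlt
    rw [not_lt] at hlt
    rcases hlt.eq_or_lt with h3 | h3
    · exact hb (h3 ▸ ha)
    · exact hb (hlow a ha b h3)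
  have hAlt : ∀ a ∈ A, a0 ≤ a → h a < y := by
    rintro a (ha | ⟨_, _, ha⟩) h3
    · exact absurd ha (not_lt.mpr h3)
    · exact ha a h3 le_rfl
  have hBge : ∀ b, b ∉ A → ∃ b', b' ∉ A ∧ b' ≤ b ∧ y ≤ h b' := by
    intro b hb
    by_cases hbb : b ≤ b0
    · have h3 : ¬ ∀ s, a0 ≤ s → s ≤ b → h s < y :=
        fun h4 => hb (Or.inr ⟨(hAB a0 hA0 b hb).le, hbb, h4⟩)
      push Not at h3
      obtain ⟨s, hs1, hs2, hs3⟩ := h3
      refine ⟨s, ?_, hs2, hs3⟩
      intro hsA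
      exact absurd (hAlt s hsA hs1) (not_lt.mpr hs3)
    · exact ⟨b0, hB0, (not_le.mp hbb).le, h2.le⟩
  -- no maximum
  have hnomax : ∀ a ∈ A, ∃ a' ∈ A, a < a' := by
    intro a ha
    by_contra hcon
    push Not at hcon
    have ha0 : a0 ≤ a := hcon a0 hA0
    have h3 := hAlt a ha ha0
    obtain ⟨q, hq1, hq2⟩ := exists_rat_btwn h3
    obtain ⟨c, d, hc, hd, hcd⟩ := open_of_mem (G.lt_rat_mem hh q) a hq1
    obtain ⟨x, hx1, hx2⟩ := exists_between (lt_min hd (hAB a ha b0 hB0))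
    have hxA : x ∈ A := by
      refine Or.inr ⟨ha0.trans hx1.le, le_trans hx2.le (min_le_right _ _), ?_⟩
      intro s hs1 hs2
      by_cases hsa : s ≤ a
      · rcases ha with ha | ⟨_, _, ha⟩
        · exact absurd ha (not_lt.mpr ha0)
        · exact ha s hs1 hsa
      · rw [not_le] at hsa
        have h4 : h s < q := hcd s (hc.trans hsa)
          (lt_of_le_of_lt hs2 (lt_of_lt_of_le hx2 (min_le_left _ _)))
        exact h4.trans hq2
    exact absurd hx1 (not_lt.mpr (hcon x hxA))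
  have hnomin : ∀ b, b ∉ A → ∃ b', b' ∉ A ∧ b' < b := by
    intro b hb
    by_contra hcon
    push Not at hcon
    have hlt : ∀ s, s < b → s ∈ A := by
      intro s hs
      by_contra hsA
      exact absurd hs (not_lt.mpr (hcon s hsA))
    obtain ⟨b', hb'1, hb'2, hb'3⟩ := hBge b hb
    have hbb : b' = b := le_antisymm hb'2 (hcon b' hb'1)
    rw [hbb] at hb'3
    have hab' := hAB a0 hA0 b hb
    have h4 : h b = y := by
      apply le_antisymm _ hb'3
      by_contra hlt'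
      rw [not_le] at hlt'
      obtain ⟨q, hq1, hq2⟩ := exists_rat_btwn hlt'
      obtain ⟨c, d, hc, hd, hcd⟩ := open_of_mem (G.rat_lt_mem hh q) b hq2
      obtain ⟨x, hx1, hx2⟩ := exists_between (max_lt hc hab')
      have h5 : (q : ℝ) < h x := hcd x (lt_of_le_of_lt (le_max_left _ _) hx1) (hx2.trans hd)
      have h6 := hAlt x (hlt x hx2) (le_trans (le_max_right _ _) hx1.le)
      exact absurd (h5.trans (h6.trans hq1)) (lt_irrefl _)
    refine hy b ?_ h4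
    intro c d hc hd
    obtain ⟨x, hx1, hx2⟩ := exists_between (max_lt hc hab')
    refine ⟨x, lt_of_le_of_lt (le_max_left _ _) hx1, hx2.trans hd, ?_⟩
    have h6 := hAlt x (hlt x hx2) (le_trans (le_max_right _ _) hx1.le)
    rw [h4]
    exact h6.ne
  -- members of `O(T)` are constant near the gap
  have hloc : ∀ U ∈ OT T, ∃ a1 ∈ A, ∃ b1, b1 ∉ A ∧ a0 ≤ a1 ∧ b1 ≤ b0 ∧
      ((∀ x, a1 ≤ x → x ≤ b1 → x ∈ U) ∨ (∀ x, a1 ≤ x → x ≤ b1 → x ∉ U)) := by
    intro U hU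
    obtain ⟨D, hD, hB⟩ := bd_exists hU
    have e1 : ∃ a1 ∈ A, a0 ≤ a1 ∧ ∀ r ∈ D, r ∈ A → r < a1 := by
      have hf : (insert a0 {r | r ∈ D ∧ r ∈ A}).Finite :=
        (hD.subset (fun r hr => hr.1)).insert a0
      obtain ⟨m, hm, hmax⟩ := hf.exists_maximalFor id _ ⟨a0, Or.inl rfl⟩
      have hmA : m ∈ A := by
        rcases hm with rfl | hm
        · exact hA0
        · exact hm.2
      obtain ⟨a1, ha1, hlt⟩ := hnomax m hmA
      have hle : ∀ r ∈ (insert a0 {r | r ∈ D ∧ r ∈ A}), r ≤ m := by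
        intro r hr
        rcases le_total r m with h3 | h3
        · exact h3
        · exact hmax hr h3
      exact ⟨a1, ha1, (hle a0 (Or.inl rfl)).trans hlt.le,
        fun r hr hrA => lt_of_le_of_lt (hle r (Or.inr ⟨hr, hrA⟩)) hlt⟩
    have e2 : ∃ b1, b1 ∉ A ∧ b1 ≤ b0 ∧ ∀ r ∈ D, r ∉ A → b1 < r := by
      have hf : (insert b0 {r | r ∈ D ∧ r ∉ A}).Finite :=
        (hD.subset (fun r hr => hr.1)).insert b0
      obtain ⟨m, hm, hmin⟩ := hf.exists_minimalFor id _ ⟨b0, Or.inl rfl⟩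
      have hmA : m ∉ A := by
        rcases hm with rfl | hm
        · exact hB0
        · exact hm.2
      obtain ⟨b1, hb1, hlt⟩ := hnomin m hmA
      have hle : ∀ r ∈ (insert b0 {r | r ∈ D ∧ r ∉ A}), m ≤ r := by
        intro r hr
        rcases le_total m r with h3 | h3
        · exact h3
        · exact hmin hr h3
      exact ⟨b1, hb1, hlt.le.trans (hle b0 (Or.inl rfl)),
        fun r hr hrA => lt_of_lt_of_le hlt (hle r (Or.inr ⟨hr, hrA⟩))⟩
    obtain ⟨a1, ha1, ha01, hDa⟩ := e1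
    obtain ⟨b1, hb1, hb01, hDb⟩ := e2
    refine ⟨a1, ha1, b1, hb1, ha01, hb01, ?_⟩
    have hno : ∀ r ∈ D, a1 ≤ r → r ≤ b1 → False := by
      intro r hr h3 h4
      by_cases hrA : r ∈ A
      · exact absurd (hDa r hr hrA) (not_lt.mpr h3)
      · exact absurd (hDb r hr hrA) (not_lt.mpr h4)
    by_contra hcon
    push Not at hcon
    obtain ⟨⟨t, ht1, ht2, htU⟩, ⟨s, hs1, hs2, hsU⟩⟩ := hcon
    rcases lt_trichotomy s t with h3 | h3 | h3
    · obtain ⟨r, hr, h4, h5, _⟩ := hB.1 s hsU t htU h3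
      exact hno r hr (hs1.trans h4.le) (h5.trans ht2)
    · exact htU (h3 ▸ hsU)
    · obtain ⟨r, hr, h4, h5, _⟩ := hB.2 s hsU t htU h3
      exact hno r hr (ht1.trans h4) (h5.le.trans hs2)
  have hlo : ∀ q : ℚ, ∃ a1 ∈ A, ∃ b1, b1 ∉ A ∧ a0 ≤ a1 ∧ b1 ≤ b0 ∧
      ((q : ℝ) < y → ∀ x, a1 ≤ x → x ≤ b1 → (q : ℝ) ≤ h x) := by
    intro q
    obtain ⟨a1, ha1, b1, hb1, ha01, hb01, h3⟩ := hloc _ (G.lt_rat_mem hh q)
    refine ⟨a1, ha1, b1, hb1, ha01, hb01, ?_⟩
    intro hq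
    rcases h3 with h3 | h3
    · exfalso
      obtain ⟨b', hb'1, hb'2, hb'3⟩ := hBge b1 hb1
      have h4 : h b' < q := h3 b' (hAB a1 ha1 b' hb'1).le hb'2
      exact absurd (lt_of_lt_of_le h4 (hq.le.trans hb'3)) (lt_irrefl _)
    · intro x hx1 hx2
      exact not_lt.mp (h3 x hx1 hx2)
  have hup : ∀ q : ℚ, ∃ a1 ∈ A, ∃ b1, b1 ∉ A ∧ a0 ≤ a1 ∧ b1 ≤ b0 ∧
      (y < (q : ℝ) → ∀ x, a1 ≤ x → x ≤ b1 → h x ≤ (q : ℝ)) := by
    intro q
    obtain ⟨a1, ha1, b1, hb1, ha01, hb01, h3⟩ := hloc _ (G.rat_lt_mem hh q)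
    refine ⟨a1, ha1, b1, hb1, ha01, hb01, ?_⟩
    intro hq
    rcases h3 with h3 | h3
    · exfalso
      have h4 : (q : ℝ) < h a1 := h3 a1 le_rfl (hAB a1 ha1 b1 hb1).le
      have h5 := hAlt a1 ha1 ha01
      exact absurd (h4.trans (h5.trans hq)) (lt_irrefl _)
    · intro x hx1 hx2
      exact not_lt.mp (h3 x hx1 hx2)
  choose al hal bl hbl hal0 hbl0 hl using hlo
  choose au hau bu hbu hau0 hbu0 hu using hup
  obtain ⟨e, he⟩ := exists_surjective_nat ℚ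
  rcases hgap A hlow ⟨a0, hA0⟩ ⟨b0, hB0⟩ hnomax hnomin with hc | hc
  · exfalso
    obtain ⟨a', ha', hle⟩ := hc (fun n => al (e n)) (fun n => hal (e n))
    have h3 : a0 ≤ a' := (hal0 (e 0)).trans (hle 0)
    have h4 := hAlt a' ha' h3
    obtain ⟨q, hq1, hq2⟩ := exists_rat_btwn h4
    obtain ⟨n, hn⟩ := he q
    have h5 := hl q hq2 a' (by rw [← hn]; exact hle n) (hAB a' ha' _ (hbl q)).le
    exact absurd hq1 (not_lt.mpr h5)
  · obtain ⟨b1, hb1, hle1⟩ := hc (fun n => bl (e n)) (fun n => hbl (e n))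
    obtain ⟨b2, hb2, hle2⟩ := hc (fun n => bu (e n)) (fun n => hbu (e n))
    have hb3 : min b1 b2 ∉ A := by
      rcases min_choice b1 b2 with h3 | h3 <;> rw [h3] <;> assumption
    obtain ⟨b4, hb4, hlt4⟩ := hnomin _ hb3
    refine ⟨b4, min b1 b2, (hAB a0 hA0 b4 hb4).le, hlt4,
      (min_le_left _ _).trans ((hle1 0).trans (hbl0 (e 0))), ?_⟩
    intro z hz1 hz2
    have hzA : z ∉ A := fun hz => absurd (hAB z hz b4 hb4) (not_lt.mpr hz1.le)
    apply le_antisymm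
    · by_contra hlt
      rw [not_le] at hlt
      obtain ⟨q, hq1, hq2⟩ := exists_rat_btwn hlt
      obtain ⟨n, hn⟩ := he q
      have h5 := hu q hq1 z (hAB _ (hau q) z hzA).le (by
        rw [← hn]
        exact le_trans hz2.le ((min_le_right _ _).trans (hle2 n)))
      exact absurd hq2 (not_lt.mpr h5)
    · by_contra hlt
      rw [not_le] at hlt
      obtain ⟨q, hq1, hq2⟩ := exists_rat_btwn hlt
      obtain ⟨n, hn⟩ := he q
      have h5 := hl q hq2 z (hAB _ (hal q) z hzA).le (by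
        rw [← hn]
        exact le_trans hz2.le ((min_le_left _ _).trans (hle1 n)))
      exact absurd hq1 (not_lt.mpr h5)

/-- The set of values `V G S` is a subgroup of the reals. -/
def Vgrp (G : Gam T) (S : Set T) : AddSubgroup ℝ where
  carrier := V G S
  zero_mem' := ⟨0, G.Γ.zero_mem, fun _ _ => rfl⟩
  add_mem' := by
    rintro a b ⟨f, hf, h1⟩ ⟨g, hg, h2⟩
    exact ⟨f + g, G.Γ.add_mem hf hg, fun s hs => by rw [Pi.add_apply, h1 s hs, h2 s hs]⟩
  neg_mem' := by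
    rintro a ⟨f, hf, h1⟩
    exact ⟨-f, G.Γ.neg_mem hf, fun s hs => by rw [Pi.neg_apply, h1 s hs]⟩

lemma countable_of_inter (W : AddSubgroup ℝ) {m M : ℝ} (hmM : m < M)
    (hc : ((W : Set ℝ) ∩ Ioo m M).Countable) : (W : Set ℝ).Countable := by
  rcases AddSubgroup.dense_or_cyclic W with hd | ⟨a, ha⟩
  · obtain ⟨w, hw1, hw2⟩ := hd.exists_mem_open (isOpen_Ioo (a := (0 : ℝ)) (b := (M - m) / 2))
      ⟨(M - m) / 4, by constructor <;> linarith⟩
    obtain ⟨hw3, hw4⟩ := hw2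
    have hsub : (W : Set ℝ) ⊆ ⋃ k : ℤ, (fun v => v + k • w) '' ((W : Set ℝ) ∩ Ioo m M) := by
      intro v hv
      let k : ℤ := ⌊(v - m) / w⌋ - 1
      have hk : ((k : ℤ) : ℝ) = (⌊(v - m) / w⌋ : ℝ) - 1 := by simp [k]
      have hk1 : (⌊(v - m) / w⌋ : ℝ) ≤ (v - m) / w := Int.floor_le _
      have hk2 : (v - m) / w < (⌊(v - m) / w⌋ : ℝ) + 1 := Int.lt_floor_add_one _
      rw [le_div_iff₀ hw3] at hk1
      rw [div_lt_iff₀ hw3] at hk2
      refine mem_iUnion.mpr ⟨k, v - k • w, ⟨?_, ?_, ?_⟩, ?_⟩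
      · exact W.sub_mem hv (W.zsmul_mem hw1 k)
      · rw [zsmul_eq_mul, hk]
        nlinarith
      · rw [zsmul_eq_mul, hk]
        nlinarith
      · simp
    exact (countable_iUnion (fun k => hc.image _)).mono hsub
  · rw [ha]
    have : ((AddSubgroup.closure {a} : AddSubgroup ℝ) : Set ℝ) ⊆ range (fun k : ℤ => k • a) := by
      intro v hv
      obtain ⟨k, hk⟩ := AddSubgroup.mem_closure_singleton.mp hv
      exact ⟨k, hk⟩
    exact (countable_range _).mono this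

/-- The values of constant-on-`S` members form a countable set. -/
lemma V_countable (G : Gam T) (hT : CtblClosure T) {S : Set T} (hS : S.OrdConnected)
    {a b : T} (ha : a ∈ S) (hb : b ∈ S) (hab : a ≠ b) : (V G S).Countable := by
  obtain ⟨h, hh, hne⟩ := G.sep a b hab
  have key : ∀ a b : T, a ∈ S → b ∈ S → h a < h b → (V G S).Countable := by
    intro a b ha hb hlt
    apply countable_of_inter (Vgrp G S) hlt
    refine ((bad_countable G hT hh).image h).mono ?_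
    rintro v ⟨hv, h1, h2⟩
    obtain ⟨t, ht1, ht2⟩ := claimC G hh hS ha hb hv h1 h2
    exact ⟨t, ht1, ht2⟩
  rcases lt_or_gt_of_ne hne with h1 | h1
  · exact key a b ha hb h1
  · exact key b a hb ha h1

/-- Growth: inside each convex set with two points there is an open interval on which a new
value occurs. -/
lemma growth (G : Gam T) (hT : CtblClosure T) (hgap : GapCond T) {S : Set T}
    (hS : S.OrdConnected) {a b : T} (ha : a ∈ S) (hb : b ∈ S) (hab : a ≠ b) :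
    ∃ x x', x < x' ∧ Ioo x x' ⊆ S ∧ ∃ y, y ∉ V G S ∧ y ∈ V G (Ioo x x') := by
  have hV := V_countable G hT hS ha hb hab
  obtain ⟨h0, hh0, hne⟩ := G.sep a b hab
  have key : ∀ a b : T, a ∈ S → b ∈ S → a < b → ∀ h ∈ G.Γ, h a < h b →
      ∃ x x', x < x' ∧ Ioo x x' ⊆ S ∧ ∃ y, y ∉ V G S ∧ y ∈ V G (Ioo x x') := by
    intro a b ha hb hab h hh hlt
    have hc : (V G S ∪ h '' {t | Bad h t}).Countable :=
      hV.union ((bad_countable G hT hh).image h)
    have hun : ¬ (Ioo (h a) (h b)).Countable := by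
      intro hcc
      have h1 := Cardinal.mk_Ioo_real hlt
      have h2 := hcc.le_aleph0
      rw [h1] at h2
      exact absurd h2 (not_le.mpr Cardinal.aleph0_lt_continuum)
    have : ∃ y ∈ Ioo (h a) (h b), y ∉ (V G S ∪ h '' {t | Bad h t}) := by
      by_contra hcon
      push Not at hcon
      exact hun (hc.mono hcon)
    obtain ⟨y, ⟨hy1, hy2⟩, hy3⟩ := this
    obtain ⟨x, x', h1, h2, h3, h4⟩ := claimD G hgap hh hab hy1 hy2
      (fun t ht hty => hy3 (Or.inr ⟨t, ht, hty⟩))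
    refine ⟨x, x', h2, ?_, y, fun hy => hy3 (Or.inl hy), h, hh, fun s hs => h4 s hs.1 hs.2⟩
    intro z hz
    exact hS.out ha hb ⟨h1.trans hz.1.le, hz.2.le.trans h3⟩
  have key2 : ∀ a b : T, a ∈ S → b ∈ S → a < b → ∀ h ∈ G.Γ, h a ≠ h b →
      ∃ x x', x < x' ∧ Ioo x x' ⊆ S ∧ ∃ y, y ∉ V G S ∧ y ∈ V G (Ioo x x') := by
    intro a b ha hb hab h hh hne
    rcases lt_or_gt_of_ne hne with h1 | h1
    · exact key a b ha hb hab h hh h1
    · exact key a b ha hb hab (-h) (G.Γ.neg_mem hh) (by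
        rw [Pi.neg_apply, Pi.neg_apply]
        exact neg_lt_neg h1)
  rcases lt_or_gt_of_ne hab with h1 | h1
  · exact key2 a b ha hb h1 h0 hh0 hne
  · exact key2 b a hb ha h1 h0 hh0 hne.symm

/-- Fusion: a separating group cannot exist if there is a suitable family of cones. -/
theorem no_gam (G : Gam T) (hT : CtblClosure T) (hgap : GapCond T) [Nonempty T]
    {W : Type} [LinearOrder W] [WellFoundedLT W] (hW : Uncountable W) (cone : T → Set T)
    (h1 : ∀ t, (cone t).OrdConnected) (h2 : ∀ t, ∃ a ∈ cone t, ∃ b ∈ cone t, a ≠ b)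
    (h3 : ∀ x x' : T, x < x' → ∃ t, cone t ⊆ Ioo x x')
    (h4 : ∀ (g : W → T) (S : Set W), (∀ i ∈ S, ∀ j ∈ S, i ≤ j → cone (g j) ⊆ cone (g i)) →
      ∃ t, ∀ i ∈ S, cone t ⊆ cone (g i)) : False := by
  have hnext : ∀ t, ∃ t', cone t' ⊆ cone t ∧ ∃ y, y ∉ V G (cone t) ∧ y ∈ V G (cone t') := by
    intro t
    obtain ⟨a, ha, b, hb, hab⟩ := h2 t
    obtain ⟨x, x', h5, h6, y, hy1, hy2⟩ := growth G hT hgap (h1 t) ha hb hab
    obtain ⟨t', ht'⟩ := h3 x x' h5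
    exact ⟨t', ht'.trans h6, y, hy1, V_mono G ht' hy2⟩
  choose nx hnx y hy1 hy2 using hnext
  classical
  let F : (w : W) → ((v : W) → v < w → T) → T := fun w ih =>
    nx (if h : ∃ t, ∀ i (hi : i < w), cone t ⊆ cone (ih i hi) then h.choose
      else Classical.arbitrary T)
  let g : W → T := (wellFounded_lt (α := W)).fix F
  have hg : ∀ w, g w = F w (fun v _ => g v) := fun w => (wellFounded_lt (α := W)).fix_eq F w
  have hub : ∀ w, ∃ u, g w = nx u ∧ ∀ i, i < w → cone u ⊆ cone (g i) := by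
    intro w
    induction w using (wellFounded_lt (α := W)).induction with
    | _ w ih =>
      have hex : ∃ t, ∀ i (_ : i < w), cone t ⊆ cone (g i) := by
        have := h4 g (Iio w) (by
          intro i hi j hj hij
          rcases hij.eq_or_lt with h | h
          · rw [h]
          · obtain ⟨u, hu1, hu2⟩ := ih j hj
            rw [hu1]
            exact (hnx u).trans (hu2 i h))
        obtain ⟨t, ht⟩ := this
        exact ⟨t, fun i hi => ht i hi⟩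
      refine ⟨hex.choose, ?_, fun i hi => hex.choose_spec i hi⟩
      rw [hg w]
      simp only [F]
      rw [dif_pos hex]
  choose u hu1 hu2 using hub
  have hmono : ∀ i j, i ≤ j → cone (g j) ⊆ cone (g i) := by
    intro i j hij
    rcases hij.eq_or_lt with h | h
    · rw [h]
    · rw [hu1 j]
      exact (hnx (u j)).trans (hu2 j i h)
  obtain ⟨t, ht⟩ := h4 g univ (fun i _ j _ hij => hmono i j hij)
  obtain ⟨a, ha, b, hb, hab⟩ := h2 t
  have hV := V_countable G hT (h1 t) ha hb hab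
  have hlt : ∀ i j, i < j → y (u i) ≠ y (u j) := by
    intro i j hij heq
    apply hy1 (u j)
    rw [← heq]
    apply V_mono G (hu2 j i hij)
    rw [hu1 i]
    exact hy2 (u i)
  have hinj : Function.Injective (fun w => y (u w)) := by
    intro i j hij
    rcases lt_trichotomy i j with h | h | h
    · exact absurd hij (hlt i j h)
    · exact h
    · exact absurd hij.symm (hlt j i h)
  have hsub : range (fun w => y (u w)) ⊆ V G (cone t) := by
    rintro _ ⟨w, rfl⟩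
    apply V_mono G (ht w (mem_univ w))
    rw [hu1 w]
    exact hy2 (u w)
  have hc : (range (fun w => y (u w))).Countable := hV.mono hsub
  have : Countable W := by
    have : Countable (range (fun w => y (u w))) := hc.to_subtype
    exact (Equiv.ofInjective _ hinj).injective.countable
  exact not_countable_iff.mpr hW this

end Pool.Agent.V116.ChainGamma
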