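import Mathlib
import Pool.Agent.V116.ChainGamma

/-!
Countably based differences of `O(T)` for chains all of whose points have countable character.
-/

namespace Pool.Agent.V116.ChainCBD

open Set Pool.Agent.V116.ChainGamma

variable {T : Type} [LinearOrder T]

/-- Countably based difference of two members. -/
def CBD (a b : Set T) : Prop :=
  ∃ C : Set (Set T), C.Countable ∧ (∀ c ∈ C, c ∈ OT T ∧ a ⊆ b ∪ c) ∧
    ∀ x ∈ OT T, a ⊆ b ∪ x → ∃ c ∈ C, c ⊆ x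

lemma cbd_union {a1 a2 b : Set T} (h1 : CBD a1 b) (h2 : CBD a2 b) : CBD (a1 ∪ a2) b := by
  obtain ⟨C1, hc1, hC1, hx1⟩ := h1
  obtain ⟨C2, hc2, hC2, hx2⟩ := h2
  refine ⟨image2 (· ∪ ·) C1 C2, hc1.image2 hc2 _, ?_, ?_⟩
  · rintro _ ⟨c1, h1, c2, h2, rfl⟩
    refine ⟨union_mem (hC1 c1 h1).1 (hC2 c2 h2).1, ?_⟩
    rintro z (hz | hz)
    · rcases (hC1 c1 h1).2 hz with h | h
      · exact Or.inl h
      · exact Or.inr (Or.inl h)
    · rcases (hC2 c2 h2).2 hz with h | h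
      · exact Or.inl h
      · exact Or.inr (Or.inr h)
  · intro x hx h
    obtain ⟨c1, h1, h1'⟩ := hx1 x hx (subset_union_left.trans h)
    obtain ⟨c2, h2, h2'⟩ := hx2 x hx (subset_union_right.trans h)
    exact ⟨c1 ∪ c2, ⟨c1, h1, c2, h2, rfl⟩, union_subset h1' h2'⟩

lemma cbd_inter {a b1 b2 : Set T} (h1 : CBD a b1) (h2 : CBD a b2) : CBD a (b1 ∩ b2) := by
  obtain ⟨C1, hc1, hC1, hx1⟩ := h1
  obtain ⟨C2, hc2, hC2, hx2⟩ := h2
  refine ⟨image2 (· ∪ ·) C1 C2, hc1.image2 hc2 _, ?_, ?_⟩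
  · rintro _ ⟨c1, h1, c2, h2, rfl⟩
    refine ⟨union_mem (hC1 c1 h1).1 (hC2 c2 h2).1, ?_⟩
    intro z hz
    rcases (hC1 c1 h1).2 hz with h | h
    · rcases (hC2 c2 h2).2 hz with h' | h'
      · exact Or.inl ⟨h, h'⟩
      · exact Or.inr (Or.inr h')
    · exact Or.inr (Or.inl h)
  · intro x hx h
    obtain ⟨c1, h1, h1'⟩ := hx1 x hx (h.trans (union_subset_union_left _ inter_subset_left))
    obtain ⟨c2, h2, h2'⟩ := hx2 x hx (h.trans (union_subset_union_left _ inter_subset_right))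
    exact ⟨c1 ∪ c2, ⟨c1, h1, c2, h2, rfl⟩, union_subset h1' h2'⟩

lemma cbd_empty_left (b : Set T) : CBD ∅ b :=
  ⟨{∅}, countable_singleton _, by
    rintro c hc
    rw [mem_singleton_iff] at hc
    rw [hc]
    exact ⟨empty_mem, empty_subset _⟩, fun x _ _ => ⟨∅, rfl, empty_subset _⟩⟩

lemma cbd_univ_right (a : Set T) : CBD a univ :=
  ⟨{∅}, countable_singleton _, by
    rintro c hc
    rw [mem_singleton_iff] at hc
    rw [hc]
    exact ⟨empty_mem, fun z _ => Or.inl (mem_univ z)⟩, fun x _ _ => ⟨∅, rfl, empty_subset _⟩⟩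

/-- Basic sets. -/
def Bas (U : Set T) : Prop :=
  ∃ L R : Set T, (L = univ ∨ ∃ l, L = Ioi l) ∧ (R = univ ∨ ∃ r, R = Iio r) ∧ U = L ∩ R

/-- Dual basic sets. -/
def Cob (U : Set T) : Prop :=
  ∃ L R : Set T, (L = ∅ ∨ ∃ l, L = Iio l) ∧ (R = ∅ ∨ ∃ r, R = Ioi r) ∧ U = L ∪ R

lemma bas_inter {U V : Set T} (hU : Bas U) (hV : Bas V) : Bas (U ∩ V) := by
  obtain ⟨L1, R1, hL1, hR1, rfl⟩ := hU
  obtain ⟨L2, R2, hL2, hR2, rfl⟩ := hV
  refine ⟨L1 ∩ L2, R1 ∩ R2, ?_, ?_, by rw [inter_inter_inter_comm]⟩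
  · rcases hL1 with rfl | ⟨l1, rfl⟩
    · rw [univ_inter]
      exact hL2
    · rcases hL2 with rfl | ⟨l2, rfl⟩
      · rw [inter_univ]
        exact Or.inr ⟨l1, rfl⟩
      · exact Or.inr ⟨l1 ⊔ l2, Ioi_inter_Ioi⟩
  · rcases hR1 with rfl | ⟨l1, rfl⟩
    · rw [univ_inter]
      exact hR2
    · rcases hR2 with rfl | ⟨l2, rfl⟩
      · rw [inter_univ]
        exact Or.inr ⟨l1, rfl⟩
      · exact Or.inr ⟨l1 ⊓ l2, Iio_inter_Iio⟩

lemma cob_union {U V : Set T} (hU : Cob U) (hV : Cob V) : Cob (U ∪ V) := by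
  obtain ⟨L1, R1, hL1, hR1, rfl⟩ := hU
  obtain ⟨L2, R2, hL2, hR2, rfl⟩ := hV
  refine ⟨L1 ∪ L2, R1 ∪ R2, ?_, ?_, by rw [union_union_union_comm]⟩
  · rcases hL1 with rfl | ⟨l1, rfl⟩
    · rw [empty_union]
      exact hL2
    · rcases hL2 with rfl | ⟨l2, rfl⟩
      · rw [union_empty]
        exact Or.inr ⟨l1, rfl⟩
      · refine Or.inr ⟨l1 ⊔ l2, ?_⟩
        ext z
        simp only [mem_union, mem_Iio, lt_sup_iff]
  · rcases hR1 with rfl | ⟨l1, rfl⟩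
    · rw [empty_union]
      exact hR2
    · rcases hR2 with rfl | ⟨l2, rfl⟩
      · rw [union_empty]
        exact Or.inr ⟨l1, rfl⟩
      · refine Or.inr ⟨l1 ⊓ l2, ?_⟩
        ext z
        simp only [mem_union, mem_Ioi, inf_lt_iff]

lemma nf_union {U : Set T} (hU : U ∈ OT T) :
    ∃ F : Set (Set T), F.Finite ∧ (∀ V ∈ F, Bas V) ∧ U = ⋃₀ F := by
  refine OT.induct (P := fun U => ∃ F : Set (Set T), F.Finite ∧ (∀ V ∈ F, Bas V) ∧ U = ⋃₀ F)
    ?_ ?_ ?_ ?_ ?_ ?_ hU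
  · exact ⟨∅, finite_empty, fun V hV => absurd hV (notMem_empty V), sUnion_empty.symm⟩
  · refine ⟨{univ}, finite_singleton _, ?_, (sUnion_singleton _).symm⟩
    intro V hV
    rw [mem_singleton_iff] at hV
    rw [hV]
    exact ⟨univ, univ, Or.inl rfl, Or.inl rfl, (inter_univ _).symm⟩
  · intro a
    refine ⟨{Iio a}, finite_singleton _, ?_, (sUnion_singleton _).symm⟩
    intro V hV
    rw [mem_singleton_iff] at hV
    rw [hV]
    exact ⟨univ, Iio a, Or.inl rfl, Or.inr ⟨a, rfl⟩, (univ_inter _).symm⟩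
  · intro a
    refine ⟨{Ioi a}, finite_singleton _, ?_, (sUnion_singleton _).symm⟩
    intro V hV
    rw [mem_singleton_iff] at hV
    rw [hV]
    exact ⟨Ioi a, univ, Or.inr ⟨a, rfl⟩, Or.inl rfl, (inter_univ _).symm⟩
  · rintro A B ⟨F1, hF1, hB1, rfl⟩ ⟨F2, hF2, hB2, rfl⟩
    refine ⟨F1 ∪ F2, hF1.union hF2, ?_, (sUnion_union _ _).symm⟩
    rintro V (hV | hV)
    · exact hB1 V hV
    · exact hB2 V hV
  · rintro A B ⟨F1, hF1, hB1, rfl⟩ ⟨F2, hF2, hB2, rfl⟩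
    refine ⟨image2 (· ∩ ·) F1 F2, hF1.image2 _ hF2, ?_, ?_⟩
    · rintro _ ⟨V1, h1, V2, h2, rfl⟩
      exact bas_inter (hB1 V1 h1) (hB2 V2 h2)
    · ext z
      constructor
      · rintro ⟨⟨V1, h1, hz1⟩, ⟨V2, h2, hz2⟩⟩
        exact ⟨V1 ∩ V2, ⟨V1, h1, V2, h2, rfl⟩, hz1, hz2⟩
      · rintro ⟨_, ⟨V1, h1, V2, h2, rfl⟩, hz1, hz2⟩
        exact ⟨⟨V1, h1, hz1⟩, ⟨V2, h2, hz2⟩⟩

lemma nf_inter {U : Set T} (hU : U ∈ OT T) :
    ∃ F : Set (Set T), F.Finite ∧ (∀ V ∈ F, Cob V) ∧ U = ⋂₀ F := by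
  refine OT.induct (P := fun U => ∃ F : Set (Set T), F.Finite ∧ (∀ V ∈ F, Cob V) ∧ U = ⋂₀ F)
    ?_ ?_ ?_ ?_ ?_ ?_ hU
  · refine ⟨{∅}, finite_singleton _, ?_, (sInter_singleton _).symm⟩
    intro V hV
    rw [mem_singleton_iff] at hV
    rw [hV]
    exact ⟨∅, ∅, Or.inl rfl, Or.inl rfl, (union_empty _).symm⟩
  · exact ⟨∅, finite_empty, fun V hV => absurd hV (notMem_empty V), sInter_empty.symm⟩
  · intro a
    refine ⟨{Iio a}, finite_singleton _, ?_, (sInter_singleton _).symm⟩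
    intro V hV
    rw [mem_singleton_iff] at hV
    rw [hV]
    exact ⟨Iio a, ∅, Or.inr ⟨a, rfl⟩, Or.inl rfl, (union_empty _).symm⟩
  · intro a
    refine ⟨{Ioi a}, finite_singleton _, ?_, (sInter_singleton _).symm⟩
    intro V hV
    rw [mem_singleton_iff] at hV
    rw [hV]
    exact ⟨∅, Ioi a, Or.inl rfl, Or.inr ⟨a, rfl⟩, (empty_union _).symm⟩
  · rintro A B ⟨F1, hF1, hB1, rfl⟩ ⟨F2, hF2, hB2, rfl⟩
    refine ⟨image2 (· ∪ ·) F1 F2, hF1.image2 _ hF2, ?_, ?_⟩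
    · rintro _ ⟨V1, h1, V2, h2, rfl⟩
      exact cob_union (hB1 V1 h1) (hB2 V2 h2)
    · ext z
      constructor
      · rintro (hz | hz) _ ⟨V1, h1, V2, h2, rfl⟩
        · exact Or.inl (hz V1 h1)
        · exact Or.inr (hz V2 h2)
      · intro hz
        by_contra hcon
        have h1 : z ∉ ⋂₀ F1 := fun h => hcon (Or.inl h)
        have h2 : z ∉ ⋂₀ F2 := fun h => hcon (Or.inr h)
        rw [mem_sInter] at h1 h2
        push Not at h1 h2
        obtain ⟨V1, hV1, hz1⟩ := h1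
        obtain ⟨V2, hV2, hz2⟩ := h2
        rcases hz (V1 ∪ V2) ⟨V1, hV1, V2, hV2, rfl⟩ with h | h
        · exact hz1 h
        · exact hz2 h
  · rintro A B ⟨F1, hF1, hB1, rfl⟩ ⟨F2, hF2, hB2, rfl⟩
    refine ⟨F1 ∪ F2, hF1.union hF2, ?_, (sInter_union _ _).symm⟩
    rintro V (hV | hV)
    · exact hB1 V hV
    · exact hB2 V hV

/-- Points have countable character from the left. -/
def LChar (T : Type) [LinearOrder T] : Prop :=
  ∀ t : T, ∃ a : ℕ → T, (∀ n, a n < t) ∧ ∀ s, s < t → ∃ n, s < a n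

/-- Points have countable character from the right. -/
def RChar (T : Type) [LinearOrder T] : Prop :=
  ∀ t : T, ∃ a : ℕ → T, (∀ n, t < a n) ∧ ∀ s, t < s → ∃ n, a n < s

variable [NoMinOrder T] [NoMaxOrder T]

lemma left_part (hL : LChar T) {L L' : Set T} (h1 : L = univ ∨ ∃ l, L = Ioi l)
    (h2 : L' = ∅ ∨ ∃ l, L' = Iio l) :
    (∀ z ∈ L \ L', ∀ w, z ≤ w → w ∈ L \ L') ∧
    ∃ lam : ℕ → Set T, (∀ n, lam n ∈ OT T ∧ L \ L' ⊆ lam n) ∧
      ∀ x ∈ OT T, ∀ z ∈ L \ L', (∀ w ∈ L \ L', w ≤ z → w ∈ x) →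
        ∃ n, ∀ w ∈ lam n, w ≤ z → w ∈ x := by
  have hici : ∀ p : T, (∀ z ∈ Ici p, ∀ w, z ≤ w → w ∈ Ici p) ∧
    ∃ lam : ℕ → Set T, (∀ n, lam n ∈ OT T ∧ Ici p ⊆ lam n) ∧
      ∀ x ∈ OT T, ∀ z ∈ Ici p, (∀ w ∈ Ici p, w ≤ z → w ∈ x) →
        ∃ n, ∀ w ∈ lam n, w ≤ z → w ∈ x := by
    intro p
    refine ⟨fun z hz w hw => le_trans hz hw, ?_⟩
    obtain ⟨a, ha1, ha2⟩ := hL p
    refine ⟨fun n => Ioi (a n), fun n => ⟨Ioi_mem _, fun w hw => lt_of_lt_of_le (ha1 n) hw⟩, ?_⟩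
    intro x hx z hz h
    obtain ⟨c, d, hc, hd, hcd⟩ := open_of_mem hx p (h p le_rfl hz)
    obtain ⟨n, hn⟩ := ha2 c hc
    refine ⟨n, ?_⟩
    intro w hw hwz
    rcases lt_or_ge w p with h3 | h3
    · exact hcd w (hn.trans hw) (h3.trans hd)
    · exact h w h3 hwz
  rcases h1 with rfl | ⟨l, rfl⟩
  · rcases h2 with rfl | ⟨p, rfl⟩
    · rw [diff_empty]
      refine ⟨fun z _ w _ => mem_univ w, fun _ => univ, fun n => ⟨univ_mem, Subset.rfl⟩, ?_⟩
      intro x _ z _ h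
      exact ⟨0, fun w _ hw => h w (mem_univ w) hw⟩
    · have : (univ \ Iio p : Set T) = Ici p := by
        ext z
        simp
      rw [this]
      exact hici p
  · have hioi : (∀ z ∈ Ioi l, ∀ w, z ≤ w → w ∈ Ioi l) ∧
      ∃ lam : ℕ → Set T, (∀ n, lam n ∈ OT T ∧ Ioi l ⊆ lam n) ∧
        ∀ x ∈ OT T, ∀ z ∈ Ioi l, (∀ w ∈ Ioi l, w ≤ z → w ∈ x) →
          ∃ n, ∀ w ∈ lam n, w ≤ z → w ∈ x := by
      refine ⟨fun z hz w hw => lt_of_lt_of_le hz hw, fun _ => Ioi l,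
        fun n => ⟨Ioi_mem l, Subset.rfl⟩, ?_⟩
      intro x _ z _ h
      exact ⟨0, fun w hw hwz => h w hw hwz⟩
    rcases h2 with rfl | ⟨p, rfl⟩
    · rw [diff_empty]
      exact hioi
    · rcases le_or_gt p l with hpl | hpl
      · have : (Ioi l \ Iio p : Set T) = Ioi l := by
          ext z
          simp only [mem_diff, mem_Ioi, mem_Iio, not_lt]
          constructor
          · exact fun h => h.1
          · exact fun h => ⟨h, hpl.trans h.le⟩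
        rw [this]
        exact hioi
      · have : (Ioi l \ Iio p : Set T) = Ici p := by
          ext z
          simp only [mem_diff, mem_Ioi, mem_Iio, not_lt, mem_Ici]
          constructor
          · exact fun h => h.2
          · exact fun h => ⟨lt_of_lt_of_le hpl h, h⟩
        rw [this]
        exact hici p

lemma right_part (hR : RChar T) {R R' : Set T} (h1 : R = univ ∨ ∃ l, R = Iio l)
    (h2 : R' = ∅ ∨ ∃ l, R' = Ioi l) :
    (∀ z ∈ R \ R', ∀ w, w ≤ z → w ∈ R \ R') ∧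
    ∃ lam : ℕ → Set T, (∀ n, lam n ∈ OT T ∧ R \ R' ⊆ lam n) ∧
      ∀ x ∈ OT T, ∀ z ∈ R \ R', (∀ w ∈ R \ R', z ≤ w → w ∈ x) →
        ∃ n, ∀ w ∈ lam n, z ≤ w → w ∈ x := by
  have hici : ∀ p : T, (∀ z ∈ Iic p, ∀ w, w ≤ z → w ∈ Iic p) ∧
    ∃ lam : ℕ → Set T, (∀ n, lam n ∈ OT T ∧ Iic p ⊆ lam n) ∧
      ∀ x ∈ OT T, ∀ z ∈ Iic p, (∀ w ∈ Iic p, z ≤ w → w ∈ x) →
        ∃ n, ∀ w ∈ lam n, z ≤ w → w ∈ x := by
    intro p
    refine ⟨fun z hz w hw => le_trans hw hz, ?_⟩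
    obtain ⟨a, ha1, ha2⟩ := hR p
    refine ⟨fun n => Iio (a n), fun n => ⟨Iio_mem _, fun w hw => lt_of_le_of_lt hw (ha1 n)⟩, ?_⟩
    intro x hx z hz h
    obtain ⟨c, d, hc, hd, hcd⟩ := open_of_mem hx p (h p le_rfl hz)
    obtain ⟨n, hn⟩ := ha2 d hd
    refine ⟨n, ?_⟩
    intro w hw hwz
    rcases lt_or_ge p w with h3 | h3
    · exact hcd w (hc.trans h3) (lt_trans hw hn)
    · exact h w h3 hwz
  rcases h1 with rfl | ⟨l, rfl⟩
  · rcases h2 with rfl | ⟨p, rfl⟩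
    · rw [diff_empty]
      refine ⟨fun z _ w _ => mem_univ w, fun _ => univ, fun n => ⟨univ_mem, Subset.rfl⟩, ?_⟩
      intro x _ z _ h
      exact ⟨0, fun w _ hw => h w (mem_univ w) hw⟩
    · have : (univ \ Ioi p : Set T) = Iic p := by
        ext z
        simp
      rw [this]
      exact hici p
  · have hioi : (∀ z ∈ Iio l, ∀ w, w ≤ z → w ∈ Iio l) ∧
      ∃ lam : ℕ → Set T, (∀ n, lam n ∈ OT T ∧ Iio l ⊆ lam n) ∧
        ∀ x ∈ OT T, ∀ z ∈ Iio l, (∀ w ∈ Iio l, z ≤ w → w ∈ x) →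
          ∃ n, ∀ w ∈ lam n, z ≤ w → w ∈ x := by
      refine ⟨fun z hz w hw => lt_of_le_of_lt hw hz, fun _ => Iio l,
        fun n => ⟨Iio_mem l, Subset.rfl⟩, ?_⟩
      intro x _ z _ h
      exact ⟨0, fun w hw hwz => h w hw hwz⟩
    rcases h2 with rfl | ⟨p, rfl⟩
    · rw [diff_empty]
      exact hioi
    · rcases le_or_gt l p with hpl | hpl
      · have : (Iio l \ Ioi p : Set T) = Iio l := by
          ext z
          simp only [mem_diff, mem_Ioi, mem_Iio, not_lt]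
          constructor
          · exact fun h => h.1
          · exact fun h => ⟨h, h.le.trans hpl⟩
        rw [this]
        exact hioi
      · have : (Iio l \ Ioi p : Set T) = Iic p := by
          ext z
          simp only [mem_diff, mem_Ioi, mem_Iio, not_lt, mem_Iic]
          constructor
          · exact fun h => h.2
          · exact fun h => ⟨lt_of_le_of_lt h hpl, h⟩
        rw [this]
        exact hici p

lemma cbd_base (hL : LChar T) (hR : RChar T) {a b : Set T} (ha : Bas a) (hb : Cob b) :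
    CBD a b := by
  obtain ⟨L, R, h1, h2, rfl⟩ := ha
  obtain ⟨L', R', h3, h4, rfl⟩ := hb
  have hiff : ∀ x : Set T, L ∩ R ⊆ (L' ∪ R') ∪ x ↔ ∀ z, z ∈ L \ L' → z ∈ R \ R' → z ∈ x := by
    intro x
    constructor
    · rintro h z ⟨hz1, hz2⟩ ⟨hz3, hz4⟩
      rcases h ⟨hz1, hz3⟩ with (h5 | h5) | h5
      · exact absurd h5 hz2
      · exact absurd h5 hz4
      · exact h5
    · rintro h z ⟨hz1, hz2⟩
      by_cases h5 : z ∈ L'
      · exact Or.inl (Or.inl h5)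
      · by_cases h6 : z ∈ R'
        · exact Or.inl (Or.inr h6)
        · exact Or.inr (h z ⟨hz1, h5⟩ ⟨hz2, h6⟩)
  by_cases hz : ∃ z, z ∈ L \ L' ∧ z ∈ R \ R'
  · obtain ⟨z, hz1, hz2⟩ := hz
    obtain ⟨hup, lam, hlam1, hlam2⟩ := left_part hL h1 h3
    obtain ⟨hdn, rho, hrho1, hrho2⟩ := right_part hR h2 h4
    refine ⟨range (fun p : ℕ × ℕ => lam p.1 ∩ rho p.2), countable_range _, ?_, ?_⟩
    · rintro _ ⟨⟨n, m⟩, rfl⟩
      refine ⟨inter_mem (hlam1 n).1 (hrho1 m).1, ?_⟩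
      rw [hiff]
      exact fun z h5 h6 => ⟨(hlam1 n).2 h5, (hrho1 m).2 h6⟩
    · intro x hx h
      rw [hiff] at h
      obtain ⟨n, hn⟩ := hlam2 x hx z hz1 (fun w hw hwz => h w hw (hdn z hz2 w hwz))
      obtain ⟨m, hm⟩ := hrho2 x hx z hz2 (fun w hw hwz => h w (hup z hz1 w hwz) hw)
      refine ⟨_, ⟨(n, m), rfl⟩, ?_⟩
      rintro w ⟨hw1, hw2⟩
      rcases le_total w z with h5 | h5
      · exact hn w hw1 h5
      · exact hm w hw2 h5
  · refine ⟨{∅}, countable_singleton _, ?_, fun x _ _ => ⟨∅, rfl, empty_subset _⟩⟩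
    intro c hc
    rw [mem_singleton_iff] at hc
    rw [hc]
    refine ⟨empty_mem, ?_⟩
    rw [hiff]
    intro z h5 h6
    exact absurd ⟨z, h5, h6⟩ hz

theorem cbd (hL : LChar T) (hR : RChar T) {a b : Set T} (ha : a ∈ OT T) (hb : b ∈ OT T) :
    CBD a b := by
  obtain ⟨F, hF, hFB, rfl⟩ := nf_union ha
  obtain ⟨F', hF', hFB', rfl⟩ := nf_inter hb
  have step1 : ∀ V, Bas V → CBD V (⋂₀ F') := by
    intro V hV
    clear hb
    induction F', hF' using Set.Finite.induction_on with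
    | empty =>
      rw [sInter_empty]
      exact cbd_univ_right V
    | @insert W F0 _ _ ih =>
      rw [sInter_insert]
      exact cbd_inter (cbd_base hL hR hV (hFB' W (mem_insert _ _)))
        (ih (fun V hV => hFB' V (mem_insert_of_mem _ hV)))
  clear ha
  induction F, hF using Set.Finite.induction_on with
  | empty =>
    rw [sUnion_empty]
    exact cbd_empty_left _
  | @insert W F0 _ _ ih =>
    rw [sUnion_insert]
    exact cbd_union (step1 W (hFB W (mem_insert _ _)))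
      (ih (fun V hV => hFB V (mem_insert_of_mem _ hV)))

end Pool.Agent.V116.ChainCBD
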