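import Mathlib
import Pool.Agent.V116.ChainGamma

/-!
From an `ℓ`-group whose lattice of principal `ℓ`-ideals is `O(T)` to a group of real functions.
-/

namespace Pool.Agent.V116.ChainEval

open Set Pool.Agent.V116.ChainGamma

section Eval

variable {G : Type} [AddCommGroup G] {Pos : Set G} {u : G}

lemma exists_ev (a1 : ∀ g, g ∈ Pos → -g ∉ Pos) (a3 : ∀ g h, g ∉ Pos → h ∉ Pos → g + h ∉ Pos)
    (a4 : u ∈ Pos) (a5 : ∀ g, ∃ n : ℕ, n • u - g ∈ Pos)
    (a6 : ∀ g ∈ Pos, ∃ n : ℕ, n • g - u ∈ Pos) :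
    ∃ ev : G →+ ℝ, ev u = 1 ∧ ∀ g, 0 < ev g ↔ g ∈ Pos := by
  have b0 : (0 : G) ∉ Pos := by
    intro h
    have := a1 0 h
    rw [neg_zero] at this
    exact this h
  have b2 : ∀ g h, g ∈ Pos → h ∈ Pos → g + h ∈ Pos := by
    intro g h hg hh
    by_contra hcon
    have := a3 _ _ hcon (a1 h hh)
    rw [add_neg_cancel_right] at this
    exact this hg
  have b3 : ∀ n : ℕ, 0 < n → ∀ g ∈ Pos, n • g ∈ Pos := by
    intro n hn g hg
    induction n with
    | zero => exact absurd hn (lt_irrefl 0)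
    | succ n ih =>
      rcases Nat.eq_zero_or_pos n with h | h
      · rw [h, zero_add, one_nsmul]
        exact hg
      · rw [succ_nsmul]
        exact b2 _ _ (ih h) hg
  have b5' : ∀ n : ℕ, ∀ g, g ∉ Pos → n • g ∉ Pos := by
    intro n g hg
    induction n with
    | zero =>
      rw [zero_nsmul]
      exact b0
    | succ n ih =>
      rw [succ_nsmul]
      exact a3 _ _ ih hg
  have b5 : ∀ n : ℕ, ∀ g, n • g ∈ Pos → g ∈ Pos := by
    intro n g h
    by_contra hg
    exact b5' n g hg h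
  have b4 : ∀ k : ℤ, k • u ∈ Pos ↔ 0 < k := by
    intro k
    constructor
    · intro h
      by_contra hk
      rw [not_lt] at hk
      obtain ⟨n, hn⟩ := Int.eq_ofNat_of_zero_le (neg_nonneg.mpr hk)
      have hk' : k = -(n : ℤ) := by omega
      rw [hk', neg_zsmul, natCast_zsmul] at h
      rcases Nat.eq_zero_or_pos n with h0 | h0
      · rw [h0, zero_nsmul, neg_zero] at h
        exact b0 h
      · exact a1 _ (b3 n h0 u a4) h
    · intro hk
      obtain ⟨n, hn⟩ := Int.eq_ofNat_of_zero_le hk.le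
      rw [hn, natCast_zsmul]
      exact b3 n (by omega) u a4
  let S : G → Set ℝ := fun g =>
    {r | ∃ (m : ℤ) (n : ℕ), 0 < n ∧ r = (m : ℝ) / n ∧ (n : ℤ) • g - m • u ∈ Pos}
  have hne : ∀ g, (S g).Nonempty := by
    intro g
    obtain ⟨n, hn⟩ := a5 (-g)
    refine ⟨((-(n : ℤ) : ℤ) : ℝ) / (1 : ℕ), -(n : ℤ), 1, Nat.one_pos, rfl, ?_⟩
    have : ((1 : ℕ) : ℤ) • g - (-(n : ℤ)) • u = n • u - -g := by
      rw [Nat.cast_one, one_zsmul, neg_zsmul, natCast_zsmul]
      abel
    rw [this]
    exact hn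
  have hub : ∀ g, ∀ N : ℕ, N • u - g ∈ Pos → ∀ r ∈ S g, r ≤ (N : ℝ) := by
    rintro g N hN r ⟨m, n, hn, rfl, hr⟩
    have h1 := b2 _ _ hr (b3 n hn _ hN)
    have h2 : (n : ℤ) • g - m • u + n • (N • u - g) = ((n : ℤ) * N - m) • u := by
      rw [sub_zsmul, mul_zsmul, natCast_zsmul, natCast_zsmul, natCast_zsmul, nsmul_sub]
      abel
    rw [h2, b4] at h1
    have hn' : (0 : ℝ) < n := by exact_mod_cast hn
    rw [div_le_iff₀ hn']
    have h3 : (m : ℝ) < (n : ℝ) * N := by
      have : m < (n : ℤ) * N := by omega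
      exact_mod_cast this
    linarith
  have hbdd : ∀ g, BddAbove (S g) := by
    intro g
    obtain ⟨N, hN⟩ := a5 g
    exact ⟨N, fun r hr => hub g N hN r hr⟩
  -- downward closure
  have hdown : ∀ g, ∀ r ∈ S g, ∀ (m : ℤ) (n : ℕ), 0 < n → (m : ℝ) / n < r →
      (n : ℤ) • g - m • u ∈ Pos := by
    rintro g r ⟨m', n', hn', rfl, hr⟩ m n hn hlt
    apply b5 n'
    have h1 : n' • ((n : ℤ) • g - m • u) =
        n • ((n' : ℤ) • g - m' • u) + ((n : ℤ) * m' - n' * m) • u := by
      rw [nsmul_sub, nsmul_sub, sub_zsmul, mul_zsmul, mul_zsmul]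
      rw [natCast_zsmul, natCast_zsmul, natCast_zsmul, natCast_zsmul, ← mul_nsmul', ← mul_nsmul',
        mul_comm n n']
      abel
    rw [h1]
    apply b2 _ _ (b3 n hn _ hr)
    rw [b4]
    have hn1 : (0 : ℝ) < n := by exact_mod_cast hn
    have hn2 : (0 : ℝ) < n' := by exact_mod_cast hn'
    rw [div_lt_div_iff₀ hn1 hn2] at hlt
    have h3 : m * (n' : ℤ) < m' * (n : ℤ) := by exact_mod_cast hlt
    nlinarith
  let ev0 : G → ℝ := fun g => sSup (S g)
  have hle : ∀ g, ∀ r ∈ S g, r ≤ ev0 g := fun g r hr => le_csSup (hbdd g) hr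
  have hmem : ∀ g (m : ℤ) (n : ℕ), 0 < n → (m : ℝ) / n < ev0 g →
      (n : ℤ) • g - m • u ∈ Pos := by
    intro g m n hn hlt
    obtain ⟨r, hr, hlt'⟩ := exists_lt_of_lt_csSup (hne g) hlt
    exact hdown g r hr m n hn hlt'
  have hsup : ∀ g h, ev0 g + ev0 h ≤ ev0 (g + h) := by
    intro g h
    by_contra hcon
    rw [not_le] at hcon
    set δ := (ev0 g + ev0 h - ev0 (g + h)) / 2 with hδ
    have hδ0 : 0 < δ := by linarith
    obtain ⟨r, hr, hlt1⟩ := exists_lt_of_lt_csSup (hne g) (show ev0 g - δ < sSup (S g) by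
      change ev0 g - δ < ev0 g
      linarith)
    obtain ⟨r', hr', hlt2⟩ := exists_lt_of_lt_csSup (hne h) (show ev0 h - δ < sSup (S h) by
      change ev0 h - δ < ev0 h
      linarith)
    have hrr : r + r' ∈ S (g + h) := by
      obtain ⟨m, n, hn, rfl, h1⟩ := hr
      obtain ⟨m', n', hn', rfl, h2⟩ := hr'
      have hn1 : (n : ℝ) ≠ 0 := by exact_mod_cast hn.ne'
      have hn2 : (n' : ℝ) ≠ 0 := by exact_mod_cast hn'.ne'
      refine ⟨m * n' + m' * n, n * n', Nat.mul_pos hn hn', ?_, ?_⟩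
      · push_cast
        field_simp
      · have h3 : ((n * n' : ℕ) : ℤ) • (g + h) - (m * n' + m' * n : ℤ) • u =
            n' • ((n : ℤ) • g - m • u) + n • ((n' : ℤ) • h - m' • u) := by
          rw [nsmul_sub, nsmul_sub, add_zsmul, natCast_zsmul, natCast_zsmul, natCast_zsmul,
            mul_comm m, mul_comm m', mul_zsmul, mul_zsmul, natCast_zsmul, natCast_zsmul,
            ← mul_nsmul', ← mul_nsmul', nsmul_add, mul_comm n' n]
          abel
        rw [h3]
        exact b2 _ _ (b3 n' hn' _ h1) (b3 n hn _ h2)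
    have := hle _ _ hrr
    linarith
  have h0 : ev0 0 ≤ 0 := by
    apply csSup_le (hne 0)
    rintro r ⟨m, n, hn, rfl, h1⟩
    have h2 : (n : ℤ) • (0 : G) - m • u = (-m) • u := by
      rw [zsmul_zero, zero_sub, neg_zsmul]
    rw [h2, b4] at h1
    have hn1 : (0 : ℝ) < n := by exact_mod_cast hn
    have hm : (m : ℝ) < 0 := by
      have : m < 0 := by omega
      exact_mod_cast this
    exact (div_neg_of_neg_of_pos hm hn1).le
  have hneg : ∀ g, ev0 (-g) = -ev0 g := by
    intro g
    have h1 := hsup g (-g)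
    rw [add_neg_cancel] at h1
    have h2 : 0 ≤ ev0 g + ev0 (-g) := by
      by_contra hcon
      rw [not_le] at hcon
      obtain ⟨q, hq1, hq2⟩ := exists_rat_btwn (show ev0 g < -ev0 (-g) by linarith)
      obtain ⟨q', hq'1, hq'2⟩ := exists_rat_btwn hq2
      have e1 : ∀ q : ℚ, ev0 g < q → (q.den : ℤ) • g - q.num • u ∉ Pos := by
        intro q hq hmem'
        have : (q : ℝ) ∈ S g := ⟨q.num, q.den, q.den_pos, Rat.cast_def q, hmem'⟩
        exact absurd (hle g _ this) (not_le.mpr hq)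
      have e2 : ∀ q : ℚ, (q : ℝ) < -ev0 (-g) → -((q.den : ℤ) • g - q.num • u) ∉ Pos := by
        intro q hq hmem'
        have h3 : ((-q : ℚ) : ℝ) ∈ S (-g) := by
          refine ⟨-q.num, q.den, q.den_pos, ?_, ?_⟩
          · rw [Rat.cast_neg, Rat.cast_def]
            push_cast
            ring
          · have : (q.den : ℤ) • -g - -q.num • u = -((q.den : ℤ) • g - q.num • u) := by
              rw [zsmul_neg, neg_zsmul]
              abel
            rw [this]
            exact hmem'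
        have h4 := hle (-g) _ h3
        rw [Rat.cast_neg] at h4
        linarith
      have hqq : q < q' := by exact_mod_cast hq'1
      rw [Rat.lt_iff] at hqq
      -- use the reversed combination
      have g1 := e2 q' hq'2
      have g2 := e1 q hq1
      have g3 := a3 _ _ (b5' q.den _ g1) (b5' q'.den _ g2)
      have g4 : q.den • -((q'.den : ℤ) • g - q'.num • u) +
          q'.den • ((q.den : ℤ) • g - q.num • u) =
          (q.den * q'.num - q'.den * q.num : ℤ) • u := by
        rw [neg_nsmul, nsmul_sub, nsmul_sub, sub_zsmul, mul_zsmul, mul_zsmul]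
        rw [natCast_zsmul, natCast_zsmul, natCast_zsmul, natCast_zsmul, ← mul_nsmul',
          ← mul_nsmul', mul_comm q.den q'.den]
        abel
      rw [g4, b4] at g3
      apply g3
      nlinarith
    linarith
  have hadd : ∀ g h, ev0 (g + h) = ev0 g + ev0 h := by
    intro g h
    apply le_antisymm _ (hsup g h)
    have h1 := hsup (g + h) (-h)
    rw [add_neg_cancel_right, hneg] at h1
    linarith
  let ev : G →+ ℝ := AddMonoidHom.mk' ev0 hadd
  refine ⟨ev, ?_, ?_⟩
  · change ev0 u = 1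
    apply le_antisymm
    · apply csSup_le (hne u)
      rintro r ⟨m, n, hn, rfl, h1⟩
      have h2 : (n : ℤ) • u - m • u = ((n : ℤ) - m) • u := by
        rw [sub_zsmul, sub_eq_add_neg]
      rw [h2, b4] at h1
      have hn1 : (0 : ℝ) < n := by exact_mod_cast hn
      rw [div_le_one hn1]
      have : m < n := by omega
      exact_mod_cast this.le
    · by_contra hcon
      rw [not_le] at hcon
      obtain ⟨q, hq1, hq2⟩ := exists_rat_btwn hcon
      have hq3 : q < 1 := by exact_mod_cast hq2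
      have : (q : ℝ) ∈ S u := by
        refine ⟨q.num, q.den, q.den_pos, Rat.cast_def q, ?_⟩
        have h2 : (q.den : ℤ) • u - q.num • u = ((q.den : ℤ) - q.num) • u := by
          rw [sub_zsmul, sub_eq_add_neg]
        rw [h2, b4]
        have h5 := (Rat.lt_iff q 1).mp hq3
        simp only [Rat.den_ofNat, Nat.cast_one, mul_one, Rat.num_ofNat, one_mul] at h5
        omega
      exact absurd (hle u _ this) (not_le.mpr hq1)
  · intro g
    constructor
    · intro hg
      obtain ⟨r, hr, hlt⟩ := exists_lt_of_lt_csSup (hne g) (show (0 : ℝ) < sSup (S g) from hg)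
      obtain ⟨m, n, hn, rfl, h1⟩ := hr
      have hn1 : (0 : ℝ) < n := by exact_mod_cast hn
      have hm : 0 < m := by
        have := (div_pos_iff_of_pos_right hn1).mp hlt
        exact_mod_cast this
      apply b5 n
      have h2 := b2 _ _ h1 ((b4 m).mpr hm)
      rw [sub_add_cancel, natCast_zsmul] at h2
      exact h2
    · intro hg
      obtain ⟨n, hn⟩ := a6 g hg
      have hn0 : 0 < n := by
        rcases Nat.eq_zero_or_pos n with h | h
        · exfalso
          rw [h, zero_nsmul, zero_sub] at hn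
          exact a1 u a4 hn
        · exact h
      have hn1 : (0 : ℝ) < n := by exact_mod_cast hn0
      have : ((1 : ℤ) : ℝ) / n ∈ S g := by
        refine ⟨1, n, hn0, rfl, ?_⟩
        rw [natCast_zsmul, one_zsmul]
        exact hn
      have h3 := hle g _ this
      have h4 : (0 : ℝ) < ((1 : ℤ) : ℝ) / n := by
        rw [Int.cast_one]
        exact div_pos one_pos hn1
      exact lt_of_lt_of_le h4 h3

end Eval

section Disj

variable {G : Type} [AddCommGroup G] [Lattice G] [IsOrderedAddMonoid G]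

lemma disj1 {a b : G} (ha : 0 ≤ a) (h : a ⊓ b = 0) (n : ℕ) :
    ∀ x : G, x ≤ n • a → x ≤ b → x ≤ 0 := by
  induction n with
  | zero =>
    intro x h1 _
    rw [zero_nsmul] at h1
    exact h1
  | succ n ih =>
    intro x h1 h2
    rw [succ_nsmul] at h1
    have h3 := ih (x - a) (sub_le_iff_le_add.mpr h1) ((sub_le_self x ha).trans h2)
    rw [← h]
    exact le_inf (sub_nonpos.mp h3) h2

lemma disj2 {a b : G} (ha : 0 ≤ a) (hb : 0 ≤ b) (h : a ⊓ b = 0) (n m : ℕ) :
    ∀ x : G, x ≤ n • a → x ≤ m • b → x ≤ 0 := by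
  induction m with
  | zero =>
    intro x _ h1
    rw [zero_nsmul] at h1
    exact h1
  | succ m ih =>
    intro x h1 h2
    rw [succ_nsmul] at h2
    have h3 := ih (x - b) ((sub_le_self x hb).trans h1) (sub_le_iff_le_add.mpr h2)
    exact disj1 ha h n x h1 (sub_nonpos.mp h3)

end Disj

section Main

variable {T : Type} [LinearOrder T] {G : Type} [AddCommGroup G] [Lattice G]
  [IsOrderedAddMonoid G]

/-- Principal `ℓ`-ideals. -/
abbrev PI (G : Type) [AddCommGroup G] [Lattice G] : Type :=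
  {I : Set G // ∃ a : G, I = {x : G | ∃ n : ℕ, |x| ≤ n • |a|}}

/-- The principal ideal generated by an element. -/
def pr (a : G) : PI G := ⟨{x : G | ∃ n : ℕ, |x| ≤ n • |a|}, a, rfl⟩

lemma pr_le {a b : G} : pr a ≤ pr b ↔ ∃ n : ℕ, |a| ≤ n • |b| := by
  constructor
  · intro h
    have : a ∈ {x : G | ∃ n : ℕ, |x| ≤ n • |b|} := h ⟨1, by rw [one_nsmul]⟩
    exact this
  · rintro ⟨n, hn⟩ x ⟨m, hm⟩
    refine ⟨m * n, ?_⟩
    rw [mul_nsmul']
    exact hm.trans (nsmul_le_nsmul_right hn m)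

variable (φ : (OT T : Set (Set T)) ≃o PI G)

/-- The cozero set of an element. -/
def coz (a : G) : Set T := (φ.symm (pr a)).1

lemma coz_mem (a : G) : coz φ a ∈ OT T := (φ.symm (pr a)).2

lemma coz_sub {a b : G} : coz φ a ⊆ coz φ b ↔ ∃ n : ℕ, |a| ≤ n • |b| := by
  rw [← pr_le]
  exact φ.symm.le_iff_le

lemma coz_surj {U : Set T} (hU : U ∈ OT T) : ∃ a, coz φ a = U := by
  obtain ⟨a, ha⟩ := (φ ⟨U, hU⟩).2
  refine ⟨a, ?_⟩
  have h1 : pr a = φ ⟨U, hU⟩ := Subtype.ext ha.symm
  unfold coz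
  rw [h1, OrderIso.symm_apply_apply]

lemma coz_le {a b c : G} {n : ℕ} (h : |a| ≤ n • (|b| + |c|)) :
    coz φ a ⊆ coz φ b ∪ coz φ c := by
  obtain ⟨d, hd⟩ := coz_surj φ (union_mem (coz_mem φ b) (coz_mem φ c))
  rw [← hd]
  have h1 : coz φ b ⊆ coz φ d := by
    rw [hd]
    exact subset_union_left
  have h2 : coz φ c ⊆ coz φ d := by
    rw [hd]
    exact subset_union_right
  obtain ⟨n1, hn1⟩ := (coz_sub φ).mp h1
  obtain ⟨n2, hn2⟩ := (coz_sub φ).mp h2
  apply (coz_sub φ).mpr
  refine ⟨n * (n1 + n2), ?_⟩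
  rw [mul_nsmul', add_nsmul]
  exact h.trans (nsmul_le_nsmul_right (add_le_add hn1 hn2) n)

lemma coz_mono {a b : G} (h : |a| ≤ |b|) : coz φ a ⊆ coz φ b :=
  (coz_sub φ).mpr ⟨1, by rw [one_nsmul]; exact h⟩

lemma coz_zero : coz φ (0 : G) = ∅ := by
  obtain ⟨d, hd⟩ := coz_surj φ (empty_mem (T := T))
  have h1 : coz φ (0 : G) ⊆ coz φ d := (coz_sub φ).mpr ⟨1, by
    rw [abs_zero, one_nsmul]
    exact abs_nonneg d⟩
  rw [hd] at h1
  exact subset_empty_iff.mp h1

lemma coz_disj (g : G) : coz φ (g ⊔ 0) ∩ coz φ (-g ⊔ 0) = ∅ := by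
  obtain ⟨d, hd⟩ := coz_surj φ (inter_mem (coz_mem φ (g ⊔ 0)) (coz_mem φ (-g ⊔ 0)))
  rw [← hd]
  have h1 : coz φ d ⊆ coz φ (g ⊔ 0) := by
    rw [hd]
    exact inter_subset_left
  have h2 : coz φ d ⊆ coz φ (-g ⊔ 0) := by
    rw [hd]
    exact inter_subset_right
  obtain ⟨n, hn⟩ := (coz_sub φ).mp h1
  obtain ⟨m, hm⟩ := (coz_sub φ).mp h2
  rw [abs_of_nonneg (le_sup_right : (0 : G) ≤ g ⊔ 0)] at hn
  rw [abs_of_nonneg (le_sup_right : (0 : G) ≤ -g ⊔ 0)] at hm
  have h3 : (g ⊔ 0) ⊓ (-g ⊔ 0) = 0 := posPart_inf_negPart_eq_zero g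
  have h4 := disj2 le_sup_right le_sup_right h3 n m |d| hn hm
  have h5 : coz φ d ⊆ coz φ (0 : G) := coz_mono φ (by rw [abs_zero]; exact h4)
  rw [coz_zero] at h5
  exact subset_empty_iff.mp h5

lemma coz_split (g : G) : coz φ g = coz φ (g ⊔ 0) ∪ coz φ (-g ⊔ 0) := by
  have h0 : (g ⊔ 0) + (-g ⊔ 0) = |g| := posPart_add_negPart g
  have e1 : |g ⊔ 0| = g ⊔ 0 := abs_of_nonneg le_sup_right
  have e2 : |-g ⊔ 0| = -g ⊔ 0 := abs_of_nonneg le_sup_right
  apply Subset.antisymm
  · apply coz_le φ (n := 1)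
    rw [one_nsmul, e1, e2, h0]
  · apply union_subset
    · apply coz_mono
      rw [e1, ← h0]
      exact le_add_of_nonneg_right le_sup_right
    · apply coz_mono
      rw [e2, ← h0]
      exact le_add_of_nonneg_left le_sup_right

include φ in
theorem gam_of_iso : Nonempty (Gam T) := by
  obtain ⟨w0, hw0⟩ := coz_surj φ (univ_mem (T := T))
  let u : G := |w0|
  have hu0 : 0 ≤ u := abs_nonneg w0
  have hu : coz φ u = univ := by
    apply Subset.antisymm (subset_univ _)
    rw [← hw0]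
    apply coz_mono
    rw [abs_of_nonneg hu0]
  have hpabs : ∀ g : G, |g ⊔ 0| = g ⊔ 0 := fun g => abs_of_nonneg le_sup_right
  have hev : ∀ x : T, ∃ ev : G →+ ℝ, ev u = 1 ∧ ∀ g, 0 < ev g ↔ x ∈ coz φ (g ⊔ 0) := by
    intro x
    apply exists_ev (Pos := {g | x ∈ coz φ (g ⊔ 0)}) (u := u)
    · intro g hg hng
      have : x ∈ coz φ (g ⊔ 0) ∩ coz φ (-g ⊔ 0) := ⟨hg, hng⟩
      rw [coz_disj] at this
      exact this
    · intro g h hg hh hgh
      have h1 : |(g + h) ⊔ 0| ≤ 1 • (|g ⊔ 0| + |h ⊔ 0|) := by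
        rw [one_nsmul, hpabs, hpabs, hpabs]
        exact sup_le (add_le_add le_sup_left le_sup_left)
          (add_nonneg le_sup_right le_sup_right)
      rcases coz_le φ h1 hgh with h2 | h2
      · exact hg h2
      · exact hh h2
    · change x ∈ coz φ (u ⊔ 0)
      rw [sup_eq_left.mpr hu0, hu]
      exact mem_univ x
    · intro g
      have h1 : coz φ g ⊆ coz φ u := by
        rw [hu]
        exact subset_univ _
      obtain ⟨n, hn⟩ := (coz_sub φ).mp h1
      rw [abs_of_nonneg hu0] at hn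
      refine ⟨n + 1, ?_⟩
      change x ∈ coz φ (((n + 1) • u - g) ⊔ 0)
      have h2 : coz φ u ⊆ coz φ (((n + 1) • u - g) ⊔ 0) := by
        apply coz_mono
        rw [hpabs, abs_of_nonneg hu0]
        apply le_trans _ le_sup_left
        rw [succ_nsmul]
        have h3 : g ≤ n • u := (le_abs_self g).trans hn
        have h4 : 0 ≤ n • u - g := sub_nonneg.mpr h3
        calc u ≤ u + (n • u - g) := le_add_of_nonneg_right h4
          _ = n • u + u - g := by abel
      apply h2
      rw [hu]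
      exact mem_univ x
    · intro g hg
      have hxmem : (Iio x ∪ Ioi x : Set T) ∈ OT T := union_mem (Iio_mem x) (Ioi_mem x)
      obtain ⟨w, hw⟩ := coz_surj φ hxmem
      have hxw : x ∉ coz φ w := by
        rw [hw]
        rintro (h | h) <;> exact lt_irrefl x h
      obtain ⟨d, hd⟩ := coz_surj φ (union_mem (coz_mem φ (g ⊔ 0)) (coz_mem φ w))
      -- everything is dominated by `g⁺ + |w|`
      have h1 : coz φ u ⊆ coz φ ((g ⊔ 0) + |w|) := by
        have h2 : coz φ (g ⊔ 0) ⊆ coz φ ((g ⊔ 0) + |w|) := by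
          apply coz_mono
          rw [hpabs, abs_of_nonneg (add_nonneg le_sup_right (abs_nonneg w))]
          exact le_add_of_nonneg_right (abs_nonneg w)
        have h3 : coz φ w ⊆ coz φ ((g ⊔ 0) + |w|) := by
          apply coz_mono
          rw [abs_of_nonneg (add_nonneg le_sup_right (abs_nonneg w))]
          exact le_add_of_nonneg_left le_sup_right
        rw [hu]
        intro z _
        rcases lt_trichotomy z x with h4 | h4 | h4
        · apply h3
          rw [hw]
          exact Or.inl h4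
        · rw [h4]
          exact h2 hg
        · apply h3
          rw [hw]
          exact Or.inr h4
      obtain ⟨n, hn⟩ := (coz_sub φ).mp h1
      rw [abs_of_nonneg hu0, abs_of_nonneg (add_nonneg le_sup_right (abs_nonneg w))] at hn
      refine ⟨n + 1, ?_⟩
      change x ∈ coz φ (((n + 1) • g - u) ⊔ 0)
      have hdec : (g ⊔ 0) - (-g ⊔ 0) = g := posPart_sub_negPart g
      have hineq : g ⊔ 0 ≤ (((n + 1) • g - u) ⊔ 0) + ((n + 1) • (-g ⊔ 0) + n • |w|) := by
        have h5 : (n + 1) • g = (n + 1) • (g ⊔ 0) - (n + 1) • (-g ⊔ 0) := by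
          rw [← nsmul_sub, hdec]
        have h6 : (n + 1) • g - u ≤ ((n + 1) • g - u) ⊔ 0 := le_sup_left
        rw [nsmul_add] at hn
        have h7 : (g ⊔ 0) ≤ ((n + 1) • g - u) + ((n + 1) • (-g ⊔ 0) + n • |w|) := by
          rw [h5]
          have h8 : 0 ≤ n • (g ⊔ 0) + n • |w| - u := sub_nonneg.mpr hn
          calc (g ⊔ 0) ≤ (g ⊔ 0) + (n • (g ⊔ 0) + n • |w| - u) := le_add_of_nonneg_right h8
            _ = (n + 1) • (g ⊔ 0) - (n + 1) • (-g ⊔ 0) - u +
                ((n + 1) • (-g ⊔ 0) + n • |w|) := by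
              rw [add_nsmul, one_nsmul]
              abel
        exact h7.trans (add_le_add_left h6 _)
      have hneg0 : (0 : G) ≤ -g ⊔ 0 := le_sup_right
      have hA : coz φ (g ⊔ 0) ⊆ coz φ (((n + 1) • g - u) ⊔ 0) ∪
          coz φ ((n + 1) • (-g ⊔ 0) + n • |w|) := by
        apply coz_le φ (n := 1)
        rw [one_nsmul, hpabs, hpabs, abs_of_nonneg (add_nonneg (nsmul_nonneg hneg0 _)
          (nsmul_nonneg (abs_nonneg w) _))]
        exact hineq
      have hB : coz φ ((n + 1) • (-g ⊔ 0) + n • |w|) ⊆ coz φ (-g ⊔ 0) ∪ coz φ w := by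
        apply coz_le φ (n := n + 1)
        rw [abs_of_nonneg (add_nonneg (nsmul_nonneg hneg0 _)
          (nsmul_nonneg (abs_nonneg w) _)), hpabs, nsmul_add]
        apply add_le_add le_rfl
        rw [succ_nsmul]
        exact le_add_of_nonneg_right (abs_nonneg w)
      have hxneg : x ∉ coz φ (-g ⊔ 0) := by
        intro hxn
        have : x ∈ coz φ (g ⊔ 0) ∩ coz φ (-g ⊔ 0) := ⟨hg, hxn⟩
        rw [coz_disj] at this
        exact this
      rcases hA hg with h5 | h5
      · exact h5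
      · rcases hB h5 with h6 | h6
        · exact absurd h6 hxneg
        · exact absurd h6 hxw
  choose ev hev1 hev2 using hev
  let Φ : G →+ (T → ℝ) :=
    { toFun := fun g x => ev x g
      map_zero' := by
        funext x
        exact (ev x).map_zero
      map_add' := by
        intro a b
        funext x
        exact (ev x).map_add a b }
  refine ⟨⟨Φ.range, ?_, ?_, ?_⟩⟩
  · refine ⟨u, ?_⟩
    funext x
    exact hev1 x
  · rintro _ ⟨g, rfl⟩
    have : {x | 0 < (Φ g) x} = coz φ (g ⊔ 0) := by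
      ext x
      exact hev2 x g
    rw [this]
    exact coz_mem φ _
  · intro s t hst
    have htmem : (Iio t ∪ Ioi t : Set T) ∈ OT T := union_mem (Iio_mem t) (Ioi_mem t)
    obtain ⟨w, hw⟩ := coz_surj φ htmem
    refine ⟨Φ w, ⟨w, rfl⟩, ?_⟩
    have h1 : ¬ (0 < ev t w) := by
      rw [hev2]
      intro h
      have : t ∈ coz φ w := by
        rw [coz_split]
        exact Or.inl h
      rw [hw] at this
      rcases this with h | h <;> exact lt_irrefl t h
    have h2 : ¬ (0 < ev t (-w)) := by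
      rw [hev2]
      intro h
      have : t ∈ coz φ w := by
        rw [coz_split]
        exact Or.inr h
      rw [hw] at this
      rcases this with h | h <;> exact lt_irrefl t h
    have h3 : ev t w = 0 := by
      rw [map_neg] at h2
      linarith
    have hs : s ∈ coz φ w := by
      rw [hw]
      rcases lt_or_gt_of_ne hst with h | h
      · exact Or.inl h
      · exact Or.inr h
    rw [coz_split] at hs
    change ev s w ≠ ev t w
    rw [h3]
    rcases hs with h | h
    · exact ((hev2 s w).mpr h).ne'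
    · have := (hev2 s (-w)).mpr h
      rw [map_neg] at this
      intro h0
      rw [h0] at this
      simp at this

end Main

end Pool.Agent.V116.ChainEval
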