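import Mathlib
import Pool.Agent.V116.ChainGamma
import Pool.Agent.V116.ChainCBD

/-!
A tree-like chain: lexicographically ordered transfinite sequences in a chain `C`, with the
distinguished element `d` of `C` marking the end of a sequence.
-/

namespace Pool.Agent.V116.ChainTree

open Set Pool.Agent.V116.ChainGamma Pool.Agent.V116.ChainCBD

/-- Sequences indexed by `K` which take the value `d` exactly on a nonempty upper set. -/
structure TT (K C : Type) [LinearOrder K] (d : C) : Type where
  f : K → C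
  ex : ∃ β, f β = d
  up : ∀ α β, α ≤ β → f α = d → f β = d

variable {K C : Type} [LinearOrder K] [WellFoundedLT K] [LinearOrder C] {d : C}

lemma TT.f_injective : Function.Injective (fun t : TT K C d => t.f) := by
  intro s t h
  cases s
  cases t
  simp only at h
  subst h
  rfl

noncomputable instance : LinearOrder (TT K C d) :=
  LinearOrder.lift' (fun t : TT K C d => (toLex t.f : Lex (K → C)))
    (fun _ _ h => TT.f_injective h)

lemma lt_iff {s t : TT K C d} : s < t ↔ ∃ i, (∀ j, j < i → s.f j = t.f j) ∧ s.f i < t.f i :=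
  Iff.rfl

/-- The length of a sequence. -/
noncomputable def len (t : TT K C d) : K := (wellFounded_lt (α := K)).min {β | t.f β = d} t.ex

lemma len_spec (t : TT K C d) : t.f (len t) = d :=
  (wellFounded_lt (α := K)).min_mem {β | t.f β = d} t.ex

lemma lt_len {t : TT K C d} {α : K} (h : α < len t) : t.f α ≠ d := by
  intro h'
  exact (wellFounded_lt (α := K)).not_lt_min {β | t.f β = d} h' h

lemma ge_len {t : TT K C d} {α : K} (h : len t ≤ α) : t.f α = d := t.up _ _ h (len_spec t)

lemma len_eq {t : TT K C d} {β : K} (h1 : t.f β = d) (h2 : ∀ α, α < β → t.f α ≠ d) :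
    len t = β := by
  rcases lt_trichotomy (len t) β with h | h | h
  · exact absurd (len_spec t) (h2 _ h)
  · exact h
  · exact absurd h1 (lt_len h)

/-- The sequence of length `β` with entries `f`. -/
noncomputable def mk' (f : K → C) (β : K) (hf : ∀ α, α < β → f α ≠ d) : TT K C d where
  f := fun α => if α < β then f α else d
  ex := ⟨β, if_neg (lt_irrefl β)⟩
  up := by
    intro α γ h1 h2
    by_cases h3 : α < β
    · rw [if_pos h3] at h2
      exact absurd h2 (hf α h3)
    · exact if_neg (fun h4 => h3 (lt_of_le_of_lt h1 h4))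

lemma mk'_f {f : K → C} {β : K} {hf : ∀ α, α < β → f α ≠ d} {α : K} (h : α < β) :
    (mk' f β hf).f α = f α := if_pos h

lemma mk'_len {f : K → C} {β : K} {hf : ∀ α, α < β → f α ≠ d} : len (mk' f β hf) = β := by
  apply len_eq
  · exact if_neg (lt_irrefl β)
  · intro α h
    rw [mk'_f h]
    exact hf α h

/-- The cone of all sequences extending `t`. -/
def cone (t : TT K C d) : Set (TT K C d) := {s | ∀ α, α < len t → s.f α = t.f α}

lemma self_mem (t : TT K C d) : t ∈ cone t := fun _ _ => rfl

lemma cone_len {s t : TT K C d} (h : s ∈ cone t) : len t ≤ len s := by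
  by_contra hlt
  rw [not_le] at hlt
  have h1 := h _ hlt
  rw [len_spec] at h1
  exact lt_len hlt h1.symm

lemma cone_ne {s t : TT K C d} (h : s ∈ cone t) (hne : s ≠ t) : s.f (len t) ≠ d := by
  intro h1
  apply hne
  apply TT.f_injective
  funext α
  change s.f α = t.f α
  rcases lt_or_ge α (len t) with h2 | h2
  · exact h α h2
  · rw [ge_len h2]
    exact s.up _ _ h2 h1

lemma cone_lt {s s' t : TT K C d} (h : s ∈ cone t) (h' : s' ∈ cone t)
    (hlt : s.f (len t) < s'.f (len t)) : s < s' :=
  lt_iff.mpr ⟨len t, fun j hj => (h j hj).trans (h' j hj).symm, hlt⟩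

lemma cone_le {s s' t : TT K C d} (h : s ∈ cone t) (h' : s' ∈ cone t)
    (hlt : s < s') : s.f (len t) ≤ s'.f (len t) := by
  by_contra hcon
  rw [not_le] at hcon
  exact absurd (cone_lt h' h hcon) (not_lt.mpr hlt.le)

/-- First difference. -/
lemma first_diff {x t : TT K C d} (h : x ∉ cone t) :
    ∃ α, α < len t ∧ x.f α ≠ t.f α ∧ ∀ j, j < α → x.f j = t.f j := by
  have hne : {α | α < len t ∧ x.f α ≠ t.f α}.Nonempty := by
    by_contra hcon
    rw [not_nonempty_iff_eq_empty] at hcon
    apply h
    intro α hα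
    by_contra h1
    have : α ∈ {α | α < len t ∧ x.f α ≠ t.f α} := ⟨hα, h1⟩
    rw [hcon] at this
    exact this
  have h1 := (wellFounded_lt (α := K)).min_mem _ hne
  refine ⟨_, h1.1, h1.2, ?_⟩
  intro j hj
  by_contra h2
  exact (wellFounded_lt (α := K)).not_lt_min _
    (show j ∈ {α | α < len t ∧ x.f α ≠ t.f α} from ⟨hj.trans h1.1, h2⟩) hj

lemma cone_out {x t : TT K C d} (h : x ∉ cone t) :
    (∀ s ∈ cone t, x < s) ∨ (∀ s ∈ cone t, s < x) := by
  obtain ⟨α, h1, h2, h3⟩ := first_diff h
  rcases lt_or_gt_of_ne h2 with h4 | h4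
  · left
    intro s hs
    refine lt_iff.mpr ⟨α, fun j hj => (h3 j hj).trans (hs j (hj.trans h1)).symm, ?_⟩
    rw [hs α h1]
    exact h4
  · right
    intro s hs
    refine lt_iff.mpr ⟨α, fun j hj => (hs j (hj.trans h1)).trans (h3 j hj).symm, ?_⟩
    rw [hs α h1]
    exact h4

lemma cone_conn (t : TT K C d) : (cone t).OrdConnected := by
  constructor
  rintro a ha b hb x ⟨h1, h2⟩
  by_contra hx
  rcases cone_out hx with h | h
  · exact absurd (h a ha) (not_lt.mpr h1)
  · exact absurd (h b hb) (not_lt.mpr h2)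

section Child

variable [SuccOrder K] [NoMaxOrder K]

/-- The child node. -/
noncomputable def child (t : TT K C d) (c : C) (hc : c ≠ d) : TT K C d :=
  mk' (fun α => if α < len t then t.f α else c) (Order.succ (len t)) (by
    intro α _
    by_cases h : α < len t
    · rw [if_pos h]
      exact lt_len h
    · rw [if_neg h]
      exact hc)

lemma child_len (t : TT K C d) (c : C) (hc : c ≠ d) : len (child t c hc) = Order.succ (len t) :=
  mk'_len

lemma child_at (t : TT K C d) (c : C) (hc : c ≠ d) : (child t c hc).f (len t) = c := by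
  unfold child
  rw [mk'_f (Order.lt_succ _), if_neg (lt_irrefl _)]

lemma child_mem (t : TT K C d) (c : C) (hc : c ≠ d) : child t c hc ∈ cone t := by
  intro α hα
  unfold child
  rw [mk'_f (hα.trans (Order.lt_succ _)), if_pos hα]

lemma mem_child {t s : TT K C d} {c : C} {hc : c ≠ d} :
    s ∈ cone (child t c hc) ↔ s ∈ cone t ∧ s.f (len t) = c := by
  constructor
  · intro h
    refine ⟨?_, ?_⟩
    · intro α hα
      rw [h α (by rw [child_len]; exact hα.trans (Order.lt_succ _))]
      exact child_mem t c hc α hα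
    · rw [h (len t) (by rw [child_len]; exact Order.lt_succ _)]
      exact child_at t c hc
  · rintro ⟨h1, h2⟩ α hα
    rw [child_len, Order.lt_succ_iff] at hα
    rcases hα.eq_or_lt with h3 | h3
    · rw [h3, h2, child_at]
    · rw [h1 α h3]
      exact (child_mem t c hc α h3).symm

end Child

/-- Conditions on the chain `C` with its distinguished point `d`. -/
structure CCond (C : Type) [LinearOrder C] (d : C) : Prop where
  left : ∃ l : ℕ → C, (∀ n, l n < d) ∧ ∀ c, c < d → ∃ n, c < l n
  right : ∃ l : ℕ → C, (∀ n, d < l n) ∧ ∀ c, d < c → ∃ n, l n < c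
  ub : ∀ f : ℕ → C, ∃ c, ∀ n, f n < c
  lb : ∀ f : ℕ → C, ∃ c, ∀ n, c < f n
  cut : ∀ A : Set C, (∀ a ∈ A, ∀ x, x ≤ a → x ∈ A) → A.Nonempty → Aᶜ.Nonempty →
    (∃ a ∈ A, ∀ x ∈ A, x ≤ a) ∨ (∃ b, b ∉ A ∧ ∀ x, x ∉ A → b ≤ x)

variable [SuccOrder K] [NoMaxOrder K]

lemma lchar (hC : CCond C d) : LChar (TT K C d) := by
  obtain ⟨l, hl1, hl2⟩ := hC.left
  intro t
  refine ⟨fun n => child t (l n) (hl1 n).ne, ?_, ?_⟩
  · intro n
    apply cone_lt (child_mem _ _ _) (self_mem t)
    rw [child_at, len_spec]
    exact hl1 n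
  · intro s hs
    by_cases hst : s ∈ cone t
    · have h1 := cone_le hst (self_mem t) hs
      rw [len_spec] at h1
      have h2 : s.f (len t) < d := lt_of_le_of_ne h1 (cone_ne hst hs.ne)
      obtain ⟨n, hn⟩ := hl2 _ h2
      refine ⟨n, cone_lt hst (child_mem _ _ _) ?_⟩
      rw [child_at]
      exact hn
    · rcases cone_out hst with h | h
      · exact ⟨0, h _ (child_mem _ _ _)⟩
      · exact absurd (h t (self_mem t)) (not_lt.mpr hs.le)

lemma rchar (hC : CCond C d) : RChar (TT K C d) := by
  obtain ⟨l, hl1, hl2⟩ := hC.right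
  intro t
  refine ⟨fun n => child t (l n) (hl1 n).ne', ?_, ?_⟩
  · intro n
    apply cone_lt (self_mem t) (child_mem _ _ _)
    rw [child_at, len_spec]
    exact hl1 n
  · intro s hs
    by_cases hst : s ∈ cone t
    · have h1 := cone_le (self_mem t) hst hs
      rw [len_spec] at h1
      have h2 : d < s.f (len t) := lt_of_le_of_ne h1 (cone_ne hst hs.ne').symm
      obtain ⟨n, hn⟩ := hl2 _ h2
      refine ⟨n, cone_lt (child_mem _ _ _) hst ?_⟩
      rw [child_at]
      exact hn
    · rcases cone_out hst with h | h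
      · exact absurd (h t (self_mem t)) (not_lt.mpr hs.le)
      · exact ⟨0, h _ (child_mem _ _ _)⟩

lemma noMin (hC : CCond C d) : NoMinOrder (TT K C d) :=
  ⟨fun t => by
    obtain ⟨a, ha, _⟩ := lchar hC t
    exact ⟨a 0, ha 0⟩⟩

lemma noMax (hC : CCond C d) : NoMaxOrder (TT K C d) :=
  ⟨fun t => by
    obtain ⟨a, ha, _⟩ := rchar hC t
    exact ⟨a 0, ha 0⟩⟩

lemma dense (hC : CCond C d) : DenselyOrdered (TT K C d) :=
  ⟨fun s t hst => by
    obtain ⟨a, ha1, ha2⟩ := lchar hC t
    obtain ⟨n, hn⟩ := ha2 s hst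
    exact ⟨a n, hn, ha1 n⟩⟩

lemma nonempty (hC : CCond C d) [Nonempty K] : Nonempty (TT K C d) := by
  obtain ⟨l, hl1, _⟩ := hC.left
  exact ⟨mk' (fun _ => l 0) (Classical.arbitrary K) (fun _ _ => (hl1 0).ne)⟩

/-- The meet of two sequences. -/
noncomputable def meet (r r' : TT K C d) : K → C :=
  open Classical in fun α => if ∀ β, β ≤ α → r.f β = r'.f β then r.f α else d

lemma ctbl (hC : CCond C d) : CtblClosure (TT K C d) := by
  intro E hE
  have hsub : {t | ∀ a b, a < t → t < b → ∃ r ∈ E, a < r ∧ r < b ∧ r ≠ t} ⊆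
      (fun t : TT K C d => t.f) ⁻¹' (image2 meet E E) := by
    intro t ht
    obtain ⟨l, hl1, hl2⟩ := hC.left
    obtain ⟨u, hu1, hu2⟩ := hC.right
    have nb : ∀ c c' : C, ∀ (h : c < d) (h' : d < c'),
        ∃ r ∈ E, r ∈ cone t ∧ r ≠ t ∧ c ≤ r.f (len t) ∧ r.f (len t) ≤ c' := by
      intro c c' h h'
      obtain ⟨r, hr, h1, h2, h3⟩ := ht (child t c h.ne) (child t c' h'.ne')
        (cone_lt (child_mem _ _ _) (self_mem t) (by rw [child_at, len_spec]; exact h))
        (cone_lt (self_mem t) (child_mem _ _ _) (by rw [child_at, len_spec]; exact h'))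
      have hrt : r ∈ cone t :=
        (cone_conn t).out (child_mem _ _ _) (child_mem _ _ _) ⟨h1.le, h2.le⟩
      refine ⟨r, hr, hrt, h3, ?_, ?_⟩
      · have := cone_le (child_mem _ _ _) hrt h1
        rw [child_at] at this
        exact this
      · have := cone_le hrt (child_mem _ _ _) h2
        rw [child_at] at this
        exact this
    obtain ⟨r, hr, hrt, hrne, _, _⟩ := nb (l 0) (u 0) (hl1 0) (hu1 0)
    have hc := cone_ne hrt hrne
    have hex : ∃ r' ∈ E, r' ∈ cone t ∧ r.f (len t) ≠ r'.f (len t) := by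
      rcases lt_or_gt_of_ne hc with h | h
      · obtain ⟨n, hn⟩ := hl2 _ h
        obtain ⟨r', hr', hrt', _, h1, _⟩ := nb (l n) (u 0) (hl1 n) (hu1 0)
        exact ⟨r', hr', hrt', (lt_of_lt_of_le hn h1).ne⟩
      · obtain ⟨n, hn⟩ := hu2 _ h
        obtain ⟨r', hr', hrt', _, _, h1⟩ := nb (l 0) (u n) (hl1 0) (hu1 n)
        exact ⟨r', hr', hrt', (lt_of_le_of_lt h1 hn).ne'⟩
    obtain ⟨r', hr', hrt', hne⟩ := hex
    refine ⟨r, hr, r', hr', ?_⟩
    funext α
    change meet r r' α = t.f α
    unfold meet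
    rcases lt_or_ge α (len t) with h | h
    · rw [if_pos, hrt α h]
      intro β hβ
      rw [hrt β (lt_of_le_of_lt hβ h), hrt' β (lt_of_le_of_lt hβ h)]
    · rw [if_neg, ge_len h]
      intro hall
      exact hne (hall _ h)
  exact ((hE.image2 hE _).preimage TT.f_injective).mono hsub

lemma u1 (hC : CCond C d) {A : Set (TT K C d)} {q : TT K C d} (hq : cone q ⊆ A)
    (hfin : ∀ a ∈ A, ∃ s ∈ cone q, a ≤ s) :
    ∀ a : ℕ → TT K C d, (∀ n, a n ∈ A) → ∃ a' ∈ A, ∀ n, a n ≤ a' := by
  intro a ha
  choose s hs1 hs2 using fun n => hfin (a n) (ha n)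
  obtain ⟨c, hc⟩ := hC.ub (fun n => max ((s n).f (len q)) d)
  have hcd : d < c := lt_of_le_of_lt (le_max_right _ _) (hc 0)
  refine ⟨child q c hcd.ne', hq (child_mem _ _ _), ?_⟩
  intro n
  refine (hs2 n).trans (cone_lt (hs1 n) (child_mem _ _ _) ?_).le
  rw [child_at]
  exact lt_of_le_of_lt (le_max_left _ _) (hc n)

lemma u2 (hC : CCond C d) {A : Set (TT K C d)} {q : TT K C d} (hq : ∀ s ∈ cone q, s ∉ A)
    (hfin : ∀ a, a ∉ A → ∃ s ∈ cone q, s ≤ a) :
    ∀ a : ℕ → TT K C d, (∀ n, a n ∉ A) → ∃ a', a' ∉ A ∧ ∀ n, a' ≤ a n := by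
  intro a ha
  choose s hs1 hs2 using fun n => hfin (a n) (ha n)
  obtain ⟨c, hc⟩ := hC.lb (fun n => min ((s n).f (len q)) d)
  have hcd : c < d := lt_of_lt_of_le (hc 0) (min_le_right _ _)
  refine ⟨child q c hcd.ne, hq _ (child_mem _ _ _), ?_⟩
  intro n
  refine le_trans (cone_lt (child_mem _ _ _) (hs1 n) ?_).le (hs2 n)
  rw [child_at]
  exact lt_of_lt_of_le (hc n) (min_le_left _ _)

lemma gap (hC : CCond C d) (hK : ∀ f : ℕ → K, ∃ β, ∀ n, f n < β) : GapCond (TT K C d) := by
  classical
  intro A hlow hne hnec hnomax hnomin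
  have hAB : ∀ a ∈ A, ∀ b, b ∉ A → a < b := by
    intro a ha b hb
    by_contra hlt
    rw [not_lt] at hlt
    rcases hlt.eq_or_lt with h3 | h3
    · exact hb (h3 ▸ ha)
    · exact hb (hlow a ha b h3)
  let P : TT K C d → Prop := fun t => (∃ s ∈ cone t, s ∈ A) ∧ (∃ s ∈ cone t, s ∉ A)
  have hPle : ∀ t t', P t → P t' → ∀ α, α < len t → α < len t' →
      (∀ j, j < α → t.f j = t'.f j) → ¬ (t.f α < t'.f α) := by
    intro t t' ht ht' α h1 h2 h3 h4
    obtain ⟨_, s, hs, hsA⟩ := ht
    obtain ⟨⟨s', hs', hsA'⟩, _⟩ := ht'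
    have : s < s' := by
      refine lt_iff.mpr ⟨α, ?_, ?_⟩
      · intro j hj
        rw [hs j (hj.trans h1), hs' j (hj.trans h2)]
        exact h3 j hj
      · rw [hs α h1, hs' α h2]
        exact h4
    exact hsA (hlow s' hsA' s this)
  have hPext : ∀ t t', P t → P t' → ∀ α, α < len t → α < len t' → t.f α = t'.f α := by
    intro t t' ht ht' α
    induction α using (wellFounded_lt (α := K)).induction with
    | _ α ih =>
      intro h1 h2
      have h3 : ∀ j, j < α → t.f j = t'.f j := fun j hj => ih j hj (hj.trans h1) (hj.trans h2)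
      apply le_antisymm
      · exact not_lt.mp (hPle t' t ht' ht α h2 h1 (fun j hj => (h3 j hj).symm))
      · exact not_lt.mp (hPle t t' ht ht' α h1 h2 h3)
  by_cases hL : ∀ β, ∃ t, P t ∧ β ≤ len t
  · left
    intro a ha
    obtain ⟨β, hβ⟩ := hK (fun n => len (a n))
    obtain ⟨t, ⟨⟨s, hs, hsA⟩, ⟨b, hb, hbA⟩⟩, hlen⟩ := hL β
    refine ⟨s, hsA, ?_⟩
    intro n
    have hnot : a n ∉ cone t := by
      intro h
      exact absurd (hlen.trans (cone_len h)) (not_le.mpr (hβ n))
    rcases cone_out hnot with h | h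
    · exact (h s hs).le
    · exact absurd (hlow _ (ha n) b (h b hb)) hbA
  · push Not at hL
    have hSne : {β | ∀ t, P t → len t < β}.Nonempty := hL
    let βs := (wellFounded_lt (α := K)).min _ hSne
    have hβs : ∀ t, P t → len t < βs := (wellFounded_lt (α := K)).min_mem _ hSne
    have hβs2 : ∀ α, α < βs → ∃ t, P t ∧ α ≤ len t := by
      intro α hα
      have := (wellFounded_lt (α := K)).not_lt_min {β | ∀ t, P t → len t < β} (x := α)
      by_contra hcon
      push Not at hcon
      exact this hcon hα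
    obtain ⟨l, hl1, _⟩ := hC.left
    by_cases hmax : ∃ t, P t ∧ ∀ t', P t' → len t' ≤ len t
    · obtain ⟨t, ht, htmax⟩ := hmax
      have hchild : ∀ c (hc : c ≠ d), ¬ P (child t c hc) := by
        intro c hc hP
        have := htmax _ hP
        rw [child_len] at this
        exact absurd this (not_le.mpr (Order.lt_succ _))
      have KL : ∀ s ∈ cone t, s ∈ A → ∀ b ∈ cone t, b ∉ A → s.f (len t) < b.f (len t) := by
        intro s hs hsA b hb hbA
        refine lt_of_le_of_ne (cone_le hs hb (hAB s hsA b hbA)) ?_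
        intro heq
        by_cases hd : s.f (len t) = d
        · have e1 : s = t := by
            by_contra hne'
            exact cone_ne hs hne' hd
          have e2 : b = t := by
            by_contra hne'
            exact cone_ne hb hne' (heq ▸ hd)
          rw [e1] at hsA
          rw [e2] at hbA
          exact hbA hsA
        · exact hchild _ hd ⟨⟨s, mem_child.mpr ⟨hs, rfl⟩, hsA⟩,
            ⟨b, mem_child.mpr ⟨hb, heq.symm⟩, hbA⟩⟩
      obtain ⟨⟨sA, hsAc, hsAA⟩, ⟨sB, hsBc, hsBA⟩⟩ := ht
      have hAout : ∀ a ∈ A, a ∉ cone t → ∀ s ∈ cone t, a < s := by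
        intro a ha hat
        rcases cone_out hat with h | h
        · exact h
        · exact absurd (hlow a ha _ (h sB hsBc)) hsBA
      have hBout : ∀ b, b ∉ A → b ∉ cone t → ∀ s ∈ cone t, s < b := by
        intro b hb hbt
        rcases cone_out hbt with h | h
        · exact absurd (hlow sA hsAA b (h sA hsAc)) hb
        · exact h
      rcases hC.cut {c | ∃ s ∈ cone t, s ∈ A ∧ c ≤ s.f (len t)}
          (by
            rintro c ⟨s, h1, h2, h3⟩ x hx
            exact ⟨s, h1, h2, hx.trans h3⟩)
          ⟨sA.f (len t), sA, hsAc, hsAA, le_rfl⟩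
          ⟨sB.f (len t), by
            rintro ⟨s, h1, h2, h3⟩
            exact absurd (KL s h1 h2 sB hsBc hsBA) (not_lt.mpr h3)⟩ with
        ⟨c0, ⟨s0, h1, h2, h3⟩, hc0⟩ | ⟨c0, h1, hc0⟩
      · have hs0 : s0.f (len t) = c0 := le_antisymm (hc0 _ ⟨s0, h1, h2, le_rfl⟩) h3
        by_cases hcd : c0 = d
        · exfalso
          have hst : s0 = t := by
            by_contra hne'
            exact cone_ne h1 hne' (hs0.trans hcd)
          rw [hst] at h2
          obtain ⟨a', ha', hlt⟩ := hnomax t h2
          have hat : a' ∈ cone t := by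
            by_contra hcon
            exact absurd (hAout a' ha' hcon t (self_mem t)) (not_lt.mpr hlt.le)
          have h4 := cone_le (self_mem t) hat hlt
          rw [len_spec] at h4
          have h5 := hc0 _ ⟨a', hat, ha', le_rfl⟩
          rw [hcd] at h5
          exact cone_ne hat hlt.ne' (le_antisymm h5 h4)
        · left
          have hq : cone (child t c0 hcd) ⊆ A := by
            intro s hs
            by_contra hsA
            exact hchild c0 hcd ⟨⟨s0, mem_child.mpr ⟨h1, hs0⟩, h2⟩, ⟨s, hs, hsA⟩⟩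
          apply u1 hC hq
          intro a ha
          by_cases hat : a ∈ cone t
          · have h4 := hc0 _ ⟨a, hat, ha, le_rfl⟩
            rcases h4.eq_or_lt with h5 | h5
            · exact ⟨a, mem_child.mpr ⟨hat, h5⟩, le_rfl⟩
            · refine ⟨s0, mem_child.mpr ⟨h1, hs0⟩, (cone_lt hat h1 ?_).le⟩
              rw [hs0]
              exact h5
          · exact ⟨s0, mem_child.mpr ⟨h1, hs0⟩, (hAout a ha hat s0 h1).le⟩
      · have hBmem : ∀ b ∈ cone t, b ∉ A → c0 ≤ b.f (len t) := by
          intro b hb hbA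
          apply hc0
          rintro ⟨s, h4, h5, h6⟩
          exact absurd (KL s h4 h5 b hb hbA) (not_lt.mpr h6)
        by_cases hcd : c0 = d
        · exfalso
          have htA : t ∉ A := by
            intro htA
            apply h1
            exact ⟨t, self_mem t, htA, by rw [len_spec, hcd]⟩
          obtain ⟨b', hb', hlt⟩ := hnomin t htA
          have hbt : b' ∈ cone t := by
            by_contra hcon
            exact absurd (hBout b' hb' hcon t (self_mem t)) (not_lt.mpr hlt.le)
          have h4 := cone_le hbt (self_mem t) hlt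
          rw [len_spec] at h4
          have h5 := hBmem b' hbt hb'
          rw [hcd] at h5
          exact cone_ne hbt hlt.ne (le_antisymm h4 h5)
        · right
          have hq : ∀ s ∈ cone (child t c0 hcd), s ∉ A := by
            intro s hs hsA
            have h4 := mem_child.mp hs
            exact h1 ⟨s, h4.1, hsA, h4.2.ge⟩
          apply u2 hC hq
          intro b hb
          by_cases hbt : b ∈ cone t
          · have h4 := hBmem b hbt hb
            rcases h4.eq_or_lt with h5 | h5
            · exact ⟨b, mem_child.mpr ⟨hbt, h5.symm⟩, le_rfl⟩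
            · refine ⟨child t c0 hcd, self_mem _, (cone_lt (child_mem _ _ _) hbt ?_).le⟩
              rw [child_at]
              exact h5
          · exact ⟨child t c0 hcd, self_mem _, (hBout b hb hbt _ (child_mem _ _ _)).le⟩
    · push Not at hmax
      let x : K → C := fun α => if h : ∃ t, P t ∧ α < len t then h.choose.f α else l 0
      have hx : ∀ t, P t → ∀ α, α < len t → x α = t.f α := by
        intro t ht α hα
        have h : ∃ t, P t ∧ α < len t := ⟨t, ht, hα⟩
        simp only [x]
        rw [dif_pos h]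
        exact hPext _ _ h.choose_spec.1 ht α h.choose_spec.2 hα
      have hex : ∀ α, α < βs → ∃ t, P t ∧ α < len t := by
        intro α hα
        obtain ⟨t, ht, h1⟩ := hβs2 α hα
        obtain ⟨t', ht', h2⟩ := hmax t ht
        exact ⟨t', ht', lt_of_le_of_lt h1 h2⟩
      have hxd : ∀ α, α < βs → x α ≠ d := by
        intro α hα
        obtain ⟨t, ht, h1⟩ := hex α hα
        rw [hx t ht α h1]
        exact lt_len h1
      let q : TT K C d := mk' x βs hxd
      have hqlen : len q = βs := mk'_len
      have hqP : ¬ P q := by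
        intro h
        have := hβs q h
        rw [hqlen] at this
        exact lt_irrefl _ this
      have hqt : ∀ t, P t → cone q ⊆ cone t := by
        intro t ht s hs α hα
        have h1 := hα.trans (hβs t ht)
        rw [hs α (by rw [hqlen]; exact h1)]
        change (mk' x βs hxd).f α = t.f α
        rw [mk'_f h1]
        exact hx t ht α hα
      have hnotin : ∀ a, a ∉ cone q → ∃ t, P t ∧ a ∉ cone t := by
        intro a ha
        by_contra hcon
        push Not at hcon
        apply ha
        intro α hα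
        rw [hqlen] at hα
        obtain ⟨t, ht, h1⟩ := hex α hα
        rw [hcon t ht α h1]
        change t.f α = (mk' x βs hxd).f α
        rw [mk'_f hα]
        exact (hx t ht α h1).symm
      by_cases hqA : q ∈ A
      · left
        have hq : cone q ⊆ A := by
          intro s hs
          by_contra hsA
          exact hqP ⟨⟨q, self_mem q, hqA⟩, ⟨s, hs, hsA⟩⟩
        apply u1 hC hq
        intro a ha
        by_cases haq : a ∈ cone q
        · exact ⟨a, haq, le_rfl⟩
        · refine ⟨q, self_mem q, ?_⟩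
          obtain ⟨t, ⟨_, ⟨b, hb, hbA⟩⟩, hat⟩ := hnotin a haq
          have htP : P t := by
            obtain ⟨t', ht', hat'⟩ := hnotin a haq
            refine ⟨⟨q, ?_, hqA⟩, ⟨b, hb, hbA⟩⟩
            rename_i h0
            exact hqt t ⟨h0, ⟨b, hb, hbA⟩⟩ (self_mem q)
          rcases cone_out hat with h | h
          · exact (h q (hqt t htP (self_mem q))).le
          · exact absurd (hlow a ha b (h b hb)) hbA
      · right
        have hq : ∀ s ∈ cone q, s ∉ A := by
          intro s hs hsA
          exact hqP ⟨⟨s, hs, hsA⟩, ⟨q, self_mem q, hqA⟩⟩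
        apply u2 hC hq
        intro a ha
        by_cases haq : a ∈ cone q
        · exact ⟨a, haq, le_rfl⟩
        · refine ⟨q, self_mem q, ?_⟩
          obtain ⟨t, htP, hat⟩ := hnotin a haq
          rcases cone_out hat with h | h
          · obtain ⟨⟨s, hs, hsA⟩, _⟩ := htP
            exact absurd (hlow s hsA a (h s hs)) ha
          · exact (h q (hqt t htP (self_mem q))).le

lemma two_points (hC : CCond C d) (t : TT K C d) : ∃ a ∈ cone t, ∃ b ∈ cone t, a ≠ b := by
  obtain ⟨l, hl1, _⟩ := hC.left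
  refine ⟨t, self_mem t, child t (l 0) (hl1 0).ne, child_mem _ _ _, ?_⟩
  intro h
  have h1 := congrArg len h
  rw [child_len] at h1
  exact absurd h1 (Order.lt_succ _).ne

lemma pibase (hC : CCond C d) (x x' : TT K C d) (hx : x < x') : ∃ t, cone t ⊆ Ioo x x' := by
  obtain ⟨l, hl1, hl2⟩ := hC.left
  have hex : ∃ n, x < child x' (l n) (hl1 n).ne := by
    by_cases hst : x ∈ cone x'
    · have h1 := cone_le hst (self_mem x') hx
      rw [len_spec] at h1
      have h2 : x.f (len x') < d := lt_of_le_of_ne h1 (cone_ne hst hx.ne)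
      obtain ⟨n, hn⟩ := hl2 _ h2
      refine ⟨n, cone_lt hst (child_mem _ _ _) ?_⟩
      rw [child_at]
      exact hn
    · rcases cone_out hst with h | h
      · exact ⟨0, h _ (child_mem _ _ _)⟩
      · exact absurd (h x' (self_mem x')) (not_lt.mpr hx.le)
  obtain ⟨n, hn⟩ := hex
  obtain ⟨m, hm⟩ := hl2 (l n) (hl1 n)
  refine ⟨child x' (l m) (hl1 m).ne, ?_⟩
  intro s hs
  obtain ⟨h1, h2⟩ := mem_child.mp hs
  constructor
  · refine hn.trans (cone_lt (child_mem _ _ _) h1 ?_)
    rw [child_at, h2]
    exact hm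
  · refine cone_lt h1 (self_mem x') ?_
    rw [h2, len_spec]
    exact hl1 m

lemma chain (hC : CCond C d) {W : Type} [LinearOrder W] (hW : ∀ f : W → K, ∃ β, ∀ w, f w < β)
    (g : W → TT K C d) (S : Set W)
    (hS : ∀ i ∈ S, ∀ j ∈ S, i ≤ j → cone (g j) ⊆ cone (g i)) :
    ∃ t, ∀ i ∈ S, cone t ⊆ cone (g i) := by
  classical
  obtain ⟨l, hl1, _⟩ := hC.left
  obtain ⟨β, hβ⟩ := hW (fun w => len (g w))
  let x : K → C := fun α => if h : ∃ i, i ∈ S ∧ α < len (g i) then (g h.choose).f α else l 0
  have hx : ∀ i ∈ S, ∀ α, α < len (g i) → x α = (g i).f α := by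
    intro i hi α hα
    have h : ∃ i, i ∈ S ∧ α < len (g i) := ⟨i, hi, hα⟩
    simp only [x]
    rw [dif_pos h]
    rcases le_total i h.choose with h1 | h1
    · exact hS i hi _ h.choose_spec.1 h1 (self_mem _) α hα
    · exact (hS _ h.choose_spec.1 i hi h1 (self_mem _) α h.choose_spec.2).symm
  have hxd : ∀ α, α < β → x α ≠ d := by
    intro α _
    by_cases h : ∃ i, i ∈ S ∧ α < len (g i)
    · obtain ⟨i, hi, h1⟩ := h
      rw [hx i hi α h1]
      exact lt_len h1
    · simp only [x]
      rw [dif_neg h]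
      exact (hl1 0).ne
  refine ⟨mk' x β hxd, ?_⟩
  intro i hi s hs α hα
  have h1 : α < β := hα.trans (hβ i)
  rw [hs α (by rw [mk'_len]; exact h1), mk'_f h1]
  exact hx i hi α hα

end Pool.Agent.V116.ChainTree
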