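import Mathlib
import Pool.Agent.V116.ChainGamma
import Pool.Agent.V116.ChainCBD
import Pool.Agent.V116.ChainTree
import Pool.Agent.V116.ChainEval

/-!
The chain: choice of the index order and of the branching order.
-/

namespace Pool.Agent.V116.ChainFinal

open Set Cardinal Pool.Agent.V116.ChainGamma Pool.Agent.V116.ChainCBD Pool.Agent.V116.ChainTree

/-- Every nontrivial cut has a maximum on the left or a minimum on the right. -/
def CutP (α : Type) [LinearOrder α] : Prop :=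
  ∀ A : Set α, (∀ a ∈ A, ∀ x, x ≤ a → x ∈ A) → A.Nonempty → Aᶜ.Nonempty →
    (∃ a ∈ A, ∀ x ∈ A, x ≤ a) ∨ (∃ b, b ∉ A ∧ ∀ x, x ∉ A → b ≤ x)

lemma cut_wo (α : Type) [LinearOrder α] [WellFoundedLT α] : CutP α := by
  intro A _ _ h
  right
  refine ⟨(wellFounded_lt (α := α)).min _ h, (wellFounded_lt (α := α)).min_mem _ h, ?_⟩
  intro x hx
  exact not_lt.mp ((wellFounded_lt (α := α)).not_lt_min _ hx)

lemma cut_rwo (α : Type) [LinearOrder α] [WellFoundedGT α] : CutP α := by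
  intro A _ h _
  left
  refine ⟨(wellFounded_gt (α := α)).min _ h, (wellFounded_gt (α := α)).min_mem _ h, ?_⟩
  intro x hx
  exact not_lt.mp ((wellFounded_gt (α := α)).not_lt_min _ hx)

/-- Left summand. -/
def il {α β : Type} (a : α) : Lex (α ⊕ β) := toLex (Sum.inl a)
/-- Right summand. -/
def ir {α β : Type} (b : β) : Lex (α ⊕ β) := toLex (Sum.inr b)

section Sums

variable {α β : Type} [LinearOrder α] [LinearOrder β]

lemma il_le {a b : α} : (il a : Lex (α ⊕ β)) ≤ il b ↔ a ≤ b := Sum.Lex.inl_le_inl_iff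
lemma ir_le {a b : β} : (ir a : Lex (α ⊕ β)) ≤ ir b ↔ a ≤ b := Sum.Lex.inr_le_inr_iff
lemma il_lt {a b : α} : (il a : Lex (α ⊕ β)) < il b ↔ a < b := Sum.Lex.inl_lt_inl_iff
lemma ir_lt {a b : β} : (ir a : Lex (α ⊕ β)) < ir b ↔ a < b := Sum.Lex.inr_lt_inr_iff
lemma il_lt_ir (a : α) (b : β) : (il a : Lex (α ⊕ β)) < ir b := Sum.Lex.inl_lt_inr a b

lemma sum_cases (x : Lex (α ⊕ β)) : (∃ a, x = il a) ∨ (∃ b, x = ir b) := by
  rcases x with a | b
  · exact Or.inl ⟨a, rfl⟩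
  · exact Or.inr ⟨b, rfl⟩

lemma cut_sum (h1 : CutP α) (h2 : CutP β)
    (h3 : (∃ a : α, ∀ x, x ≤ a) ∨ (∃ b : β, ∀ x, b ≤ x)) : CutP (Lex (α ⊕ β)) := by
  intro A hlow hne hnec
  by_cases hB : ∃ b : β, ir b ∈ A
  · have hall : ∀ a : α, (il a : Lex (α ⊕ β)) ∈ A := by
      obtain ⟨b, hb⟩ := hB
      exact fun a => hlow _ hb _ (il_lt_ir a b).le
    have hcn : ({b | (ir b : Lex (α ⊕ β)) ∈ A}ᶜ : Set β).Nonempty := by
      obtain ⟨x, hx⟩ := hnec
      rcases sum_cases x with ⟨a, rfl⟩ | ⟨b, rfl⟩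
      · exact absurd (hall a) hx
      · exact ⟨b, hx⟩
    rcases h2 {b | (ir b : Lex (α ⊕ β)) ∈ A} (fun a ha x hx => hlow _ ha _ (ir_le.mpr hx))
      hB hcn with ⟨b, hb, hmax⟩ | ⟨b, hb, hmin⟩
    · left
      refine ⟨ir b, hb, ?_⟩
      intro x hx
      rcases sum_cases x with ⟨a, rfl⟩ | ⟨b', rfl⟩
      · exact (il_lt_ir a b).le
      · exact ir_le.mpr (hmax b' hx)
    · right
      refine ⟨ir b, hb, ?_⟩
      intro x hx
      rcases sum_cases x with ⟨a, rfl⟩ | ⟨b', rfl⟩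
      · exact absurd (hall a) hx
      · exact ir_le.mpr (hmin b' hx)
  · by_cases hA : ∀ a : α, (il a : Lex (α ⊕ β)) ∈ A
    · rcases h3 with ⟨a, ha⟩ | ⟨b, hb⟩
      · left
        refine ⟨il a, hA a, ?_⟩
        intro x hx
        rcases sum_cases x with ⟨a', rfl⟩ | ⟨b', rfl⟩
        · exact il_le.mpr (ha a')
        · exact absurd ⟨b', hx⟩ hB
      · right
        refine ⟨ir b, fun h => hB ⟨b, h⟩, ?_⟩
        intro x hx
        rcases sum_cases x with ⟨a', rfl⟩ | ⟨b', rfl⟩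
        · exact absurd (hA a') hx
        · exact ir_le.mpr (hb b')
    · push Not at hA
      have hne' : ({a | (il a : Lex (α ⊕ β)) ∈ A} : Set α).Nonempty := by
        obtain ⟨x, hx⟩ := hne
        rcases sum_cases x with ⟨a, rfl⟩ | ⟨b, rfl⟩
        · exact ⟨a, hx⟩
        · exact absurd ⟨b, hx⟩ hB
      rcases h1 {a | (il a : Lex (α ⊕ β)) ∈ A} (fun a ha x hx => hlow _ ha _ (il_le.mpr hx))
        hne' hA with ⟨a, ha, hmax⟩ | ⟨a, ha, hmin⟩
      · left
        refine ⟨il a, ha, ?_⟩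
        intro x hx
        rcases sum_cases x with ⟨a', rfl⟩ | ⟨b', rfl⟩
        · exact il_le.mpr (hmax a' hx)
        · exact absurd ⟨b', hx⟩ hB
      · right
        refine ⟨il a, ha, ?_⟩
        intro x hx
        rcases sum_cases x with ⟨a', rfl⟩ | ⟨b', rfl⟩
        · exact il_le.mpr (hmin a' hx)
        · exact (il_lt_ir a b').le

end Sums

section BaseChain

variable (K : Type) [LinearOrder K] [WellFoundedLT K]

/-- Left part `K* + ω`. -/
abbrev LP : Type := Lex (Kᵒᵈ ⊕ ℕ)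
/-- Right part `ω* + K`. -/
abbrev RP : Type := Lex (ℕᵒᵈ ⊕ K)
/-- The chain `K* + ω + 1 + ω* + K`. -/
abbrev CC : Type := Lex (LP K ⊕ Lex (Unit ⊕ RP K))

/-- The distinguished point. -/
def dd : CC K := ir (il ())

lemma ccond (hK : ∀ f : ℕ → K, ∃ β, ∀ n, f n < β) [Nonempty K] : CCond (CC K) (dd K) where
  left := by
    refine ⟨fun n => il (ir n), fun n => il_lt_ir _ _, ?_⟩
    intro c hc
    rcases sum_cases c with ⟨a, rfl⟩ | ⟨b, rfl⟩
    · rcases sum_cases a with ⟨a, rfl⟩ | ⟨n, rfl⟩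
      · exact ⟨0, il_lt.mpr (il_lt_ir _ _)⟩
      · exact ⟨n + 1, il_lt.mpr (ir_lt.mpr (Nat.lt_succ_self n))⟩
    · exfalso
      have hc' : b < il () := ir_lt.mp hc
      rcases sum_cases b with ⟨a, rfl⟩ | ⟨b, rfl⟩
      · exact lt_irrefl _ hc'
      · exact absurd (il_lt_ir () b) (not_lt.mpr hc'.le)
  right := by
    refine ⟨fun n => ir (ir (il (OrderDual.toDual n))), fun n => ir_lt.mpr (il_lt_ir _ _), ?_⟩
    intro c hc
    rcases sum_cases c with ⟨a, rfl⟩ | ⟨b, rfl⟩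
    · exact absurd (il_lt_ir a (il ())) (not_lt.mpr hc.le)
    · have hc' : il () < b := ir_lt.mp hc
      rcases sum_cases b with ⟨a, rfl⟩ | ⟨b, rfl⟩
      · exact absurd hc' (lt_irrefl _)
      · rcases sum_cases b with ⟨a, rfl⟩ | ⟨n, rfl⟩
        · refine ⟨OrderDual.ofDual a + 1, ir_lt.mpr (ir_lt.mpr (il_lt.mpr ?_))⟩
          exact OrderDual.toDual_lt.mpr (Nat.lt_succ_self _)
        · exact ⟨0, ir_lt.mpr (ir_lt.mpr (il_lt_ir _ _))⟩
  ub := by
    intro f
    have hg : ∀ x : CC K, ∃ k : K, ∀ k', k < k' → x < ir (ir (ir k')) := by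
      intro x
      rcases sum_cases x with ⟨a, rfl⟩ | ⟨b, rfl⟩
      · exact ⟨Classical.arbitrary K, fun k' _ => il_lt_ir _ _⟩
      · rcases sum_cases b with ⟨a, rfl⟩ | ⟨b, rfl⟩
        · exact ⟨Classical.arbitrary K, fun k' _ => ir_lt.mpr (il_lt_ir _ _)⟩
        · rcases sum_cases b with ⟨a, rfl⟩ | ⟨b, rfl⟩
          · exact ⟨Classical.arbitrary K, fun k' _ => ir_lt.mpr (ir_lt.mpr (il_lt_ir _ _))⟩
          · exact ⟨b, fun k' hk => ir_lt.mpr (ir_lt.mpr (ir_lt.mpr hk))⟩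
    choose g hg using hg
    obtain ⟨β, hβ⟩ := hK (fun n => g (f n))
    exact ⟨ir (ir (ir β)), fun n => hg _ _ (hβ n)⟩
  lb := by
    intro f
    have hg : ∀ x : CC K, ∃ k : K, ∀ k', k < k' → il (il (OrderDual.toDual k')) < x := by
      intro x
      rcases sum_cases x with ⟨a, rfl⟩ | ⟨b, rfl⟩
      · rcases sum_cases a with ⟨a, rfl⟩ | ⟨b, rfl⟩
        · refine ⟨OrderDual.ofDual a, fun k' hk => il_lt.mpr (il_lt.mpr ?_)⟩
          exact OrderDual.toDual_lt.mpr hk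
        · exact ⟨Classical.arbitrary K, fun k' _ => il_lt.mpr (il_lt_ir _ _)⟩
      · exact ⟨Classical.arbitrary K, fun k' _ => il_lt_ir _ _⟩
    choose g hg using hg
    obtain ⟨β, hβ⟩ := hK (fun n => g (f n))
    exact ⟨il (il (OrderDual.toDual β)), fun n => hg _ _ (hβ n)⟩
  cut := by
    have e1 : CutP (LP K) := cut_sum (cut_rwo _) (cut_wo _) (Or.inr ⟨0, Nat.zero_le⟩)
    have e2 : CutP (RP K) := cut_sum (cut_rwo _) (cut_wo _)
      (Or.inl ⟨OrderDual.toDual 0, fun x => by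
        rw [← OrderDual.toDual_ofDual x]
        exact OrderDual.toDual_le_toDual.mpr (Nat.zero_le _)⟩)
    have e3 : CutP (Lex (Unit ⊕ RP K)) := cut_sum (cut_wo _) e2 (Or.inl ⟨(), fun _ => le_rfl⟩)
    exact cut_sum e1 e3 (Or.inr ⟨il (), fun x => by
      rcases sum_cases x with ⟨a, rfl⟩ | ⟨b, rfl⟩
      · exact le_rfl
      · exact (il_lt_ir _ _).le⟩)

end BaseChain

/-- The index order: the least ordinal of cardinality `ℵ_2`. -/
abbrev KK : Type := (ℵ_ 2).ord.ToType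

/-- The least ordinal of cardinality `ℵ_1`. -/
abbrev WW : Type := (ℵ_ 1).ord.ToType

lemma isReg2 : Cardinal.IsRegular (ℵ_ 2) := by
  have : (2 : Ordinal) = 1 + 1 := by norm_num
  rw [this]
  exact isRegular_aleph_add_one 1

lemma bounded_of_small {W : Type} (hW : #W < ℵ_ 2) (f : W → KK) : ∃ β, ∀ w, f w < β := by
  by_contra hcon
  push Not at hcon
  have hcof : IsCofinal (range f) := by
    intro β
    obtain ⟨w, hw⟩ := hcon β
    exact ⟨f w, ⟨w, rfl⟩, hw⟩
  have h1 : Order.cof KK ≤ #(range f) := Order.cof_le hcof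
  rw [Ordinal.cof_toType, isReg2.cof_ord] at h1
  exact absurd (h1.trans mk_range_le) (not_le.mpr hW)

lemma mk_W : #WW = ℵ_ 1 := by
  rw [mk_toType, card_ord]

lemma w_unc : Uncountable WW := by
  rw [← Cardinal.aleph0_lt_mk_iff, mk_W]
  exact aleph0_lt_aleph_one

/-- The chain of the counterexample. -/
abbrev TC : Type := TT KK (CC KK) (dd KK)

theorem main : (∀ a ∈ OT TC, ∀ b ∈ OT TC, CBD a b) ∧
    ∀ (G : Type) [AddCommGroup G] [Lattice G] [IsOrderedAddMonoid G],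
      ¬ Nonempty ((OT TC : Set (Set TC)) ≃o ChainEval.PI G) := by
  haveI : NoMaxOrder KK := Cardinal.noMaxOrder isReg2.aleph0_le
  haveI : Nonempty KK := by
    rw [Ordinal.nonempty_toType_iff]
    exact isReg2.ord_pos.ne'
  have hW : ∀ f : WW → KK, ∃ β, ∀ w, f w < β := fun f => bounded_of_small (by
    rw [mk_W]
    exact aleph_lt_aleph.mpr (by norm_num)) f
  have hN : ∀ f : ℕ → KK, ∃ β, ∀ n, f n < β := fun f => bounded_of_small (by
    rw [mk_nat]
    exact aleph0_lt_aleph.mpr (by norm_num)) f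
  have hC : CCond (CC KK) (dd KK) := ccond KK hN
  haveI := noMin (K := KK) hC
  haveI := noMax (K := KK) hC
  haveI := ChainTree.dense (K := KK) hC
  haveI := ChainTree.nonempty (K := KK) hC
  refine ⟨fun a ha b hb => cbd (lchar hC) (rchar hC) ha hb, ?_⟩
  intro G _ _ _ ⟨φ⟩
  obtain ⟨Γ⟩ := ChainEval.gam_of_iso φ
  exact no_gam Γ (ctbl hC) (gap hC hN) w_unc cone cone_conn (two_points hC) (pibase hC)
    (fun g S hS => chain hC hW g S hS)

end Pool.Agent.V116.ChainFinal
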